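import Pool.Agent.HMidB.HermB
import Pool.Agent.HHalf.Defs

/-!
# End values (Gauss–Lucas) and the bounds of the coefficients `β_i`
-/

set_option autoImplicit false

namespace Pool.Agent.HMidB

open Polynomial MeasureTheory intervalIntegral Set ComplexConjugate

theorem disc_derivative {p : ℂ[X]} (hp : ∀ w, p.eval w = 0 → ‖w‖ ≤ 1) (hd : 0 < p.natDegree) {w : ℂ}
    (hw : p.derivative.eval w = 0) : ‖w‖ ≤ 1 := by
  have hdeg : 0 < p.degree := natDegree_pos_iff_degree_pos.1 hd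
  have hp0 : p ≠ 0 := by rintro rfl; simp at hd
  have hdp : p.derivative ≠ 0 := by
    intro h0
    have := derivative_eq_zero.1 h0
    omega
  have h1 := rootSet_derivative_subset_convexHull_rootSet hdeg (a := w) (by
    rw [mem_rootSet, coe_aeval_eq_eval]
    exact ⟨hdp, hw⟩)
  have h2 : p.rootSet ℂ ⊆ Metric.closedBall (0:ℂ) 1 := by
    intro u hu
    rw [mem_rootSet, coe_aeval_eq_eval] at hu
    rw [mem_closedBall_zero_iff]
    exact hp u hu.2
  have h3 := convexHull_min h2 (convex_closedBall (0:ℂ) 1) h1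
  rwa [mem_closedBall_zero_iff] at h3

theorem re_frac_ge {c z : ℂ} (hc : ‖c‖ = 1) (hz : ‖z‖ ≤ 1) (hne : c - z ≠ 0) :
    1 / 2 ≤ (c * (1 / (c - z))).re := by
  rw [mul_one_div, Complex.div_re, ← add_div, le_div_iff₀ (Complex.normSq_pos.2 hne)]
  have h1 : c.re ^ 2 + c.im ^ 2 = 1 := by
    have := Complex.sq_norm c
    rw [hc, Complex.normSq_apply] at this
    nlinarith
  have h2 : z.re ^ 2 + z.im ^ 2 ≤ 1 := by
    have h3 := Complex.sq_norm z
    rw [Complex.normSq_apply] at h3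
    have : ‖z‖ ^ 2 ≤ 1 := pow_le_one₀ (norm_nonneg _) hz
    nlinarith
  rw [Complex.normSq_apply, Complex.sub_re, Complex.sub_im]
  nlinarith

theorem deriv_ge {p : ℂ[X]} (hp : ∀ w, p.eval w = 0 → ‖w‖ ≤ 1) {c : ℂ} (hc : ‖c‖ = 1) :
    (p.natDegree : ℝ) / 2 * ‖p.eval c‖ ≤ ‖p.derivative.eval c‖ := by
  by_cases h0 : p.eval c = 0
  · rw [h0, norm_zero, mul_zero]
    exact norm_nonneg _
  · have h1 := (IsAlgClosed.splits p).eval_derivative_div_eval_of_ne_zero h0
    have h2 : (p.natDegree : ℝ) / 2 ≤ (c * (p.roots.map fun z => 1 / (c - z)).sum).re := by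
      rw [(IsAlgClosed.splits p).natDegree_eq_card_roots, ← Multiset.sum_map_mul_left,
        ← Complex.coe_reAddGroupHom, map_multiset_sum, Multiset.map_map]
      have h3 : ∀ t ∈ (p.roots.map (Complex.reAddGroupHom ∘ fun z => c * (1 / (c - z)))),
          (1/2 : ℝ) ≤ t := by
        intro t ht
        obtain ⟨z, hz, rfl⟩ := Multiset.mem_map.1 ht
        have hz1 := (mem_roots'.1 hz).2
        have hne : c - z ≠ 0 := by
          intro h
          rw [sub_eq_zero.1 h] at h0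
          exact h0 hz1
        exact re_frac_ge hc (hp z hz1) hne
      have h4 := Multiset.card_nsmul_le_sum h3
      rw [Multiset.card_map, nsmul_eq_mul] at h4
      linarith
    have h5 : (p.natDegree : ℝ) / 2 ≤ ‖p.derivative.eval c / p.eval c‖ := by
      rw [h1]
      refine h2.trans ((Complex.re_le_norm _).trans ?_)
      rw [norm_mul, hc, one_mul]
    rw [norm_div, le_div_iff₀ (norm_pos_iff.2 h0)] at h5
    exact h5

theorem hasse_disc {p : ℂ[X]} (hp : ∀ w, p.eval w = 0 → ‖w‖ ≤ 1) (m : ℕ) (hm : m ≤ p.natDegree) : ∀ w, (hasseDeriv m p).eval w = 0 → ‖w‖ ≤ 1 := by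
  induction m with
  | zero =>
    intro w hw
    rw [hasseDeriv_zero] at hw
    exact hp w (by simpa using hw)
  | succ m ih =>
    intro w hw
    have h1 := ih (by omega)
    refine disc_derivative h1 ?_ (w := w) ?_
    · rw [natDegree_hasseDeriv]
      omega
    · rw [derivative_hasse, eval_mul, hw, mul_zero]

theorem hasse_end_step {p : ℂ[X]} (hp : ∀ w, p.eval w = 0 → ‖w‖ ≤ 1) {m : ℕ}
    (hm : m ≤ p.natDegree) {c : ℂ} (hc : ‖c‖ = 1) :
    ((p.natDegree - m : ℕ) : ℝ) * ‖(hasseDeriv m p).eval c‖ ≤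
      2 * ((m + 1 : ℕ) : ℝ) * ‖(hasseDeriv (m + 1) p).eval c‖ := by
  have h1 := deriv_ge (hasse_disc hp m hm) hc
  rw [natDegree_hasseDeriv, derivative_hasse, eval_mul, eval_natCast, norm_mul,
    Complex.norm_natCast] at h1
  linarith

/-- **End values.** -/
theorem hasse_end {p : ℂ[X]} (hp : ∀ w, p.eval w = 0 → ‖w‖ ≤ 1) {i k : ℕ}
    (hik : i ≤ k) (hk : k ≤ p.natDegree) {c : ℂ} (hc : ‖c‖ = 1) :
    (p.natDegree.choose k : ℝ) * ‖(hasseDeriv i p).eval c‖ ≤
      2 ^ (k - i) * (p.natDegree.choose i : ℝ) * ‖(hasseDeriv k p).eval c‖ := by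
  induction k, hik using Nat.le_induction with
  | base => simp
  | succ k hik ih =>
    have ih' := ih (by omega)
    have h1 := hasse_end_step hp (m := k) (by omega) hc
    have h2 : ((p.natDegree.choose (k + 1) : ℕ) : ℝ) * ((k + 1 : ℕ) : ℝ) =
        (p.natDegree.choose k : ℝ) * ((p.natDegree - k : ℕ) : ℝ) := by
      exact_mod_cast Nat.choose_succ_right_eq p.natDegree k
    have e : k + 1 - i = (k - i) + 1 := by omega
    rw [e, pow_succ]
    have hk1 : (0:ℝ) < ((k + 1 : ℕ) : ℝ) := by positivity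
    have hA := norm_nonneg ((hasseDeriv i p).eval c)
    have h3 := mul_le_mul_of_nonneg_left ih' (Nat.cast_nonneg (α := ℝ) (p.natDegree - k))
    have h4 := mul_le_mul_of_nonneg_left h1
      (by positivity : (0:ℝ) ≤ 2 ^ (k - i) * (p.natDegree.choose i : ℝ))
    refine le_of_mul_le_mul_right ?_ hk1
    calc (p.natDegree.choose (k + 1) : ℝ) * ‖(hasseDeriv i p).eval c‖ * ((k + 1 : ℕ) : ℝ)
        = ((p.natDegree.choose (k + 1) : ℕ) : ℝ) * ((k + 1 : ℕ) : ℝ) *
            ‖(hasseDeriv i p).eval c‖ := by ring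
      _ = ((p.natDegree - k : ℕ) : ℝ) * ((p.natDegree.choose k : ℝ) *
            ‖(hasseDeriv i p).eval c‖) := by rw [h2]; ring
      _ ≤ ((p.natDegree - k : ℕ) : ℝ) * (2 ^ (k - i) * (p.natDegree.choose i : ℝ) *
            ‖(hasseDeriv k p).eval c‖) := h3
      _ = 2 ^ (k - i) * (p.natDegree.choose i : ℝ) *
            (((p.natDegree - k : ℕ) : ℝ) * ‖(hasseDeriv k p).eval c‖) := by ring
      _ ≤ 2 ^ (k - i) * (p.natDegree.choose i : ℝ) *
            (2 * ((k + 1 : ℕ) : ℝ) * ‖(hasseDeriv (k + 1) p).eval c‖) := h4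
      _ = _ := by ring

section nodes

open Pool.Agent.HHalf

theorem om_ne {n : ℕ} (z : Fin n → ℂ) : om z ≠ 0 :=
  (monic_prod_of_monic _ _ fun i _ => monic_X_sub_C (z i)).ne_zero

theorem om_natDegree {n : ℕ} (z : Fin n → ℂ) : (om z).natDegree = n := by
  unfold om
  rw [natDegree_prod_of_monic _ _ fun i _ => monic_X_sub_C (z i)]
  simp

theorem om_disc {n : ℕ} {z : Fin n → ℂ} (hz : ∀ i, ‖z i‖ ≤ 1) :
    ∀ w, (om z).eval w = 0 → ‖w‖ ≤ 1 := by
  intro w hw
  unfold om at hw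
  rw [eval_prod, Finset.prod_eq_zero_iff] at hw
  obtain ⟨i, _, hi⟩ := hw
  rw [eval_sub, eval_X, eval_C, sub_eq_zero] at hi
  rw [hi]
  exact hz i

/-- **End values** of `ω`. -/
theorem om_end {n : ℕ} {z : Fin n → ℂ} (hz : ∀ i, ‖z i‖ ≤ 1) {i k : ℕ} (hik : i ≤ k) (hk : k ≤ n)
    {c : ℂ} (hc : ‖c‖ = 1) :
    (n.choose k : ℝ) * ‖(hasseDeriv i (om z)).eval c‖ ≤
      2 ^ (k - i) * (n.choose i : ℝ) * ‖(hasseDeriv k (om z)).eval c‖ := by
  have h := hasse_end (om_disc hz) hik (by rwa [om_natDegree]) hc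
  rwa [om_natDegree] at h

end nodes

/-- The lower tail of the binomial law with the parameters `k`, `(1+x)/2`. -/
noncomputable def lo (k i : ℕ) (x : ℝ) : ℝ :=
  ∑ l ∈ Finset.range (i + 1), (k.choose l : ℝ) * ((1 + x) / 2) ^ l * ((1 - x) / 2) ^ (k - l)

/-- The upper tail. -/
noncomputable def hi (k i : ℕ) (x : ℝ) : ℝ :=
  ∑ l ∈ Finset.Ico (i + 1) (k + 1), (k.choose l : ℝ) * ((1 + x) / 2) ^ l * ((1 - x) / 2) ^ (k - l)

theorem lo_add_hi {k i : ℕ} (hi' : i ≤ k) (x : ℝ) : lo k i x + hi k i x = 1 := by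
  unfold lo hi
  rw [Finset.sum_range_add_sum_Ico _ (by omega : i + 1 ≤ k + 1)]
  have h : ((1 + x) / 2 + (1 - x) / 2) ^ k = 1 := by
    have : (1 + x) / 2 + (1 - x) / 2 = 1 := by ring
    rw [this, one_pow]
  rw [add_pow] at h
  refine Eq.trans (Finset.sum_congr rfl fun l _ => ?_) h
  ring

theorem lo_nonneg (k i : ℕ) {x : ℝ} (h1 : -1 ≤ x) (h2 : x ≤ 1) : 0 ≤ lo k i x := by
  unfold lo
  have h3 : 0 ≤ (1 + x) / 2 := by linarith
  have h4 : 0 ≤ (1 - x) / 2 := by linarith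
  positivity

theorem hi_nonneg (k i : ℕ) {x : ℝ} (h1 : -1 ≤ x) (h2 : x ≤ 1) : 0 ≤ hi k i x := by
  unfold hi
  have h3 : 0 ≤ (1 + x) / 2 := by linarith
  have h4 : 0 ≤ (1 - x) / 2 := by linarith
  positivity

theorem hasDerivAt_lo {K i : ℕ} (hi : i ≤ K) (x : ℝ) :
    HasDerivAt (lo (K + 1) i) (-((K + 1 : ℕ) : ℝ) / 2 * BB K i x) x := by
  have hu : HasDerivAt (fun x : ℝ => (1 + x) / 2) (1 / 2) x := by
    simpa using ((hasDerivAt_id x).const_add 1).div_const 2
  have hv : HasDerivAt (fun x : ℝ => (1 - x) / 2) (-1 / 2) x := by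
    simpa using ((hasDerivAt_id x).const_sub 1).div_const 2
  induction i with
  | zero =>
    have h1 := hv.fun_pow (K + 1)
    have e : lo (K + 1) 0 = fun x => ((1 - x) / 2) ^ (K + 1) := by
      funext x
      unfold lo
      simp
    rw [e]
    refine h1.congr_deriv ?_
    unfold BB
    simp only [Nat.add_sub_cancel, Nat.choose_zero_right, pow_zero, Nat.sub_zero]
    push_cast
    ring
  | succ i ih =>
    have ih' := ih (by omega)
    have h1 := (hu.fun_pow (i + 1)).const_mul (((K + 1).choose (i + 1) : ℕ) : ℝ)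
    have h2 := h1.mul (hv.fun_pow (K - i))
    have h3 := ih'.add h2
    have e : lo (K + 1) (i + 1) = lo (K + 1) i + ((fun x => (((K + 1).choose (i + 1) : ℕ) : ℝ) *
        ((1 + x) / 2) ^ (i + 1)) * fun x => ((1 - x) / 2) ^ (K - i)) := by
      funext x
      unfold lo
      rw [Finset.sum_range_succ]
      have : K + 1 - (i + 1) = K - i := by omega
      rw [this]
      rfl
    rw [e]
    refine h3.congr_deriv ?_
    unfold BB
    have c1 : (((K + 1).choose (i + 1) : ℕ) : ℝ) * ((i + 1 : ℕ) : ℝ) =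
        ((K + 1 : ℕ) : ℝ) * (K.choose i : ℝ) := by
      exact_mod_cast (Nat.add_one_mul_choose_eq K i).symm
    have c2 : (((K + 1).choose (i + 1) : ℕ) : ℝ) * ((K - i : ℕ) : ℝ) =
        ((K + 1 : ℕ) : ℝ) * (K.choose (i + 1) : ℝ) := by
      have h4 := Nat.choose_mul_succ_eq K (i + 1)
      have h5 : K + 1 - (i + 1) = K - i := by omega
      rw [h5] at h4
      have h6 : (K + 1).choose (i + 1) * (K - i) = (K + 1) * K.choose (i + 1) := by
        rw [← h4, mul_comm]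
      exact_mod_cast h6
    have e1 : i + 1 - 1 = i := by omega
    have e2 : K - i - 1 = K - (i + 1) := by omega
    rw [e1, e2]
    have e3 : ((1 - x) / 2) ^ (K - i) = ((1 - x) / 2) ^ (K - (i + 1)) * ((1 - x) / 2) := by
      rw [← pow_succ]
      congr 1
      omega
    calc _ = -((K + 1 : ℕ) : ℝ) / 2 * ((K.choose i : ℝ) * ((1 + x) / 2) ^ i *
            ((1 - x) / 2) ^ (K - i)) +
          ((((K + 1).choose (i + 1) : ℕ) : ℝ) * ((i + 1 : ℕ) : ℝ)) * ((1 + x) / 2) ^ i * (1 / 2) *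
            ((1 - x) / 2) ^ (K - i) -
          ((((K + 1).choose (i + 1) : ℕ) : ℝ) * ((K - i : ℕ) : ℝ)) * ((1 + x) / 2) ^ (i + 1) *
            ((1 - x) / 2) ^ (K - (i + 1)) * (1 / 2) := by ring
      _ = _ := by rw [c1, c2]; ring

theorem integral_BB_hi {K i : ℕ} (hi' : i ≤ K) (a b : ℝ) :
    ((K + 1 : ℕ) : ℝ) * ∫ t in a..b, BB K i t = 2 * (lo (K + 1) i a - lo (K + 1) i b) := by
  have h1 : ∀ t ∈ uIcc a b, HasDerivAt (lo (K + 1) i) (-((K + 1 : ℕ) : ℝ) / 2 * BB K i t) t :=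
    fun t _ => hasDerivAt_lo hi' t
  have h2 := integral_eq_sub_of_hasDerivAt h1
    ((continuous_const.mul (continuous_BB K i)).intervalIntegrable _ _)
  rw [intervalIntegral.integral_const_mul] at h2
  linarith

theorem lo_one {K i : ℕ} (hi : i ≤ K) : lo (K + 1) i 1 = 0 := by
  unfold lo
  refine Finset.sum_eq_zero fun l hl => ?_
  have := Finset.mem_range.1 hl
  have e : ((1 - 1 : ℝ) / 2) ^ (K + 1 - l) = 0 := by
    rw [sub_self, zero_div, zero_pow (by omega)]
  rw [e, mul_zero]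

theorem lo_neg_one (K i : ℕ) : lo (K + 1) i (-1) = 1 := by
  unfold lo
  rw [Finset.sum_range_succ']
  rw [Finset.sum_eq_zero]
  · norm_num
  · intro l _
    have e : ((1 + -1 : ℝ) / 2) ^ (l + 1) = 0 := by
      rw [add_neg_cancel, zero_div, zero_pow (by omega)]
    rw [e, mul_zero, zero_mul]

theorem norm_bet_le {K i : ℕ} {q : ℂ[X]} {a b M : ℝ} (ha : -1 ≤ a) (hab : a ≤ b) (hb : b ≤ 1)
    (hM : ∀ t : ℝ, -1 ≤ t → t ≤ 1 → ‖(hasseDeriv (K + 1) q).eval (t:ℂ)‖ ≤ M) :
    ‖bet K i q a b‖ ≤ M * (((K + 1 : ℕ) : ℝ) * ∫ t in a..b, BB K i t) := by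
  unfold bet
  rw [norm_mul, Complex.norm_natCast]
  have h1 : ‖∫ t in a..b, (BB K i t : ℂ) * (hasseDeriv (K + 1) q).eval (t : ℂ)‖ ≤
      ∫ t in a..b, M * BB K i t := by
    refine norm_integral_le_of_norm_le hab ?_
      ((continuous_const.mul (continuous_BB K i)).intervalIntegrable _ _)
    refine Filter.Eventually.of_forall fun t ht => ?_
    have h2 : -1 ≤ t := ha.trans ht.1.le
    have h3 : t ≤ 1 := ht.2.trans hb
    rw [norm_mul, Complex.norm_real, Real.norm_eq_abs, abs_of_nonneg (BB_nonneg K i h2 h3),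
      mul_comm]
    exact mul_le_mul_of_nonneg_right (hM t h2 h3) (BB_nonneg K i h2 h3)
  rw [intervalIntegral.integral_const_mul] at h1
  calc ((K + 1 : ℕ) : ℝ) * _ ≤ ((K + 1 : ℕ) : ℝ) * (M * ∫ t in a..b, BB K i t) :=
        mul_le_mul_of_nonneg_left h1 (Nat.cast_nonneg _)
    _ = _ := by ring

end Pool.Agent.HMidB
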