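import Pool.Agent.HMidB.Fix
import Pool.Agent.HSixP1.T1

/-!
# The fixed-degree majorant on a box `x0 ≤ x ≤ x1`, and the resulting criterion

`m = 2h+1`, `k = p + m`, `a + b = m`. End values: `|H_{k-l} ω(±1)| ≤ C(k,l) gam(k+2,l) M`.
-/

set_option autoImplicit false

namespace Pool.Agent.HMidB

open Polynomial MeasureTheory Set ComplexConjugate Pool.Agent.HHalf Pool.Agent.HStar
  Pool.Agent.HFin Pool.Agent.HSixP1

theorem hv_end_gam {N k : ℕ} {L : Fin N → ℂ} (hL : ∀ a, ‖L a‖ ≤ 1) (hk : k ≤ 2 * N) {M : ℝ}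
    (hM : IsM L k M) {l : ℕ} (hl : l ≤ k) {t : ℝ} (ht : |t| = 1) {d : ℕ} (hd : d ≤ 2 * N - k) :
    |hv L (k - l) t| ≤ (k.choose l : ℕ) * gam d l * M := by
  have htI : t ∈ Icc (-1:ℝ) 1 := abs_le.1 ht.le
  have hM0 : 0 ≤ M := (abs_nonneg _).trans (hM t htI)
  have h3 := hv_end hL (i := k - l) (k := k) (by omega) hk ht
  have e3 : k - (k - l) = l := by omega
  rw [e3] at h3
  have h4 : |hv L k t| ≤ M := hM t htI
  have hb : ((2 * N).choose (k - l) * (2 * N - k + l).choose l : ℕ) =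
      (2 * N).choose k * k.choose l := by
    have b1 := Nat.choose_mul (n := 2 * N) (k := k) (s := k - l) (by omega)
    have e4 : 2 * N - (k - l) = 2 * N - k + l := by omega
    rw [e4, e3] at b1
    rw [← b1, Nat.choose_symm (by omega : l ≤ k)]
  have hbr : (((2 * N).choose (k - l) : ℕ) : ℝ) * (((2 * N - k + l).choose l : ℕ) : ℝ) =
      (((2 * N).choose k : ℕ) : ℝ) * ((k.choose l : ℕ) : ℝ) := by exact_mod_cast hb
  have hA : (0:ℝ) < ((2 * N).choose k : ℕ) := by exact_mod_cast Nat.choose_pos hk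
  have hC := choose_pos' (2 * N - k) l
  have h5 : |hv L (k - l) t| ≤ (k.choose l : ℕ) * gam (2 * N - k) l * M := by
    refine le_of_mul_le_mul_left ?_ hA
    refine h3.trans ?_
    have h6 : 2 ^ l * (((2 * N).choose (k - l) : ℕ) : ℝ) =
        (((2 * N).choose k : ℕ) : ℝ) * ((k.choose l : ℕ) * gam (2 * N - k) l) := by
      unfold gam
      field_simp
      linear_combination hbr
    rw [h6]
    have h7 : 0 ≤ (((2 * N).choose k : ℕ) : ℝ) * ((k.choose l : ℕ) * gam (2 * N - k) l) := by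
      have := gam_nonneg (2 * N - k) l
      positivity
    calc _ ≤ (((2 * N).choose k : ℕ) : ℝ) * ((k.choose l : ℕ) * gam (2 * N - k) l) * M :=
          mul_le_mul_of_nonneg_left h4 h7
      _ = _ := by ring
  refine h5.trans ?_
  refine mul_le_mul_of_nonneg_right ?_ hM0
  exact mul_le_mul_of_nonneg_left (gam_anti hd l) (Nat.cast_nonneg _)

/-- The end values of `H_p ω`, `k = p + m`. -/
noncomputable def ge (p m i : ℕ) : ℝ :=
  ((p + i).choose i : ℕ) * (((p + m).choose (m - i) : ℕ) * gam (p + m + 2) (m - i))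

theorem bdG_mono {g : ℕ → ℝ} (hg : ∀ i, 0 ≤ g i) (a b : ℕ) {σ A B A' B' : ℝ} (hσ : 0 ≤ σ)
    (hA : 0 ≤ A) (hB : 0 ≤ B) (h1 : A ≤ A') (h2 : B ≤ B') :
    bdG g a b σ A B ≤ bdG g a b σ A' B' := by
  unfold bdG
  refine Finset.sum_le_sum fun j _ => ?_
  have h3 : 0 ≤ alG g b j := by
    unfold alG
    exact Finset.sum_nonneg fun i _ => by
      have := hg i
      positivity
  refine mul_le_mul_of_nonneg_left ?_ h3
  refine mul_le_mul_of_nonneg_left ?_ (by positivity)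
  exact mul_le_mul (pow_le_pow_left₀ hA h1 _) (pow_le_pow_left₀ hB h2 _) (by positivity)
    (pow_nonneg (hA.trans h1) _)

theorem bdG_smul (g : ℕ → ℝ) (a b : ℕ) (M σ A B : ℝ) :
    bdG (fun i => g i * M) a b σ A B = M * bdG g a b σ A B := by
  unfold bdG alG
  rw [Finset.mul_sum]
  refine Finset.sum_congr rfl fun j _ => ?_
  have e : ∑ i ∈ Finset.range (j + 1), g i * M * (((b + (j - i) - 1).choose (j - i) : ℕ) : ℝ) /
      2 ^ (b + (j - i)) = M * ∑ i ∈ Finset.range (j + 1),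
        g i * (((b + (j - i) - 1).choose (j - i) : ℕ) : ℝ) / 2 ^ (b + (j - i)) := by
    rw [Finset.mul_sum]
    refine Finset.sum_congr rfl fun i _ => ?_
    ring
  rw [e]
  ring

theorem ge_nonneg (p m i : ℕ) : 0 ≤ ge p m i := by
  unfold ge
  have := gam_nonneg (p + m + 2) (m - i)
  positivity

/-- The coefficients of the final majorant. -/
noncomputable def bfx (p m : ℕ) (s0 : ℝ) (β : ℕ → ℝ) (j : ℕ) : ℝ :=
  if j ≤ m then β j / (((p + m - j).choose (m - j) : ℕ) : ℝ)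
  else ((p + m).choose j : ℕ) * tt (p + m + 2) s0 j

/-- **The majorant on a box.** -/
theorem fix_maj {N p h a b : ℕ} (hab : a + b = 2 * h + 1) (hkN : p + (2 * h + 1) + 1 ≤ N)
    {L : Fin N → ℂ} (hL : ∀ a, ‖L a‖ ≤ 1) {x x0 x1 W : ℝ} (hx0 : 0 ≤ x0) (hx01 : x0 ≤ x)
    (hx1 : x ≤ x1) (hx11 : x1 < 1) (hW0 : 0 ≤ W) (hW : Om2 (2 * h) a x ≤ W ^ 2) {β : ℕ → ℝ}
    (hβ0 : ∀ j, 0 ≤ β j)
    (hβ : ∀ r : ℝ, 0 ≤ r → (((p + (2 * h + 1)).choose (2 * h + 1) : ℕ) : ℝ) *
        (W * (1 + (1 - x0 ^ 2) * r ^ 2) ^ h) +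
      (bdG (ge p (2 * h + 1)) a b r (1 + (1 - x0) * r) (1 + (1 + x1) * r) +
        bdG (ge p (2 * h + 1)) b a r (1 + (1 + x1) * r) (1 + (1 - x0) * r)) ≤
      ∑ j ∈ Finset.range (2 * h + 1), β (j + 1) * r ^ j) {M : ℝ}
    (hM : IsM L (p + (2 * h + 1)) M) (η : ℂ) :
    ‖∑ j ∈ Finset.range (p + (2 * h + 1)),
      (((hasseDeriv (p + (2 * h + 1) - (j + 1)) (omR L)).eval x : ℝ) : ℂ) * η ^ (j + 1)‖ ≤
      M * ∑ j ∈ Finset.range (p + (2 * h + 1)),
        bfx p (2 * h + 1) (1 - x0) β (j + 1) * ‖η‖ ^ (j + 1) := by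
  set m := 2 * h + 1 with hm
  have hxm1 : -1 < x := by linarith
  have hxlt : x < 1 := by linarith
  have hM0 : 0 ≤ M := (abs_nonneg _).trans (hM 1 ⟨by norm_num, le_rfl⟩)
  have hs0 : 0 ≤ 1 - x := by linarith
  -- the part `j ≤ m`
  have hT := T_fix (p := p) (m := m) (om (zL L)) (x := x) (β := fun j => M * β j)
    (fun j => mul_nonneg hM0 (hβ0 j)) (by
    intro η
    have hH : ∀ (i : ℕ) (t : ℝ), (hasseDeriv i (hasseDeriv p (om (zL L)))).eval (t:ℂ) =
        (((p + i).choose i : ℕ) : ℂ) * ((hv L (p + i) t : ℝ) : ℂ) := by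
      intro i t
      rw [hasse_hasse, hasse_real]
      rfl
    have hend : ∀ i ≤ m, ∀ t : ℝ, |t| = 1 →
        ‖(hasseDeriv i (hasseDeriv p (om (zL L)))).eval (t:ℂ)‖ ≤ ge p m i * M := by
      intro i hi t ht
      rw [hH, norm_mul, Complex.norm_natCast, Complex.norm_real, Real.norm_eq_abs]
      have h1 := hv_end_gam hL (k := p + m) (by omega) hM (l := m - i) (by omega) ht
        (d := p + m + 2) (by omega)
      have e1 : p + m - (m - i) = p + i := by omega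
      rw [e1] at h1
      unfold ge
      calc _ ≤ (((p + i).choose i : ℕ) : ℝ) *
            (((p + m).choose (m - i) : ℕ) * gam (p + m + 2) (m - i) * M) :=
            mul_le_mul_of_nonneg_left h1 (Nat.cast_nonneg _)
        _ = _ := by ring
    have h0 := norm_PP_gen (K := 2 * h) (a := a) (b := b) hab (hasseDeriv p (om (zL L)))
      (x := x) (M' := (((p + m).choose m : ℕ) : ℝ) * M) hxm1.le hxlt.le
      (fun t ht1 ht2 => by
        rw [hH, norm_mul, Complex.norm_natCast, Complex.norm_real, Real.norm_eq_abs]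
        exact mul_le_mul_of_nonneg_left (hM t ⟨ht1, ht2⟩) (Nat.cast_nonneg _))
      (gp := fun i => ge p m i * M) (gm := fun i => ge p m i * M)
      (fun i hi => by
        have := hend i (by omega) 1 (by simp)
        rwa [Complex.ofReal_one] at this)
      (fun i hi => by
        have := hend i (by omega) (-1) (by simp)
        rwa [Complex.ofReal_neg, Complex.ofReal_one] at this) η 1
    refine h0.trans ?_
    rw [bdG_smul, bdG_smul]
    set r := ‖η‖ with hr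
    have hr0 : 0 ≤ r := norm_nonneg _
    set A := ‖1 + η * ((x:ℂ) - 1)‖ with hA
    set B := ‖1 + η * ((x:ℂ) + 1)‖ with hB
    have hA0 : 0 ≤ A := norm_nonneg _
    have hB0 : 0 ≤ B := norm_nonneg _
    have hAle : A ≤ 1 + (1 - x0) * r := by
      refine (norm_add_le _ _).trans ?_
      rw [norm_one, norm_mul, norm_re_sub_one hxlt]
      nlinarith
    have hBle : B ≤ 1 + (1 + x1) * r := by
      refine (norm_add_le _ _).trans ?_
      rw [norm_one, norm_mul, norm_re_add_one hxm1]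
      nlinarith
    have hQ : (1 + x) / 2 * A ^ 2 + (1 - x) / 2 * B ^ 2 = 1 + (1 - x ^ 2) * r ^ 2 := by
      have := two_point_sq x η 1
      rw [norm_one, one_pow] at this
      exact this
    have hmain : mainp (2 * h) a x A B ≤ W * (1 + (1 - x0 ^ 2) * r ^ 2) ^ h := by
      refine (mainp_le (2 * h) a hxm1 hxlt hQ).trans ?_
      have h1 : 0 ≤ 1 + (1 - x ^ 2) * r ^ 2 := by
        have : 0 ≤ 1 - x ^ 2 := by nlinarith
        positivity
      have h2 : Real.sqrt (1 + (1 - x ^ 2) * r ^ 2) ^ (2 * h) =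
          (1 + (1 - x ^ 2) * r ^ 2) ^ h := by
        rw [pow_mul, Real.sq_sqrt h1]
      rw [h2]
      refine mul_le_mul ?_ (pow_le_pow_left₀ h1 ?_ h) (by positivity) hW0
      · rw [Real.sqrt_le_left hW0]
        exact hW
      · have : x0 ^ 2 ≤ x ^ 2 := pow_le_pow_left₀ hx0 hx01 2
        nlinarith [sq_nonneg r]
    have hb1 := bdG_mono (ge_nonneg p m) a b hr0 hA0 hB0 hAle hBle
    have hb2 := bdG_mono (ge_nonneg p m) b a hr0 hB0 hA0 hBle hAle
    have hfin := hβ r hr0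
    have hC : (0:ℝ) ≤ (((p + m).choose m : ℕ) : ℝ) := Nat.cast_nonneg _
    have h3 : (((p + m).choose m : ℕ) : ℝ) * M * mainp (2 * h) a x A B +
        (M * bdG (ge p m) a b r A B + M * bdG (ge p m) b a r B A) ≤
        M * ∑ j ∈ Finset.range m, β (j + 1) * r ^ j := by
      calc _ ≤ M * ((((p + m).choose m : ℕ) : ℝ) * (W * (1 + (1 - x0 ^ 2) * r ^ 2) ^ h) +
            (bdG (ge p m) a b r (1 + (1 - x0) * r) (1 + (1 + x1) * r) +
            bdG (ge p m) b a r (1 + (1 + x1) * r) (1 + (1 - x0) * r))) := by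
            have h4 := mul_le_mul_of_nonneg_left hmain (mul_nonneg hC hM0)
            have h5 := mul_le_mul_of_nonneg_left hb1 hM0
            have h6 := mul_le_mul_of_nonneg_left hb2 hM0
            nlinarith
        _ ≤ _ := mul_le_mul_of_nonneg_left hfin hM0
    refine (mul_le_mul_of_nonneg_left h3 hr0).trans (le_of_eq ?_)
    rw [Finset.mul_sum, Finset.mul_sum]
    refine Finset.sum_congr rfl fun j _ => ?_
    rw [pow_succ]
    ring) η
  -- splitting
  have hsplit : Finset.range (p + m) = Finset.range m ∪ Finset.Ico m (p + m) := by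
    ext j
    simp only [Finset.mem_union, Finset.mem_range, Finset.mem_Ico]
    omega
  have hdisj : Disjoint (Finset.range m) (Finset.Ico m (p + m)) := by
    rw [Finset.disjoint_left]
    intro j h1 h2
    rw [Finset.mem_range] at h1
    rw [Finset.mem_Ico] at h2
    omega
  rw [hsplit, Finset.sum_union hdisj, Finset.sum_union hdisj, mul_add]
  refine (norm_add_le _ _).trans (add_le_add ?_ ?_)
  · have e1 : ∑ j ∈ Finset.range m,
        (((hasseDeriv (p + m - (j + 1)) (omR L)).eval x : ℝ) : ℂ) * η ^ (j + 1) =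
        ∑ j ∈ Finset.range m, (hasseDeriv (p + m - (j + 1)) (om (zL L))).eval (x:ℂ) *
          η ^ (j + 1) := by
      refine Finset.sum_congr rfl fun j _ => ?_
      rw [hasse_real]
    rw [e1]
    refine hT.trans (le_of_eq ?_)
    rw [Finset.mul_sum]
    refine Finset.sum_congr rfl fun j hj => ?_
    have hj' := Finset.mem_range.1 hj
    rw [bfx, if_pos (by omega)]
    ring
  · rw [Finset.mul_sum]
    refine (norm_sum_le _ _).trans (Finset.sum_le_sum fun j hj => ?_)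
    obtain ⟨hj1, hj2⟩ := Finset.mem_Ico.1 hj
    rw [norm_mul, norm_pow, Complex.norm_real, Real.norm_eq_abs, bfx, if_neg (by omega)]
    have h1 := T1 hL (k := p + m) (by omega) hxm1.le hxlt.le hM (j := j + 1) (by omega)
    have h2 : tt (2 * N - (p + m)) (1 - x) (j + 1) ≤ tt (p + m + 2) (1 - x0) (j + 1) :=
      (tt_anti (by omega) hs0 _).trans (tt_mono _ hs0 (by linarith) _)
    have h3 : |(hasseDeriv (p + m - (j + 1)) (omR L)).eval x| ≤
        ((p + m).choose (j + 1) : ℕ) * tt (p + m + 2) (1 - x0) (j + 1) * M := by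
      refine h1.trans (mul_le_mul_of_nonneg_right ?_ hM0)
      exact mul_le_mul_of_nonneg_left h2 (Nat.cast_nonneg _)
    calc _ ≤ (((p + m).choose (j + 1) : ℕ) * tt (p + m + 2) (1 - x0) (j + 1) * M) *
          ‖η‖ ^ (j + 1) := mul_le_mul_of_nonneg_right h3 (by positivity)
      _ = _ := by ring

/-- **The criterion on a box.** -/
theorem box {N p h a b : ℕ} (hab : a + b = 2 * h + 1) (hkN : p + (2 * h + 1) + 1 ≤ N)
    {L : Fin N → ℂ} (hL : ∀ a, ‖L a‖ ≤ 1) {x x0 x1 W : ℝ} (hx0 : 0 ≤ x0) (hx01 : x0 ≤ x)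
    (hx1 : x ≤ x1) (hx11 : x1 < 1) (hW0 : 0 ≤ W) (hW : Om2 (2 * h) a x ≤ W ^ 2) {β : ℕ → ℝ}
    (hβ0 : ∀ j, 0 ≤ β j)
    (hβ : ∀ r : ℝ, 0 ≤ r → (((p + (2 * h + 1)).choose (2 * h + 1) : ℕ) : ℝ) *
        (W * (1 + (1 - x0 ^ 2) * r ^ 2) ^ h) +
      (bdG (ge p (2 * h + 1)) a b r (1 + (1 - x0) * r) (1 + (1 + x1) * r) +
        bdG (ge p (2 * h + 1)) b a r (1 + (1 + x1) * r) (1 + (1 - x0) * r)) ≤
      ∑ j ∈ Finset.range (2 * h + 1), β (j + 1) * r ^ j)
    {tp tm E : ℝ} (htp : tp ≤ ∑ a, (1 - (L a).re)) (htm : tm ≤ ∑ a, (1 + (L a).re))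
    (hE1 : 2 * E ≤ FE N x ((tm + x) / N - 1)) (hE2 : 2 * E ≤ FE N x (1 - (tp - x) / N))
    {ρ : ℕ → ℝ} (hρ : ∀ j, 0 ≤ ρ j)
    (hρD : ∀ j, 2 ≤ j → j ≤ p + (2 * h + 1) → (j:ℝ) ≤ ρ j * (2 * tp - 1 - (2 * j + 1) * x1) ∧
      (j:ℝ) ≤ ρ j * (2 * tm - 1 + (j + 1) * x0))
    (hsum : ∑ j ∈ Finset.range (p + (2 * h + 1)),
      bfx p (2 * h + 1) (1 - x0) β (j + 1) * ∏ i ∈ Finset.range j, ρ (i + 2) ≤ E) :
    PW L (p + (2 * h + 1)) x := by
  have hx0' : 0 ≤ x := hx0.trans hx01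
  have hxlt : x < 1 := by linarith
  have hb0 : ∀ j, 0 ≤ bfx p (2 * h + 1) (1 - x0) β j := by
    intro j
    unfold bfx
    split_ifs
    · exact div_nonneg (hβ0 j) (Nat.cast_nonneg _)
    · exact mul_nonneg (Nat.cast_nonneg _) (tt_nonneg _ (by linarith) _)
  refine pw_abs (J := p + (2 * h + 1)) (by omega) hL hx0' hxlt htp htm
    (b := bfx p (2 * h + 1) (1 - x0) β) ?_ hb0 hE1 hE2 ?_
  · intro M hM η
    exact fix_maj hab hkN hL hx0 hx01 hx1 hx11 hW0 hW hβ0 hβ hM η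
  · intro c V hV
    refine mom_prod hx0' hxlt hV hb0 hρ (fun j hj1 hj2 => Or.inl ?_) hsum
    obtain ⟨h1, h2⟩ := hρD j hj1 hj2
    have h3 : 2 * tp - 1 - (2 * (j:ℝ) + 1) * x1 ≤ Dp tp x j := by
      unfold Dp
      have : (0:ℝ) ≤ 2 * j + 1 := by positivity
      nlinarith
    have h4 : 2 * tm - 1 + ((j:ℝ) + 1) * x0 ≤ Dm tm x j := by
      refine le_trans ?_ (Dm_ge tm hx0' hxlt.le j)
      have : (0:ℝ) ≤ (j:ℝ) + 1 := by positivity
      nlinarith
    exact ⟨h1.trans (mul_le_mul_of_nonneg_left h3 (hρ j)),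
      h2.trans (mul_le_mul_of_nonneg_left h4 (hρ j))⟩

end Pool.Agent.HMidB
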