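import Pool.Agent.HMidB.Schwarz

/-!
# Duality: positivity on the kernels is positivity on all functions of positive real part

Abstract form. `(Ω, μ)` is a probability space, `Z : Ω → ℂ` has values in the closed disc,
`W : Ω → ℝ` has values in `[-1, 1]`, `b : ℕ → ℂ` with `b 0` real.
If `Re ∑_{j ≤ k} b_j E[W^j kk j u Z] ≥ 0` for all `‖u‖ < 1`, then
`Re ∑_{j ≤ k} b_j E[W^j g^(j)(Z)/j!] ≥ 0` for every entire `g` with `Re g ≥ 0` on the closed disc.
-/

set_option autoImplicit false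

namespace Pool.Agent.HMidB

open Complex Set MeasureTheory intervalIntegral ComplexConjugate Filter Topology

/-- The functional at `(w, t)`. -/
noncomputable def Lg (b : ℕ → ℂ) (k : ℕ) (g : ℂ → ℂ) (t : ℝ) (w : ℂ) : ℂ :=
  ∑ j ∈ Finset.range (k + 1), b j * ((t : ℂ) ^ j * (iteratedDeriv j g w / (j.factorial : ℂ)))

/-- The functional on kernels. -/
noncomputable def Lk (b : ℕ → ℂ) (k : ℕ) (u : ℂ) (t : ℝ) (w : ℂ) : ℂ :=
  ∑ j ∈ Finset.range (k + 1), b j * ((t : ℂ) ^ j * kk j u w)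

theorem re_const_mul_TJ {f : ℝ → ℝ} (hf : Continuous f) {r : ℝ} (hr0 : 0 ≤ r) (j : ℕ) {w : ℂ}
    (hw : r * ‖w‖ < 1) (c : ℂ) :
    (c * TJ f r j w).re = ∫ θ in (0:ℝ)..2 * Real.pi, f θ * (c * kk j (uu r θ) w).re := by
  unfold TJ
  rw [← intervalIntegral.integral_const_mul]
  have hcont : Continuous fun θ : ℝ => c * ((f θ : ℂ) * kk j (uu r θ) w) :=
    continuous_const.mul ((Complex.continuous_ofReal.comp hf).mul (continuous_kk j hr0 hw))
  have h3 := Complex.reCLM.intervalIntegral_comp_comm (hcont.intervalIntegrable 0 (2 * Real.pi))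
    (μ := volume)
  simp only [Complex.reCLM_apply] at h3
  rw [← h3]
  refine intervalIntegral.integral_congr fun θ _ => ?_
  show (c * ((f θ : ℂ) * kk j (uu r θ) w)).re = _
  rw [← Complex.re_ofReal_mul]
  congr 1
  ring

/-- Pointwise representation. -/
theorem re_Lg_eq {b : ℕ → ℂ} (hb : (b 0).im = 0) (k : ℕ) {g : ℂ → ℂ} (hg : Differentiable ℂ g)
    {r : ℝ} (hr0 : 0 ≤ r) (hr1 : r < 1) (t : ℝ) {w : ℂ} (hw : ‖w‖ ≤ 1) :
    (Lg b k (fun w => g ((r : ℂ) * w)) t w).re =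
      (2 * Real.pi)⁻¹ * ∫ θ in (0:ℝ)..2 * Real.pi, bv g θ * (Lk b k (uu r θ) t w).re := by
  have hrw : r * ‖w‖ < 1 := by
    have : r * ‖w‖ ≤ r * 1 := mul_le_mul_of_nonneg_left hw hr0
    linarith
  have hbc := continuous_bv hg
  have hterm : ∀ j, (b j * ((t : ℂ) ^ j *
      (iteratedDeriv j (fun w => g ((r : ℂ) * w)) w / (j.factorial : ℂ)))).re =
      (2 * Real.pi)⁻¹ * ∫ θ in (0:ℝ)..2 * Real.pi,
        bv g θ * (b j * ((t : ℂ) ^ j * kk j (uu r θ) w)).re := by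
    intro j
    cases j with
    | zero =>
      simp only [pow_zero, Nat.factorial_zero, Nat.cast_one, div_one, one_mul, iteratedDeriv_zero]
      have hb0 : b 0 = (((b 0).re : ℝ) : ℂ) := by
        apply Complex.ext <;> simp [hb]
      rw [← re_const_mul_TJ hbc hr0 0 hrw, hb0, Complex.re_ofReal_mul, Complex.re_ofReal_mul,
        schwarz_re hg hr0 hrw]
      ring
    | succ j =>
      rw [schwarz_deriv hg hr0 hr1.le j hrw]
      have hf : ((j + 1).factorial : ℂ) ≠ 0 := by exact_mod_cast (j + 1).factorial_ne_zero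
      have e : b (j + 1) * ((t : ℂ) ^ (j + 1) * (((j + 1).factorial : ℂ) *
          ((((2 * Real.pi)⁻¹ : ℝ) : ℂ) * TJ (bv g) r (j + 1) w) / ((j + 1).factorial : ℂ))) =
          (((2 * Real.pi)⁻¹ : ℝ) : ℂ) * (b (j + 1) * (t : ℂ) ^ (j + 1) * TJ (bv g) r (j + 1) w) := by
        rw [mul_div_cancel_left₀ _ hf]
        ring
      rw [e, Complex.re_ofReal_mul, re_const_mul_TJ hbc hr0 (j + 1) hrw]
      congr 1
      refine intervalIntegral.integral_congr fun θ _ => ?_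
      show bv g θ * _ = bv g θ * _
      rw [mul_assoc]
  unfold Lg Lk
  rw [Complex.re_sum, Finset.sum_congr rfl fun j _ => hterm j, ← Finset.mul_sum,
    ← intervalIntegral.integral_finsetSum]
  · congr 1
    refine intervalIntegral.integral_congr fun θ _ => ?_
    show _ = bv g θ * _
    rw [Complex.re_sum, Finset.mul_sum]
  · intro j _
    refine Continuous.intervalIntegrable ?_ _ _
    exact hbc.mul (Complex.continuous_re.comp (continuous_const.mul
      (continuous_const.mul (continuous_kk j hr0 hrw))))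

theorem norm_Lk_le (b : ℕ → ℂ) (k : ℕ) {ρ : ℝ} (hρ : ρ < 1) : ∃ K : ℝ, 0 ≤ K ∧
    ∀ u w : ℂ, ∀ t : ℝ, ‖u‖ ≤ ρ → ‖w‖ ≤ 1 → |t| ≤ 1 → ‖Lk b k u t w‖ ≤ K := by
  have h1 : 0 < 1 - ρ := by linarith
  refine ⟨∑ j ∈ Finset.range (k + 1), ‖b j‖ * (2 / (1 - ρ) ^ (j + 1) + 1), ?_, ?_⟩
  · refine Finset.sum_nonneg fun j _ => ?_
    positivity
  · intro u w t hu hw ht
    unfold Lk
    refine (norm_sum_le _ _).trans (Finset.sum_le_sum fun j _ => ?_)
    rw [norm_mul, norm_mul, norm_pow, Complex.norm_real, Real.norm_eq_abs]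
    refine mul_le_mul_of_nonneg_left ?_ (norm_nonneg _)
    have h2 : |t| ^ j ≤ 1 := pow_le_one₀ (abs_nonneg _) ht
    have h3 : ‖u * w‖ ≤ ρ := by
      rw [norm_mul]
      calc ‖u‖ * ‖w‖ ≤ ‖u‖ * 1 := mul_le_mul_of_nonneg_left hw (norm_nonneg _)
        _ ≤ ρ := by linarith
    have h4 := norm_kk_le j hρ (le_trans hu hρ.le) h3
    calc |t| ^ j * ‖kk j u w‖ ≤ 1 * ‖kk j u w‖ := mul_le_mul_of_nonneg_right h2 (norm_nonneg _)
      _ ≤ _ := by rwa [one_mul]

theorem measurable_Lk (b : ℕ → ℂ) (k : ℕ) {α : Type*} [MeasurableSpace α] {u Z : α → ℂ} {W : α → ℝ}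
    (hu : Measurable u) (hW : Measurable W) (hZ : Measurable Z) :
    Measurable fun p : α => Lk b k (u p) (W p) (Z p) := by
  unfold Lk kk
  refine Finset.measurable_sum _ fun j _ => ?_
  refine Measurable.mul measurable_const ?_
  refine Measurable.mul ?_ ?_
  · exact (Complex.measurable_ofReal.comp hW).pow_const j
  · refine Measurable.sub (Measurable.div ?_ ?_) measurable_const
    · exact measurable_const.mul (hu.pow_const j)
    · exact (measurable_const.sub (hu.mul hZ)).pow_const _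

variable {Ω : Type*} [MeasurableSpace Ω] {μ : Measure Ω} [IsProbabilityMeasure μ]

/-- The case `g (r ·)`, `r < 1`. -/
theorem pos_r {Z : Ω → ℂ} {W : Ω → ℝ} (hZm : Measurable Z) (hWm : Measurable W)
    (hZ : ∀ᵐ ω ∂μ, ‖Z ω‖ ≤ 1) (hW : ∀ᵐ ω ∂μ, |W ω| ≤ 1) {b : ℕ → ℂ} (hb : (b 0).im = 0) (k : ℕ)
    (hpos : ∀ u : ℂ, ‖u‖ < 1 → 0 ≤ ∫ ω, (Lk b k u (W ω) (Z ω)).re ∂μ)
    {g : ℂ → ℂ} (hg : Differentiable ℂ g) (hg0 : ∀ w : ℂ, ‖w‖ ≤ 1 → 0 ≤ (g w).re)
    {r : ℝ} (hr0 : 0 ≤ r) (hr1 : r < 1) :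
    0 ≤ ∫ ω, (Lg b k (fun w => g ((r : ℂ) * w)) (W ω) (Z ω)).re ∂μ := by
  have h1 : ∫ ω, (Lg b k (fun w => g ((r : ℂ) * w)) (W ω) (Z ω)).re ∂μ =
      ∫ ω, ((2 * Real.pi)⁻¹ * (∫ θ in (0:ℝ)..2 * Real.pi,
        bv g θ * (Lk b k (uu r θ) (W ω) (Z ω)).re)) ∂μ := by
    refine integral_congr_ae ?_
    filter_upwards [hZ] with ω hω
    exact re_Lg_eq hb k hg hr0 hr1 (W ω) hω
  rw [h1, MeasureTheory.integral_const_mul]
  refine mul_nonneg (by positivity) ?_
  obtain ⟨K, hK0, hK⟩ := norm_Lk_le b k hr1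
  -- a bound of the boundary values
  obtain ⟨B, hB0, hB⟩ : ∃ B : ℝ, 0 ≤ B ∧ ∀ θ : ℝ, |bv g θ| ≤ B := by
    obtain ⟨B, hB⟩ := (isCompact_closedBall (0:ℂ) 1).exists_bound_of_continuousOn
      hg.continuous.continuousOn
    refine ⟨B, le_trans (norm_nonneg _) (hB 0 (by simp)), fun θ => ?_⟩
    refine (Complex.abs_re_le_norm _).trans (hB _ ?_)
    rw [mem_closedBall_zero_iff, Complex.norm_exp_ofReal_mul_I]
  have hfin : IsFiniteMeasure (volume.restrict (Set.uIoc (0:ℝ) (2 * Real.pi))) := by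
    unfold Set.uIoc
    infer_instance
  rw [← intervalIntegral_integral_swap]
  · refine intervalIntegral.integral_nonneg (by positivity) fun θ _ => ?_
    rw [MeasureTheory.integral_const_mul]
    refine mul_nonneg ?_ (hpos _ (by rwa [norm_uu hr0]))
    refine hg0 _ ?_
    rw [Complex.norm_exp_ofReal_mul_I]
  · refine Integrable.of_bound (C := B * K) ?_ ?_
    · have hm1 : Measurable fun p : ℝ × Ω => bv g p.1 :=
        (continuous_bv hg).measurable.comp measurable_fst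
      have hm3 : Measurable fun p : ℝ × Ω => Lk b k (uu r p.1) (W p.2) (Z p.2) :=
        measurable_Lk b k (α := ℝ × Ω) ((continuous_uu r).measurable.comp measurable_fst)
          (hWm.comp measurable_snd) (hZm.comp measurable_snd)
      have hm4 : Measurable fun p : ℝ × Ω => (Lk b k (uu r p.1) (W p.2) (Z p.2)).re :=
        Complex.measurable_re.comp hm3
      exact (hm1.mul hm4).aestronglyMeasurable
    · have h2 : ∀ᵐ p : ℝ × Ω ∂((volume.restrict (Set.uIoc (0:ℝ) (2 * Real.pi))).prod μ),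
          ‖Z p.2‖ ≤ 1 := Measure.quasiMeasurePreserving_snd.ae hZ
      have h3 : ∀ᵐ p : ℝ × Ω ∂((volume.restrict (Set.uIoc (0:ℝ) (2 * Real.pi))).prod μ),
          |W p.2| ≤ 1 := Measure.quasiMeasurePreserving_snd.ae hW
      filter_upwards [h2, h3] with p hp2 hp3
      rw [Function.uncurry, norm_mul, Real.norm_eq_abs, Real.norm_eq_abs]
      refine mul_le_mul (hB _) ?_ (abs_nonneg _) hB0
      exact (Complex.abs_re_le_norm _).trans (hK _ _ _ (by rw [norm_uu hr0]) hp2 hp3)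

/-- A bound of the derivatives on the closed disc. -/
theorem norm_Lg_le (b : ℕ → ℂ) (k : ℕ) {g : ℂ → ℂ} (hg : Differentiable ℂ g) : ∃ K : ℝ, 0 ≤ K ∧
    ∀ r : ℝ, ∀ w : ℂ, ∀ t : ℝ, 0 ≤ r → r ≤ 1 → ‖w‖ ≤ 1 → |t| ≤ 1 →
      ‖Lg b k (fun w => g ((r : ℂ) * w)) t w‖ ≤ K := by
  have hcd : ∀ j : ℕ, Continuous (iteratedDeriv j g) := fun j =>
    (hg.contDiff (n := ⊤)).continuous_iteratedDeriv j (by simp)
  have hbd : ∀ j : ℕ, ∃ B : ℝ, 0 ≤ B ∧ ∀ w : ℂ, ‖w‖ ≤ 1 → ‖iteratedDeriv j g w‖ ≤ B := by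
    intro j
    obtain ⟨B, hB⟩ := (isCompact_closedBall (0:ℂ) 1).exists_bound_of_continuousOn
      (hcd j).continuousOn
    exact ⟨B, le_trans (norm_nonneg _) (hB 0 (by simp)), fun w hw => hB w (by simpa using hw)⟩
  choose B hB0 hB using hbd
  refine ⟨∑ j ∈ Finset.range (k + 1), ‖b j‖ * B j, ?_, ?_⟩
  · exact Finset.sum_nonneg fun j _ => mul_nonneg (norm_nonneg _) (hB0 j)
  · intro r w t hr0 hr1 hw ht
    unfold Lg
    refine (norm_sum_le _ _).trans (Finset.sum_le_sum fun j _ => ?_)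
    rw [norm_mul, norm_mul, norm_pow, Complex.norm_real, Real.norm_eq_abs]
    refine mul_le_mul_of_nonneg_left ?_ (norm_nonneg _)
    have h2 : |t| ^ j ≤ 1 := pow_le_one₀ (abs_nonneg _) ht
    rw [iteratedDeriv_comp_const_mul (hg.contDiff (n := j)) (r : ℂ), norm_div, norm_mul, norm_pow,
      Complex.norm_real, Real.norm_eq_abs, abs_of_nonneg hr0, Complex.norm_natCast]
    have h3 : r ^ j ≤ 1 := pow_le_one₀ hr0 hr1
    have h4 : ‖iteratedDeriv j g ((r : ℂ) * w)‖ ≤ B j := by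
      refine hB j _ ?_
      rw [norm_mul, Complex.norm_real, Real.norm_eq_abs, abs_of_nonneg hr0]
      calc r * ‖w‖ ≤ 1 * 1 := mul_le_mul hr1 hw (norm_nonneg _) (by norm_num)
        _ = 1 := by norm_num
    have h5 : (1:ℝ) ≤ (j.factorial : ℝ) := by exact_mod_cast Nat.one_le_iff_ne_zero.2 j.factorial_ne_zero
    have h6 : r ^ j * ‖iteratedDeriv j g ((r : ℂ) * w)‖ / (j.factorial : ℝ) ≤ B j := by
      rw [div_le_iff₀ (by linarith)]
      have := hB0 j
      have h7 : r ^ j * ‖iteratedDeriv j g ((r : ℂ) * w)‖ ≤ 1 * B j :=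
        mul_le_mul h3 h4 (norm_nonneg _) (by norm_num)
      nlinarith
    calc |t| ^ j * (r ^ j * ‖iteratedDeriv j g ((r : ℂ) * w)‖ / (j.factorial : ℝ)) ≤ 1 * B j :=
          mul_le_mul h2 h6 (by positivity) (by norm_num)
      _ = B j := one_mul _

theorem measurable_Lg (b : ℕ → ℂ) (k : ℕ) {g : ℂ → ℂ} (hg : Differentiable ℂ g)
    {α : Type*} [MeasurableSpace α] {Z : α → ℂ} {W : α → ℝ} (hW : Measurable W)
    (hZ : Measurable Z) : Measurable fun p : α => Lg b k g (W p) (Z p) := by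
  unfold Lg
  refine Finset.measurable_sum _ fun j _ => ?_
  refine Measurable.mul measurable_const ?_
  refine Measurable.mul ((Complex.measurable_ofReal.comp hW).pow_const j) ?_
  have hcd : Continuous (iteratedDeriv j g) :=
    (hg.contDiff (n := ⊤)).continuous_iteratedDeriv j (by simp)
  exact (hcd.measurable.comp hZ).div_const _

/-- The duality theorem. -/
theorem pos_of_kernels {Z : Ω → ℂ} {W : Ω → ℝ} (hZm : Measurable Z) (hWm : Measurable W)
    (hZ : ∀ᵐ ω ∂μ, ‖Z ω‖ ≤ 1) (hW : ∀ᵐ ω ∂μ, |W ω| ≤ 1) {b : ℕ → ℂ} (hb : (b 0).im = 0) (k : ℕ)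
    (hpos : ∀ u : ℂ, ‖u‖ < 1 → 0 ≤ ∫ ω, (Lk b k u (W ω) (Z ω)).re ∂μ)
    {g : ℂ → ℂ} (hg : Differentiable ℂ g) (hg0 : ∀ w : ℂ, ‖w‖ ≤ 1 → 0 ≤ (g w).re) :
    0 ≤ ∫ ω, (Lg b k g (W ω) (Z ω)).re ∂μ := by
  obtain ⟨K, hK0, hK⟩ := norm_Lg_le b k hg
  have hlim : Tendsto (fun r : ℝ => ∫ ω, (Lg b k (fun w => g ((r : ℂ) * w)) (W ω) (Z ω)).re ∂μ)
      (𝓝[<] 1) (𝓝 (∫ ω, (Lg b k g (W ω) (Z ω)).re ∂μ)) := by
    refine tendsto_integral_filter_of_dominated_convergence (fun _ => K) ?_ ?_ ?_ ?_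
    · refine Filter.Eventually.of_forall fun r => ?_
      have hgr : Differentiable ℂ fun w => g ((r : ℂ) * w) :=
        hg.comp (differentiable_id.const_mul _)
      exact (Complex.measurable_re.comp (measurable_Lg b k hgr hWm hZm)).aestronglyMeasurable
    · have h01 : ∀ᶠ r : ℝ in 𝓝[<] 1, r ∈ Ioo (0:ℝ) 1 := Ioo_mem_nhdsLT zero_lt_one
      filter_upwards [h01] with r hr
      filter_upwards [hZ, hW] with ω h1 h2
      rw [Real.norm_eq_abs]
      exact (Complex.abs_re_le_norm _).trans (hK r _ _ hr.1.le hr.2.le h1 h2)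
    · exact integrable_const _
    · refine Filter.Eventually.of_forall fun ω => ?_
      have hcont : Continuous fun r : ℝ => (Lg b k (fun w => g ((r : ℂ) * w)) (W ω) (Z ω)).re := by
        refine Complex.continuous_re.comp ?_
        unfold Lg
        refine continuous_finsetSum _ fun j _ => ?_
        refine continuous_const.mul (continuous_const.mul (Continuous.div_const ?_ _))
        have e : (fun r : ℝ => iteratedDeriv j (fun w => g ((r : ℂ) * w)) (Z ω)) =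
            fun r : ℝ => (r : ℂ) ^ j * iteratedDeriv j g ((r : ℂ) * Z ω) := by
          funext r
          rw [iteratedDeriv_comp_const_mul (hg.contDiff (n := j)) (r : ℂ)]
        rw [e]
        have hcd : Continuous (iteratedDeriv j g) :=
          (hg.contDiff (n := ⊤)).continuous_iteratedDeriv j (by simp)
        exact (Complex.continuous_ofReal.pow j).mul
          (hcd.comp (Complex.continuous_ofReal.mul continuous_const))
      have h1 := (hcont.tendsto 1).mono_left (nhdsWithin_le_nhds (s := Iio (1:ℝ)))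
      have h2 : (fun w => g (((1 : ℝ) : ℂ) * w)) = g := by
        funext w
        simp
      rwa [h2] at h1
  refine ge_of_tendsto hlim ?_
  have h01 : ∀ᶠ r : ℝ in 𝓝[<] 1, r ∈ Ioo (0:ℝ) 1 := Ioo_mem_nhdsLT zero_lt_one
  filter_upwards [h01] with r hr
  exact pos_r hZm hWm hZ hW hb k hpos hg hg0 hr.1.le hr.2

end Pool.Agent.HMidB
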