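import Pool.Agent.HMidB.Link
import Pool.Agent.HStar.Chain

/-!
# Two-point majorants of fixed degree, with free end values

`norm_PP_gen`: the two-point bound for a general polynomial `q` and free bounds of its end values.
`T_fix`: a majorant of degree `m` for `g = H_p q` gives one for the part `j ≤ m` of
`∑ H_{k-j} q(x) η^j`, `k = p + m`; the coefficient `j` is divided by `C(k-j, m-j)`.
-/

set_option autoImplicit false

namespace Pool.Agent.HMidB

open Polynomial MeasureTheory intervalIntegral Set ComplexConjugate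

/-- The coefficients of the boundary part. -/
noncomputable def alG (g : ℕ → ℝ) (b q : ℕ) : ℝ :=
  ∑ i ∈ Finset.range (q + 1), g i * (((b + (q - i) - 1).choose (q - i) : ℕ) : ℝ) / 2 ^ (b + (q - i))

/-- The boundary part. -/
noncomputable def bdG (g : ℕ → ℝ) (a b : ℕ) (σ A B : ℝ) : ℝ :=
  ∑ q ∈ Finset.range a, alG g b q * (σ ^ (a - 1 - q) * (A ^ q * B ^ b))

theorem norm_PP_JJ_gen {K a b : ℕ} (hab : a + b = K + 1) {e : ℂ} (he : ‖e‖ = 2) {h : ℕ → ℂ}
    {g : ℕ → ℝ} (hh : ∀ i < a, ‖h i‖ ≤ g i)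
    {x s G : ℂ} {y : ℂ[X]} {g1 g2 : ℂ}
    (hy : ∀ j < a, PP (K + 1) x s G (y ^ j * (y + C e) ^ b) = s ^ (a - j) * (g1 ^ j * g2 ^ b)) :
    ‖PP (K + 1) x s G (JJ e b a h y)‖ ≤ ‖s‖ * bdG g a b ‖s‖ ‖g1‖ ‖g2‖ := by
  have h1 : PP (K + 1) x s G (JJ e b a h y) = ∑ i ∈ Finset.range a, ∑ m ∈ Finset.range (a - i),
      h i * cc' e b m * (s ^ (a - (i + m)) * (g1 ^ (i + m) * g2 ^ b)) := by
    unfold JJ NN
    rw [PP_sum]
    refine Finset.sum_congr rfl fun i hi => ?_
    rw [Finset.sum_mul, Finset.mul_sum, PP_sum]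
    refine Finset.sum_congr rfl fun m hm => ?_
    have hi' := Finset.mem_range.1 hi
    have hm' := Finset.mem_range.1 hm
    have e1 : C (h i) * y ^ i * (C (cc' e b m) * y ^ m * (y + C e) ^ b) =
        C (h i * cc' e b m) * (y ^ (i + m) * (y + C e) ^ b) := by
      rw [C_mul, pow_add]
      ring
    rw [e1, PP_C_mul, hy _ (by omega)]
  rw [h1]
  refine (norm_sum_le _ _).trans ?_
  have h2 : ∀ i ∈ Finset.range a, ‖∑ m ∈ Finset.range (a - i),
      h i * cc' e b m * (s ^ (a - (i + m)) * (g1 ^ (i + m) * g2 ^ b))‖ ≤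
      ∑ m ∈ Finset.range (a - i), g i * (((b + m - 1).choose m : ℕ) : ℝ) / 2 ^ (b + m) *
        (‖s‖ ^ (a - (i + m)) * (‖g1‖ ^ (i + m) * ‖g2‖ ^ b)) := by
    intro i hi
    refine (norm_sum_le _ _).trans (Finset.sum_le_sum fun m hm => ?_)
    have hi' := Finset.mem_range.1 hi
    have hm' := Finset.mem_range.1 hm
    rw [norm_mul, norm_mul, norm_mul, norm_mul, norm_pow, norm_pow, norm_pow]
    have h3 : ‖cc' e b m‖ = ((b + m - 1).choose m : ℝ) / 2 ^ (b + m) := by
      unfold cc'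
      rw [norm_div, norm_mul, norm_pow, norm_pow, norm_neg, norm_one, one_pow, one_mul, he,
        Complex.norm_natCast]
    rw [h3]
    have h5 : 0 ≤ ((b + m - 1).choose m : ℝ) / 2 ^ (b + m) *
        (‖s‖ ^ (a - (i + m)) * (‖g1‖ ^ (i + m) * ‖g2‖ ^ b)) := by positivity
    calc ‖h i‖ * (((b + m - 1).choose m : ℝ) / 2 ^ (b + m)) *
          (‖s‖ ^ (a - (i + m)) * (‖g1‖ ^ (i + m) * ‖g2‖ ^ b))
        = ‖h i‖ * (((b + m - 1).choose m : ℝ) / 2 ^ (b + m) *
          (‖s‖ ^ (a - (i + m)) * (‖g1‖ ^ (i + m) * ‖g2‖ ^ b))) := by ring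
      _ ≤ g i * (((b + m - 1).choose m : ℝ) / 2 ^ (b + m) *
          (‖s‖ ^ (a - (i + m)) * (‖g1‖ ^ (i + m) * ‖g2‖ ^ b))) :=
          mul_le_mul_of_nonneg_right (hh i hi') h5
      _ = _ := by ring
  refine (Finset.sum_le_sum h2).trans (le_of_eq ?_)
  rw [sum_tri a (fun i m => g i * (((b + m - 1).choose m : ℕ) : ℝ) / 2 ^ (b + m) *
        (‖s‖ ^ (a - (i + m)) * (‖g1‖ ^ (i + m) * ‖g2‖ ^ b)))]
  unfold bdG alG
  rw [Finset.mul_sum]
  refine Finset.sum_congr rfl fun j hj => ?_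
  have hj' := Finset.mem_range.1 hj
  rw [Finset.sum_mul, Finset.mul_sum]
  refine Finset.sum_congr rfl fun i hi => ?_
  have hi' := Finset.mem_range.1 hi
  have e3 : i + (j - i) = j := by omega
  have e4 : ‖s‖ ^ (a - j) = ‖s‖ * ‖s‖ ^ (a - 1 - j) := by
    rw [← pow_succ']
    congr 1
    omega
  rw [e3, e4]
  ring

/-- **The general two-point bound.** -/
theorem norm_PP_gen {K a b : ℕ} (hab : a + b = K + 1) (q : ℂ[X]) {x M' : ℝ} (hx1 : -1 ≤ x)
    (hx2 : x ≤ 1) (hM : ∀ t : ℝ, -1 ≤ t → t ≤ 1 → ‖(hasseDeriv (K + 1) q).eval (t:ℂ)‖ ≤ M')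
    {gp gm : ℕ → ℝ} (hgp : ∀ i < a, ‖(hasseDeriv i q).eval 1‖ ≤ gp i)
    (hgm : ∀ i < b, ‖(hasseDeriv i q).eval (-1)‖ ≤ gm i) (s G : ℂ) :
    ‖PP (K + 1) x s G q‖ ≤ ‖s‖ * (M' * mainp K a x ‖G + s * (x - 1)‖ ‖G + s * (x + 1)‖ +
      (bdG gp a b ‖s‖ ‖G + s * (x - 1)‖ ‖G + s * (x + 1)‖ +
        bdG gm b a ‖s‖ ‖G + s * (x + 1)‖ ‖G + s * (x - 1)‖)) := by
  set g1 : ℂ := G + s * (x - 1) with hg1
  set g2 : ℂ := G + s * (x + 1) with hg2
  have hM0 : 0 ≤ M' := (norm_nonneg _).trans (hM 1 (by norm_num) le_rfl)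
  have hX1 : (X - 1 : ℂ[X]) + C 2 = X + 1 := by rw [map_ofNat C 2]; ring
  have hX2 : (X + 1 : ℂ[X]) + C (-2) = X - 1 := by rw [C_neg, map_ofNat C 2]; ring
  rw [← PP_tay, herm hab q x, sub_eq_add_neg, PP_add, PP_add, PP_add]
  have hneg : ∀ q : ℂ[X], PP (K + 1) x s G (-q) = -PP (K + 1) x s G q := by
    intro q
    have := PP_C_mul (K + 1) x s G (-1) q
    rw [C_neg, C_1, neg_one_mul, neg_one_mul] at this
    exact this
  rw [hneg]
  have hmain : ∀ i ∈ Finset.range (K + 1), ∀ c : ℂ,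
      ‖PP (K + 1) x s G (C c * ((X - 1) ^ i * (X + 1) ^ (K - i)))‖ =
        ‖s‖ * (‖c‖ * (‖g1‖ ^ i * ‖g2‖ ^ (K - i))) := by
    intro i hi c
    have hi' := Finset.mem_range.1 hi
    rw [PP_C_mul, PP_qq (by omega : i + (K - i) < K + 1)]
    have e : K + 1 - (i + (K - i)) = 1 := by omega
    rw [e, pow_one, norm_mul, norm_mul, norm_mul, norm_pow, norm_pow]
    ring
  -- the two boundary parts
  have b1 := norm_PP_JJ_gen (K := K) (a := a) (b := b) hab (e := 2) (by norm_num)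
    (h := fun i => (hasseDeriv i q).eval 1) (g := gp) hgp
    (x := x) (s := s) (G := G) (y := X - 1) (g1 := g1) (g2 := g2)
    (fun j hj => by
      rw [hX1, PP_qq (by omega : j + b < K + 1)]
      congr 2
      omega)
  have b2 := norm_PP_JJ_gen (K := K) (a := b) (b := a) (by omega) (e := -2) (by norm_num)
    (h := fun i => (hasseDeriv i q).eval (-1)) (g := gm) hgm
    (x := x) (s := s) (G := G) (y := X + 1) (g1 := g2) (g2 := g1)
    (fun j hj => by
      rw [hX2, mul_comm, PP_qq (by omega : a + j < K + 1), mul_comm (g2 ^ j)]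
      congr 2
      omega)
  -- the two integral parts
  have c1 : ‖PP (K + 1) x s G (∑ i ∈ Finset.Ico a (K + 1),
      C (bet K i q (-1) x) * ((X - 1) ^ i * (X + 1) ^ (K - i)))‖ ≤
      ‖s‖ * (M' * ∑ i ∈ Finset.Ico a (K + 1), omw K a i x * (‖g1‖ ^ i * ‖g2‖ ^ (K - i))) := by
    rw [PP_sum]
    refine (norm_sum_le _ _).trans ?_
    rw [Finset.mul_sum, Finset.mul_sum]
    refine Finset.sum_le_sum fun i hi' => ?_
    have hik : i < K + 1 := (Finset.mem_Ico.1 hi').2
    rw [hmain i (Finset.mem_range.2 hik)]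
    have h1 := norm_bet_le (K := K) (i := i) (q := q) (a := -1) (b := x) le_rfl hx1 hx2 hM
    rw [integral_BB_hi (by omega), lo_neg_one] at h1
    have h2 : 1 - lo (K + 1) i x = hi (K + 1) i x := by
      have := lo_add_hi (k := K + 1) (i := i) (by omega) x
      linarith
    rw [h2] at h1
    have h4 : omw K a i x = 2 * hi (K + 1) i x := by
      rw [omw, if_neg (by have := (Finset.mem_Ico.1 hi').1; omega)]
    rw [h4]
    exact mul_le_mul_of_nonneg_left ((mul_le_mul_of_nonneg_right h1 (by positivity)).trans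
      (le_of_eq (by ring))) (norm_nonneg _)
  have c2 : ‖PP (K + 1) x s G (∑ i ∈ Finset.range a,
      C (bet K i q x 1) * ((X - 1) ^ i * (X + 1) ^ (K - i)))‖ ≤
      ‖s‖ * (M' * ∑ i ∈ Finset.range a, omw K a i x * (‖g1‖ ^ i * ‖g2‖ ^ (K - i))) := by
    rw [PP_sum]
    refine (norm_sum_le _ _).trans ?_
    rw [Finset.mul_sum, Finset.mul_sum]
    refine Finset.sum_le_sum fun i hi' => ?_
    have hik : i < K + 1 := by
      have := Finset.mem_range.1 hi'
      omega
    rw [hmain i (Finset.mem_range.2 hik)]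
    have h1 := norm_bet_le (K := K) (i := i) (q := q) (a := x) (b := 1) hx1 hx2 le_rfl hM
    rw [integral_BB_hi (by omega), lo_one (by omega), sub_zero] at h1
    have h4 : omw K a i x = 2 * lo (K + 1) i x := by
      rw [omw, if_pos (Finset.mem_range.1 hi')]
    rw [h4]
    exact mul_le_mul_of_nonneg_left ((mul_le_mul_of_nonneg_right h1 (by positivity)).trans
      (le_of_eq (by ring))) (norm_nonneg _)
  refine (norm_add_le _ _).trans ?_
  rw [norm_neg]
  refine (add_le_add (norm_add_le _ _) le_rfl).trans ?_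
  refine (add_le_add (add_le_add (norm_add_le _ _) le_rfl) le_rfl).trans ?_
  refine (add_le_add (add_le_add (add_le_add b1 b2) c1) c2).trans (le_of_eq ?_)
  have hsum : mainp K a x ‖g1‖ ‖g2‖ =
      ∑ i ∈ Finset.range a, omw K a i x * (‖g1‖ ^ i * ‖g2‖ ^ (K - i)) +
      ∑ i ∈ Finset.Ico a (K + 1), omw K a i x * (‖g1‖ ^ i * ‖g2‖ ^ (K - i)) := by
    unfold mainp
    rw [Finset.sum_range_add_sum_Ico _ (by omega : a ≤ K + 1)]
  rw [hsum]
  ring

/-! ### The average over the beta law -/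

/-- The moments of the weight `(p+1) (1-t)^p`. -/
theorem beta_mom (p i : ℕ) :
    ∫ t in (0:ℝ)..1, ((p + 1 : ℕ) : ℝ) * (1 - t) ^ p * t ^ i =
      1 / (((p + 1 + i).choose i : ℕ) : ℝ) := by
  have hd : ∀ (i : ℕ) (t : ℝ), HasDerivAt (fun t : ℝ => t ^ (i + 1) * (1 - t) ^ (p + 1))
      (((i + 1 : ℕ) : ℝ) * t ^ i * (1 - t) ^ (p + 1) -
        ((p + 1 : ℕ) : ℝ) * t ^ (i + 1) * (1 - t) ^ p) t := by
    intro i t
    have h1 : HasDerivAt (fun t : ℝ => t ^ (i + 1)) (((i + 1 : ℕ) : ℝ) * t ^ i) t := by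
      simpa using hasDerivAt_pow (i + 1) t
    have h2 : HasDerivAt (fun t : ℝ => (1 - t) ^ (p + 1))
        (((p + 1 : ℕ) : ℝ) * (1 - t) ^ p * -1) t := by
      have h3 : HasDerivAt (fun t : ℝ => 1 - t) (-1) t := by
        simpa using (hasDerivAt_id t).const_sub 1
      simpa using h3.fun_pow (p + 1)
    refine (h1.mul h2).congr_deriv ?_
    ring
  have hc : ∀ i : ℕ, Continuous fun t : ℝ => ((p + 1 : ℕ) : ℝ) * (1 - t) ^ p * t ^ i := by
    intro i
    fun_prop
  induction i with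
  | zero =>
    have h1 : ∀ t ∈ uIcc (0:ℝ) 1, HasDerivAt (fun t : ℝ => -(1 - t) ^ (p + 1))
        (((p + 1 : ℕ) : ℝ) * (1 - t) ^ p) t := by
      intro t _
      have h3 : HasDerivAt (fun t : ℝ => 1 - t) (-1) t := by
        simpa using (hasDerivAt_id t).const_sub 1
      have h4 := (h3.fun_pow (p + 1)).neg
      refine h4.congr_deriv ?_
      simp
    have h2 := integral_eq_sub_of_hasDerivAt h1
      ((by fun_prop : Continuous fun t : ℝ => ((p + 1 : ℕ) : ℝ) * (1 - t) ^ p).intervalIntegrable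
        _ _)
    simp only [pow_zero, mul_one]
    rw [h2]
    simp
  | succ i ih =>
    have h1 := integral_eq_sub_of_hasDerivAt (a := (0:ℝ)) (b := 1) (fun t _ => hd i t)
      ((by fun_prop : Continuous fun t : ℝ => ((i + 1 : ℕ) : ℝ) * t ^ i * (1 - t) ^ (p + 1) -
        ((p + 1 : ℕ) : ℝ) * t ^ (i + 1) * (1 - t) ^ p).intervalIntegrable _ _)
    have h0 : (1:ℝ) ^ (i + 1) * (1 - 1) ^ (p + 1) - 0 ^ (i + 1) * (1 - 0) ^ (p + 1) = 0 := by
      simp
    rw [h0] at h1
    have h2 : ∀ t : ℝ, ((i + 1 : ℕ) : ℝ) * t ^ i * (1 - t) ^ (p + 1) -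
        ((p + 1 : ℕ) : ℝ) * t ^ (i + 1) * (1 - t) ^ p =
        ((i + 1 : ℕ) : ℝ) / ((p + 1 : ℕ) : ℝ) * (((p + 1 : ℕ) : ℝ) * (1 - t) ^ p * t ^ i) -
        (((i + 1 : ℕ) : ℝ) / ((p + 1 : ℕ) : ℝ) + 1) *
          (((p + 1 : ℕ) : ℝ) * (1 - t) ^ p * t ^ (i + 1)) := by
      intro t
      have hp : ((p + 1 : ℕ) : ℝ) ≠ 0 := by positivity
      field_simp
      ring
    simp only [h2] at h1
    have hI1 : IntervalIntegrable (fun t : ℝ => ((i + 1 : ℕ) : ℝ) / ((p + 1 : ℕ) : ℝ) *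
        (((p + 1 : ℕ) : ℝ) * (1 - t) ^ p * t ^ i)) volume 0 1 :=
      (continuous_const.mul (hc i)).intervalIntegrable _ _
    have hI2 : IntervalIntegrable (fun t : ℝ => (((i + 1 : ℕ) : ℝ) / ((p + 1 : ℕ) : ℝ) + 1) *
        (((p + 1 : ℕ) : ℝ) * (1 - t) ^ p * t ^ (i + 1))) volume 0 1 :=
      (continuous_const.mul (hc (i + 1))).intervalIntegrable _ _
    rw [intervalIntegral.integral_sub hI1 hI2,
      intervalIntegral.integral_const_mul, intervalIntegral.integral_const_mul, ih] at h1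
    have hp : ((p + 1 : ℕ) : ℝ) ≠ 0 := by positivity
    have hc1 : (((p + 1 + i).choose i : ℕ) : ℝ) ≠ 0 := by
      have := Nat.choose_pos (show i ≤ p + 1 + i by omega)
      positivity
    have hc2 : (((p + 1 + (i + 1)).choose (i + 1) : ℕ) : ℝ) ≠ 0 := by
      have := Nat.choose_pos (show i + 1 ≤ p + 1 + (i + 1) by omega)
      positivity
    have hrec : (((p + 1 + (i + 1)).choose (i + 1) : ℕ) : ℝ) * ((i + 1 : ℕ) : ℝ) =
        ((p + 1 + i + 1 : ℕ) : ℝ) * (((p + 1 + i).choose i : ℕ) : ℝ) := by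
      have := (Nat.add_one_mul_choose_eq (p + 1 + i) i).symm
      exact_mod_cast this
    set J := ∫ t in (0:ℝ)..1, ((p + 1 : ℕ) : ℝ) * (1 - t) ^ p * t ^ (i + 1)
    rw [eq_div_iff hc2]
    have hs : ((i + 1 : ℕ) : ℝ) / ((p + 1 : ℕ) : ℝ) + 1 =
        ((p + 1 + i + 1 : ℕ) : ℝ) / ((p + 1 : ℕ) : ℝ) := by
      field_simp
      push_cast
      ring
    rw [hs] at h1
    have hn : ((p + 1 + i + 1 : ℕ) : ℝ) ≠ 0 := by positivity
    have hJ : J = ((i + 1 : ℕ) : ℝ) / ((p + 1 + i + 1 : ℕ) : ℝ) *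
        (1 / (((p + 1 + i).choose i : ℕ) : ℝ)) := by
      field_simp at h1 ⊢
      linarith
    rw [hJ]
    have hi1 : ((i + 1 : ℕ) : ℝ) ≠ 0 := by positivity
    field_simp
    linarith

/-- `H_l (H_p q) = C(p+l, l) H_{p+l} q`. -/
theorem hasse_hasse (l p : ℕ) (q : ℂ[X]) (x : ℂ) :
    (hasseDeriv l (hasseDeriv p q)).eval x =
      (((p + l).choose l : ℕ) : ℂ) * (hasseDeriv (p + l) q).eval x := by
  have h := LinearMap.congr_fun (hasseDeriv_comp (R := ℂ) l p) q
  rw [LinearMap.comp_apply] at h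
  rw [h, LinearMap.smul_apply, eval_smul, nsmul_eq_mul, add_comm l p]

/-- **Fixed degree.** -/
theorem T_fix {p m : ℕ} (q : ℂ[X]) {x : ℝ} {β : ℕ → ℝ} (hβ : ∀ j, 0 ≤ β j)
    (hmaj : ∀ η : ℂ, ‖PP m x η 1 (hasseDeriv p q)‖ ≤
      ∑ j ∈ Finset.range m, β (j + 1) * ‖η‖ ^ (j + 1)) (η : ℂ) :
    ‖∑ j ∈ Finset.range m, (hasseDeriv (p + m - (j + 1)) q).eval (x:ℂ) * η ^ (j + 1)‖ ≤
      ∑ j ∈ Finset.range m,
        β (j + 1) / (((p + m - (j + 1)).choose (m - (j + 1)) : ℕ) : ℝ) * ‖η‖ ^ (j + 1) := by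
  have hPP : ∀ t : ℂ, PP m x η t (hasseDeriv p q) = ∑ j ∈ Finset.range m,
      (((p + m - (j + 1)).choose (m - (j + 1)) : ℕ) : ℂ) *
        ((hasseDeriv (p + m - (j + 1)) q).eval (x:ℂ) * η ^ (j + 1)) * t ^ (m - (j + 1)) := by
    intro t
    unfold PP
    refine Finset.sum_congr rfl fun j hj => ?_
    have hj' := Finset.mem_range.1 hj
    rw [hasse_hasse]
    have e : p + (m - (j + 1)) = p + m - (j + 1) := by omega
    rw [e]
    ring
  cases p with
  | zero =>
    have h1 := hmaj η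
    rw [hPP] at h1
    have e : ∀ j ∈ Finset.range m, (0 + m - (j + 1)).choose (m - (j + 1)) = 1 := by
      intro j _
      rw [zero_add, Nat.choose_self]
    have h2 : ∑ j ∈ Finset.range m, (((0 + m - (j + 1)).choose (m - (j + 1)) : ℕ) : ℂ) *
        ((hasseDeriv (0 + m - (j + 1)) q).eval (x:ℂ) * η ^ (j + 1)) * 1 ^ (m - (j + 1)) =
        ∑ j ∈ Finset.range m, (hasseDeriv (0 + m - (j + 1)) q).eval (x:ℂ) * η ^ (j + 1) := by
      refine Finset.sum_congr rfl fun j hj => ?_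
      rw [e j hj]
      simp
    have h3 : ∑ j ∈ Finset.range m,
        β (j + 1) / (((0 + m - (j + 1)).choose (m - (j + 1)) : ℕ) : ℝ) * ‖η‖ ^ (j + 1) =
        ∑ j ∈ Finset.range m, β (j + 1) * ‖η‖ ^ (j + 1) := by
      refine Finset.sum_congr rfl fun j hj => ?_
      rw [e j hj]
      simp
    rw [h3, ← h2]
    exact h1
  | succ p =>
    -- the weight
    set w : ℝ → ℝ := fun t => ((p + 1 : ℕ) : ℝ) * (1 - t) ^ p with hw
    have hwc : Continuous w := by
      rw [hw]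
      fun_prop
    have hw0 : ∀ t ∈ Ioc (0:ℝ) 1, 0 ≤ w t := by
      intro t ht
      have : 0 ≤ 1 - t := by linarith [ht.2]
      rw [hw]
      positivity
    -- scaling
    have hsc : ∀ t : ℝ, 0 < t → ‖PP m x η t (hasseDeriv (p + 1) q)‖ ≤
        ∑ j ∈ Finset.range m, β (j + 1) * ‖η‖ ^ (j + 1) * t ^ (m - (j + 1)) := by
      intro t ht
      have h1 := hmaj (η / t)
      have h2 : PP m x η t (hasseDeriv (p + 1) q) =
          (t:ℂ) ^ m * PP m x (η / t) 1 (hasseDeriv (p + 1) q) := by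
        unfold PP
        rw [Finset.mul_sum]
        refine Finset.sum_congr rfl fun j hj => ?_
        have hj' := Finset.mem_range.1 hj
        have e : (t:ℂ) ^ m = (t:ℂ) ^ (j + 1) * (t:ℂ) ^ (m - (j + 1)) := by
          rw [← pow_add]
          congr 1
          omega
        have ht' : (t:ℂ) ≠ 0 := by exact_mod_cast ht.ne'
        rw [e, div_pow, one_pow]
        field_simp
      rw [h2, norm_mul, norm_pow, Complex.norm_real, Real.norm_of_nonneg ht.le]
      refine (mul_le_mul_of_nonneg_left h1 (by positivity)).trans (le_of_eq ?_)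
      rw [Finset.mul_sum]
      refine Finset.sum_congr rfl fun j hj => ?_
      have hj' := Finset.mem_range.1 hj
      have e : t ^ m = t ^ (j + 1) * t ^ (m - (j + 1)) := by
        rw [← pow_add]
        congr 1
        omega
      rw [norm_div, Complex.norm_real, Real.norm_of_nonneg ht.le, e, div_pow]
      field_simp
    have hI1 : ∫ t in (0:ℝ)..1, (w t : ℂ) * PP m x η t (hasseDeriv (p + 1) q) =
        ∑ j ∈ Finset.range m, (hasseDeriv (p + 1 + m - (j + 1)) q).eval (x:ℂ) * η ^ (j + 1) := by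
      have h1 : ∀ t : ℝ, (w t : ℂ) * PP m x η t (hasseDeriv (p + 1) q) =
          ∑ j ∈ Finset.range m, ((((p + 1 + m - (j + 1)).choose (m - (j + 1)) : ℕ) : ℂ) *
            ((hasseDeriv (p + 1 + m - (j + 1)) q).eval (x:ℂ) * η ^ (j + 1))) *
            ((w t * t ^ (m - (j + 1)) : ℝ) : ℂ) := by
        intro t
        rw [hPP, Finset.mul_sum]
        refine Finset.sum_congr rfl fun j _ => ?_
        push_cast
        ring
      simp only [h1]
      rw [intervalIntegral.integral_finsetSum]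
      · refine Finset.sum_congr rfl fun j hj => ?_
        have hj' := Finset.mem_range.1 hj
        rw [intervalIntegral.integral_const_mul, intervalIntegral.integral_ofReal, hw, beta_mom]
        have e : p + 1 + (m - (j + 1)) = p + 1 + m - (j + 1) := by omega
        rw [e]
        have hc : (((p + 1 + m - (j + 1)).choose (m - (j + 1)) : ℕ) : ℂ) ≠ 0 := by
          have := Nat.choose_pos (show m - (j + 1) ≤ p + 1 + m - (j + 1) by omega)
          exact_mod_cast this.ne'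
        push_cast
        field_simp
      · intro j _
        refine Continuous.intervalIntegrable ?_ _ _
        exact continuous_const.mul (Complex.continuous_ofReal.comp (by fun_prop))
    rw [← hI1]
    have hI2 : ∫ t in (0:ℝ)..1, w t * ∑ j ∈ Finset.range m,
        β (j + 1) * ‖η‖ ^ (j + 1) * t ^ (m - (j + 1)) = ∑ j ∈ Finset.range m,
        β (j + 1) / (((p + 1 + m - (j + 1)).choose (m - (j + 1)) : ℕ) : ℝ) * ‖η‖ ^ (j + 1) := by
      have h1 : ∀ t : ℝ, w t * ∑ j ∈ Finset.range m,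
          β (j + 1) * ‖η‖ ^ (j + 1) * t ^ (m - (j + 1)) =
          ∑ j ∈ Finset.range m, (β (j + 1) * ‖η‖ ^ (j + 1)) * (w t * t ^ (m - (j + 1))) := by
        intro t
        rw [Finset.mul_sum]
        refine Finset.sum_congr rfl fun j _ => ?_
        ring
      simp only [h1]
      rw [intervalIntegral.integral_finsetSum]
      · refine Finset.sum_congr rfl fun j hj => ?_
        have hj' := Finset.mem_range.1 hj
        rw [intervalIntegral.integral_const_mul, hw, beta_mom]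
        have e : p + 1 + (m - (j + 1)) = p + 1 + m - (j + 1) := by omega
        rw [e]
        ring
      · intro j _
        refine Continuous.intervalIntegrable ?_ _ _
        fun_prop
    rw [← hI2]
    refine norm_integral_le_of_norm_le zero_le_one ?_ ?_
    · refine Filter.Eventually.of_forall fun t ht => ?_
      rw [norm_mul, Complex.norm_real, Real.norm_of_nonneg (hw0 t ht)]
      exact mul_le_mul_of_nonneg_left (hsc t ht.1) (hw0 t ht)
    · refine Continuous.intervalIntegrable ?_ _ _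
      fun_prop

end Pool.Agent.HMidB
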