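import Pool.Agent.HMidB.HermE

/-!
# The growth of the numerator: everything in terms of `r = |ξ| w_0/|G|`

`u A_+² + v A_-² = 1 + (1 - x²) r²`, `u = (1+x)/2`, `v = (1-x)/2`; by Cauchy–Schwarz the main part of `PH`
is at most `(Ω² (1 + (1-x²) r²)^K)^(1/2)`.
-/

set_option autoImplicit false

namespace Pool.Agent.HMidB

open Polynomial MeasureTheory Set ComplexConjugate Pool.Agent.HHalf

/-- The exact identity. -/
theorem two_point_sq (x : ℝ) (s G : ℂ) :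
    (1 + x) / 2 * ‖G + s * (x - 1)‖ ^ 2 + (1 - x) / 2 * ‖G + s * (x + 1)‖ ^ 2 =
      ‖G‖ ^ 2 + (1 - x ^ 2) * ‖s‖ ^ 2 := by
  rw [← Complex.normSq_eq_norm_sq, ← Complex.normSq_eq_norm_sq, ← Complex.normSq_eq_norm_sq,
    ← Complex.normSq_eq_norm_sq]
  simp only [Complex.normSq_apply, Complex.add_re, Complex.add_im, Complex.mul_re, Complex.mul_im,
    Complex.sub_re, Complex.sub_im, Complex.ofReal_re, Complex.ofReal_im, Complex.one_re,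
    Complex.one_im]
  ring

/-- The weights of the main part. -/
noncomputable def omw (K a i : ℕ) (x : ℝ) : ℝ :=
  if i < a then 2 * lo (K + 1) i x else 2 * hi (K + 1) i x

/-- `Ω² = ∑ om_i²/bin_K(i)`. -/
noncomputable def Om2 (K a : ℕ) (x : ℝ) : ℝ :=
  ∑ i ∈ Finset.range (K + 1), omw K a i x ^ 2 / BB K i x

/-- The main part of `PH`. -/
noncomputable def mainp (K a : ℕ) (x A B : ℝ) : ℝ :=
  ∑ i ∈ Finset.range (K + 1), omw K a i x * (A ^ i * B ^ (K - i))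

theorem PH_eq {n K a b : ℕ} (hab : a + b = K + 1) (x σ A B : ℝ) :
    PH n K a b x σ A B = mainp K a x A B +
      (bdp n (K + 1) b a σ A B + bdp n (K + 1) a b σ B A) := by
  unfold PH mainp
  congr 1
  rw [← Finset.sum_range_add_sum_Ico _ (by omega : a ≤ K + 1), mul_add, Finset.mul_sum,
    Finset.mul_sum]
  congr 1
  · refine Finset.sum_congr rfl fun i hi' => ?_
    rw [omw, if_pos (Finset.mem_range.1 hi')]
    ring
  · refine Finset.sum_congr rfl fun i hi' => ?_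
    rw [omw, if_neg (by have := (Finset.mem_Ico.1 hi').1; omega)]
    ring

theorem omw_nonneg (K a i : ℕ) {x : ℝ} (h1 : -1 ≤ x) (h2 : x ≤ 1) : 0 ≤ omw K a i x := by
  unfold omw
  split_ifs
  · have := lo_nonneg (K + 1) i h1 h2
    linarith
  · have := hi_nonneg (K + 1) i h1 h2
    linarith

theorem BB_pos {K i : ℕ} (hi' : i ≤ K) {x : ℝ} (h1 : -1 < x) (h2 : x < 1) : 0 < BB K i x := by
  unfold BB
  have h3 : 0 < (1 + x) / 2 := by linarith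
  have h4 : 0 < (1 - x) / 2 := by linarith
  have h5 : (0:ℝ) < (K.choose i : ℝ) := by exact_mod_cast Nat.choose_pos hi'
  positivity

theorem sum_BB_pow (K : ℕ) (x A B : ℝ) :
    ∑ i ∈ Finset.range (K + 1), BB K i x * (A ^ i * B ^ (K - i)) ^ 2 =
      ((1 + x) / 2 * A ^ 2 + (1 - x) / 2 * B ^ 2) ^ K := by
  rw [add_pow]
  refine Finset.sum_congr rfl fun i _ => ?_
  unfold BB
  rw [mul_pow, mul_pow, mul_pow]
  ring

/-- **Cauchy–Schwarz.** -/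
theorem mainp_sq (K a : ℕ) {x : ℝ} (h1 : -1 < x) (h2 : x < 1) (A B : ℝ) :
    mainp K a x A B ^ 2 ≤
      Om2 K a x * ((1 + x) / 2 * A ^ 2 + (1 - x) / 2 * B ^ 2) ^ K := by
  rw [← sum_BB_pow]
  unfold mainp Om2
  have h3 := Finset.sum_sq_le_sum_mul_sum_of_sq_le_mul (Finset.range (K + 1))
    (r := fun i => omw K a i x * (A ^ i * B ^ (K - i)))
    (f := fun i => omw K a i x ^ 2 / BB K i x)
    (g := fun i => BB K i x * (A ^ i * B ^ (K - i)) ^ 2) ?_ ?_ ?_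
  · exact h3
  · intro i hi'
    have := BB_pos (by have := Finset.mem_range.1 hi'; omega : i ≤ K) h1 h2
    positivity
  · intro i hi'
    have := BB_pos (by have := Finset.mem_range.1 hi'; omega : i ≤ K) h1 h2
    positivity
  · intro i hi'
    have := BB_pos (by have := Finset.mem_range.1 hi'; omega : i ≤ K) h1 h2
    have h5 : BB K i x ≠ 0 := this.ne'
    refine le_of_eq ?_
    field_simp

theorem Om2_nonneg (K a : ℕ) {x : ℝ} (h1 : -1 < x) (h2 : x < 1) : 0 ≤ Om2 K a x := by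
  unfold Om2
  refine Finset.sum_nonneg fun i hi' => ?_
  have := BB_pos (by have := Finset.mem_range.1 hi'; omega : i ≤ K) h1 h2
  positivity

/-- `mainp ≤ Ω Q^(K/2)`. -/
theorem mainp_le (K a : ℕ) {x : ℝ} (h1 : -1 < x) (h2 : x < 1) {A B Q : ℝ}
    (hQ : (1 + x) / 2 * A ^ 2 + (1 - x) / 2 * B ^ 2 = Q) :
    mainp K a x A B ≤ Real.sqrt (Om2 K a x) * Real.sqrt Q ^ K := by
  have hQ0 : 0 ≤ Q := by
    rw [← hQ]
    have h3 : 0 < (1 + x) / 2 := by linarith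
    have h4 : 0 < (1 - x) / 2 := by linarith
    positivity
  have h5 := mainp_sq K a h1 h2 A B
  rw [hQ] at h5
  have h6 : (Real.sqrt (Om2 K a x) * Real.sqrt Q ^ K) ^ 2 = Om2 K a x * Q ^ K := by
    rw [mul_pow, Real.sq_sqrt (Om2_nonneg K a h1 h2), ← pow_mul, mul_comm K 2, pow_mul,
      Real.sq_sqrt hQ0]
  rw [← h6] at h5
  exact le_of_sq_le_sq h5 (by positivity)
where
  le_of_sq_le_sq {a b : ℝ} (h : a ^ 2 ≤ b ^ 2) (hb : 0 ≤ b) : a ≤ b :=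
    le_trans (le_abs_self a) (abs_le_of_sq_le_sq h hb |> fun h => by simpa using h)

theorem bdp_mono (n k b a : ℕ) {σ g1 g2 h1 h2 : ℝ} (hσ : 0 ≤ σ) (hg1 : 0 ≤ g1) (hg2 : 0 ≤ g2)
    (e1 : g1 ≤ h1) (e2 : g2 ≤ h2) : bdp n k b a σ g1 g2 ≤ bdp n k b a σ h1 h2 := by
  unfold bdp
  refine Finset.sum_le_sum fun j _ => ?_
  refine mul_le_mul_of_nonneg_left ?_ (al_nonneg _ _ _ _)
  refine mul_le_mul_of_nonneg_left ?_ (by positivity)
  exact mul_le_mul (pow_le_pow_left₀ hg1 e1 _) (pow_le_pow_left₀ hg2 e2 _) (by positivity)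
    (pow_nonneg (hg1.trans e1) _)

/-- The majorant in `r` alone. -/
noncomputable def Phr (n K a b : ℕ) (x r : ℝ) : ℝ :=
  Real.sqrt (Om2 K a x) * Real.sqrt (1 + (1 - x ^ 2) * r ^ 2) ^ K +
    (bdp n (K + 1) b a r (1 + (1 - x) * r) (1 + (1 + x) * r) +
      bdp n (K + 1) a b r (1 + (1 + x) * r) (1 + (1 - x) * r))

theorem PH_le {n K a b : ℕ} (hab : a + b = K + 1) {x : ℝ} (h1 : -1 < x) (h2 : x < 1) {r A B : ℝ}
    (hr : 0 ≤ r) (hA0 : 0 ≤ A) (hB0 : 0 ≤ B)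
    (hQ : (1 + x) / 2 * A ^ 2 + (1 - x) / 2 * B ^ 2 = 1 + (1 - x ^ 2) * r ^ 2)
    (hA : A ≤ 1 + (1 - x) * r) (hB : B ≤ 1 + (1 + x) * r) :
    PH n K a b x r A B ≤ Phr n K a b x r := by
  rw [PH_eq hab, Phr]
  exact add_le_add (mainp_le K a h1 h2 hQ)
    (add_le_add (bdp_mono _ _ _ _ hr hA0 hB0 hA hB) (bdp_mono _ _ _ _ hr hB0 hA0 hB hA))

section num

variable {n : ℕ} {z : Fin n → ℂ}

/-- The ratio `r`. -/
noncomputable def rr (z : Fin n → ℂ) (x : ℝ) (ξ : ℂ) (X : Fin (n + 1) → ℝ) : ℝ :=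
  ‖ξ‖ * HStar.w0 X / ‖1 - ξ * HStar.ZZ z x X‖

theorem G_pos (hz : ∀ i, ‖z i‖ ≤ 1) {x : ℝ} (hx1 : -1 ≤ x) (hx2 : x ≤ 1) {ξ : ℂ} (hξ : ‖ξ‖ < 1)
    {X : Fin (n + 1) → ℝ} (hX : ∀ i, 0 < X i) : 0 < ‖1 - ξ * HStar.ZZ z x X‖ := by
  have := (g_bounds hz hx1 hx2 hξ hX (c := 1) (by simp)).1
  linarith

theorem rr_nonneg (hz : ∀ i, ‖z i‖ ≤ 1) {x : ℝ} (hx1 : -1 ≤ x) (hx2 : x ≤ 1) {ξ : ℂ}
    (hξ : ‖ξ‖ < 1) {X : Fin (n + 1) → ℝ} (hX : ∀ i, 0 < X i) : 0 ≤ rr z x ξ X := by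
  have := G_pos hz hx1 hx2 hξ hX
  have := HStar.w0_nonneg hX
  unfold rr
  positivity

/-- The numerator density in terms of `r` alone. -/
theorem numd_le {K a b : ℕ} (hab : a + b = K + 1) (hz : ∀ i, ‖z i‖ ≤ 1) {x : ℝ} (h1 : -1 < x)
    (h2 : x < 1) {ξ : ℂ} (hξ : ‖ξ‖ < 1) {X : Fin (n + 1) → ℝ} (hX : ∀ i, 0 < X i) :
    numd K a b z x ξ X ≤ ‖ξ‖ * HStar.w0 X / ‖1 - ξ * HStar.ZZ z x X‖ ^ 2 *
      (2 * Phr n K a b x (rr z x ξ X)) := by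
  have hg := G_pos hz h1.le h2.le hξ hX
  have hw := HStar.w0_nonneg hX
  unfold numd
  refine mul_le_mul_of_nonneg_left ?_ (by positivity)
  refine mul_le_mul_of_nonneg_left ?_ (by norm_num)
  have e1 : 1 - ξ * HStar.ZZ z x X + ξ * (HStar.w0 X : ℂ) * ((x:ℂ) - 1) =
      1 - ξ * HStar.ZZ z 1 X := by
    rw [HStar.ZZ_eq z x X, HStar.ZZ_eq z 1 X]
    ring
  have e2 : 1 - ξ * HStar.ZZ z x X + ξ * (HStar.w0 X : ℂ) * ((x:ℂ) + 1) =
      1 - ξ * HStar.ZZ z (-1) X := by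
    rw [HStar.ZZ_eq z x X, HStar.ZZ_eq z (-1) X]
    ring
  have e3 : ‖ξ * (HStar.w0 X : ℂ)‖ = ‖ξ‖ * HStar.w0 X := by
    rw [norm_mul, Complex.norm_real, Real.norm_of_nonneg hw]
  have h3 := two_point_sq x (ξ * (HStar.w0 X : ℂ)) (1 - ξ * HStar.ZZ z x X)
  rw [e1, e2, e3] at h3
  have hA : ‖1 - ξ * HStar.ZZ z 1 X‖ ≤ ‖1 - ξ * HStar.ZZ z x X‖ + (1 - x) * (‖ξ‖ * HStar.w0 X) := by
    rw [← e1]
    refine (norm_add_le _ _).trans ?_
    rw [norm_mul, e3]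
    have : ‖(x:ℂ) - 1‖ = 1 - x := by
      have h4 : (x:ℂ) - 1 = ((x - 1 : ℝ) : ℂ) := by push_cast; ring
      rw [h4, Complex.norm_real, Real.norm_eq_abs, abs_of_neg (by linarith)]
      ring
    rw [this]
    linarith
  have hB : ‖1 - ξ * HStar.ZZ z (-1) X‖ ≤
      ‖1 - ξ * HStar.ZZ z x X‖ + (1 + x) * (‖ξ‖ * HStar.w0 X) := by
    rw [← e2]
    refine (norm_add_le _ _).trans ?_
    rw [norm_mul, e3]
    have : ‖(x:ℂ) + 1‖ = 1 + x := by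
      have h4 : (x:ℂ) + 1 = ((x + 1 : ℝ) : ℂ) := by push_cast; ring
      rw [h4, Complex.norm_real, Real.norm_eq_abs, abs_of_pos (by linarith)]
      ring
    rw [this]
    linarith
  refine PH_le hab h1 h2 (rr_nonneg hz h1.le h2.le hξ hX) (by positivity) (by positivity) ?_ ?_ ?_
  · set g := ‖1 - ξ * HStar.ZZ z x X‖ with hgd
    rw [div_pow, div_pow, div_pow]
    have hg2 : g ^ 2 ≠ 0 := pow_ne_zero _ hg.ne'
    calc (1 + x) / 2 * (‖1 - ξ * HStar.ZZ z 1 X‖ ^ 2 / g ^ 2) +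
          (1 - x) / 2 * (‖1 - ξ * HStar.ZZ z (-1) X‖ ^ 2 / g ^ 2)
        = ((1 + x) / 2 * ‖1 - ξ * HStar.ZZ z 1 X‖ ^ 2 +
          (1 - x) / 2 * ‖1 - ξ * HStar.ZZ z (-1) X‖ ^ 2) / g ^ 2 := by ring
      _ = (g ^ 2 + (1 - x ^ 2) * (‖ξ‖ * HStar.w0 X) ^ 2) / g ^ 2 := by rw [h3]
      _ = _ := by field_simp
  · rw [div_le_iff₀ hg]
    refine hA.trans (le_of_eq ?_)
    field_simp
  · rw [div_le_iff₀ hg]
    refine hB.trans (le_of_eq ?_)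
    field_simp

end num

end Pool.Agent.HMidB
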