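import Mathlib

/-!
# Two-point Hermite form of the Taylor part: algebra

`PP k x s G q = ∑_{j < k} H_{k-1-j} q(x) s^(j+1) G^(k-1-j)`; for `q = (X-1)^i (X+1)^l`, `i + l < k`,
it equals `s^(k-i-l) (G + s (x-1))^i (G + s (x+1))^l`.
-/

set_option autoImplicit false

namespace Pool.Agent.HMidB

open Polynomial

/-- The functional. -/
noncomputable def PP (k : ℕ) (x s G : ℂ) (q : ℂ[X]) : ℂ :=
  ∑ j ∈ Finset.range k, (hasseDeriv (k - (j + 1)) q).eval x * (s ^ (j + 1) * G ^ (k - (j + 1)))

theorem PP_add (k : ℕ) (x s G : ℂ) (p q : ℂ[X]) :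
    PP k x s G (p + q) = PP k x s G p + PP k x s G q := by
  unfold PP
  rw [← Finset.sum_add_distrib]
  refine Finset.sum_congr rfl fun j _ => ?_
  rw [map_add, eval_add]
  ring

theorem PP_C_mul (k : ℕ) (x s G c : ℂ) (q : ℂ[X]) :
    PP k x s G (C c * q) = c * PP k x s G q := by
  unfold PP
  rw [Finset.mul_sum]
  refine Finset.sum_congr rfl fun j _ => ?_
  rw [← smul_eq_C_mul, map_smul, eval_smul, smul_eq_mul]
  ring

theorem PP_sum {ι : Type*} (k : ℕ) (x s G : ℂ) (t : Finset ι) (p : ι → ℂ[X]) :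
    PP k x s G (∑ i ∈ t, p i) = ∑ i ∈ t, PP k x s G (p i) := by
  classical
  induction t using Finset.induction_on with
  | empty => simp [PP]
  | insert a t ha ih => rw [Finset.sum_insert ha, Finset.sum_insert ha, PP_add, ih]

/-- The functional only depends on the Taylor coefficients of index `< k` at `x`. -/
theorem PP_congr {k : ℕ} {x : ℂ} (s G : ℂ) {p q : ℂ[X]}
    (h : ∀ m < k, (hasseDeriv m p).eval x = (hasseDeriv m q).eval x) :
    PP k x s G p = PP k x s G q := by
  unfold PP
  refine Finset.sum_congr rfl fun j hj => ?_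
  rw [h _ (by have := Finset.mem_range.1 hj; omega)]

theorem PP_reflect (k : ℕ) (x s G : ℂ) (q : ℂ[X]) :
    PP k x s G q = ∑ m ∈ Finset.range k, (hasseDeriv m q).eval x * (s ^ (k - m) * G ^ m) := by
  unfold PP
  rw [← Finset.sum_range_reflect]
  refine Finset.sum_congr rfl fun m hm => ?_
  have hm' := Finset.mem_range.1 hm
  have e1 : k - (k - 1 - m + 1) = m := by omega
  have e2 : k - 1 - m + 1 = k - m := by omega
  rw [e1, e2]

theorem eval_taylor (k : ℕ) (x t : ℂ) {q : ℂ[X]} (hq : q.natDegree < k) :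
    q.eval (x + t) = ∑ m ∈ Finset.range k, (hasseDeriv m q).eval x * t ^ m := by
  have h1 : q.eval (x + t) = (taylor x q).eval t := by rw [taylor_eval, add_comm]
  rw [h1, eval_eq_sum_range' (by rwa [natDegree_taylor])]
  refine Finset.sum_congr rfl fun m _ => ?_
  rw [taylor_coeff]

theorem natDegree_qq (i l : ℕ) : ((X - 1 : ℂ[X]) ^ i * (X + 1) ^ l).natDegree ≤ i + l := by
  refine natDegree_mul_le.trans ?_
  refine add_le_add ?_ ?_
  · refine natDegree_pow_le.trans ?_
    have : (X - 1 : ℂ[X]).natDegree = 1 := by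
      have := natDegree_X_sub_C (1:ℂ)
      rwa [C_1] at this
    rw [this, mul_one]
  · refine natDegree_pow_le.trans ?_
    have : (X + 1 : ℂ[X]).natDegree = 1 := by
      have := natDegree_X_add_C (1:ℂ)
      rwa [C_1] at this
    rw [this, mul_one]

theorem PP_qq {k i l : ℕ} (hil : i + l < k) (x s G : ℂ) :
    PP k x s G ((X - 1) ^ i * (X + 1) ^ l) =
      s ^ (k - (i + l)) * ((G + s * (x - 1)) ^ i * (G + s * (x + 1)) ^ l) := by
  rw [PP_reflect]
  by_cases hs : s = 0
  · subst hs
    rw [zero_pow (by omega : k - (i + l) ≠ 0), zero_mul]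
    refine Finset.sum_eq_zero fun m hm => ?_
    have := Finset.mem_range.1 hm
    rw [zero_pow (by omega : k - m ≠ 0), zero_mul, mul_zero]
  · have h1 := eval_taylor k x (G / s) (q := (X - 1) ^ i * (X + 1) ^ l)
      (lt_of_le_of_lt (natDegree_qq i l) hil)
    have h2 : s ^ k * ((X - 1 : ℂ[X]) ^ i * (X + 1) ^ l).eval (x + G / s) =
        ∑ m ∈ Finset.range k, (hasseDeriv m ((X - 1 : ℂ[X]) ^ i * (X + 1) ^ l)).eval x *
          (s ^ (k - m) * G ^ m) := by
      rw [h1, Finset.mul_sum]
      refine Finset.sum_congr rfl fun m hm => ?_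
      have hm' := Finset.mem_range.1 hm
      have e : s ^ k = s ^ (k - m) * s ^ m := by rw [← pow_add]; congr 1; omega
      rw [e, div_pow]
      field_simp
    rw [← h2, eval_mul, eval_pow, eval_pow, eval_sub, eval_add, eval_X, eval_one]
    have e : s ^ k = s ^ (k - (i + l)) * (s ^ i * s ^ l) := by
      rw [← pow_add, ← pow_add]
      congr 1
      omega
    have e1 : G + s * (x - 1) = s * (x + G / s - 1) := by field_simp; ring
    have e2 : G + s * (x + 1) = s * (x + G / s + 1) := by field_simp; ring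
    rw [e, e1, e2, mul_pow, mul_pow]
    ring

/-- The Taylor polynomial. -/
noncomputable def tay (k : ℕ) (c : ℂ) (q : ℂ[X]) : ℂ[X] :=
  ∑ m ∈ Finset.range k, C ((hasseDeriv m q).eval c) * (X - C c) ^ m

theorem hasse_tay {k : ℕ} (c : ℂ) (q : ℂ[X]) {m : ℕ} (hm : m < k) :
    (hasseDeriv m (tay k c q)).eval c = (hasseDeriv m q).eval c := by
  have h : taylor c (tay k c q) = ∑ j ∈ Finset.range k, C ((hasseDeriv j q).eval c) * X ^ j := by
    unfold tay
    rw [map_sum]
    refine Finset.sum_congr rfl fun j _ => ?_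
    simp [taylor_mul, taylor_pow]
  rw [← taylor_coeff, h, finsetSum_coeff]
  simp only [coeff_C_mul, coeff_X_pow]
  rw [Finset.sum_eq_single m]
  · simp
  · intro j _ hj
    rw [if_neg (by omega), mul_zero]
  · intro h
    exact absurd (Finset.mem_range.2 hm) h

theorem PP_tay (k : ℕ) (x s G : ℂ) (q : ℂ[X]) : PP k x s G (tay k x q) = PP k x s G q :=
  PP_congr s G fun _ hm => hasse_tay x q hm

theorem eval_tay (k : ℕ) (c w : ℂ) (q : ℂ[X]) :
    (tay k c q).eval w = ∑ m ∈ Finset.range k, (hasseDeriv m q).eval c * (w - c) ^ m := by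
  unfold tay
  rw [eval_finsetSum]
  refine Finset.sum_congr rfl fun m _ => ?_
  simp

theorem derivative_hasse (m : ℕ) (q : ℂ[X]) :
    derivative (hasseDeriv m q) = ((m + 1 : ℕ) : ℂ[X]) * hasseDeriv (m + 1) q := by
  have h := LinearMap.congr_fun (hasseDeriv_comp (R := ℂ) 1 m) q
  rw [LinearMap.comp_apply, hasseDeriv_one] at h
  rw [h, LinearMap.smul_apply, Nat.choose_one_right, add_comm 1 m, nsmul_eq_mul]

/-- The derivative in the base point. -/
theorem hasDerivAt_tay (k : ℕ) (w : ℂ) (q : ℂ[X]) (c : ℂ) :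
    HasDerivAt (fun c => ∑ m ∈ Finset.range (k + 1), (hasseDeriv m q).eval c * (w - c) ^ m)
      ((k + 1 : ℕ) * (hasseDeriv (k + 1) q).eval c * (w - c) ^ k) c := by
  induction k with
  | zero =>
    have h := (hasseDeriv 0 q).hasDerivAt c
    rw [derivative_hasse] at h
    simpa using h
  | succ k ih =>
    have h1 := (hasseDeriv (k + 1) q).hasDerivAt c
    rw [derivative_hasse] at h1
    have h2 : HasDerivAt (fun c : ℂ => (w - c) ^ (k + 1)) ((k + 1 : ℕ) * (w - c) ^ k * -1) c := by
      have h3 : HasDerivAt (fun c : ℂ => w - c) (-1) c := by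
        simpa using (hasDerivAt_id c).const_sub w
      simpa using h3.fun_pow (k + 1)
    have h4 := ih.add (h1.mul h2)
    have e : (fun c => ∑ m ∈ Finset.range (k + 1 + 1), (hasseDeriv m q).eval c * (w - c) ^ m) =
        (fun c => ∑ m ∈ Finset.range (k + 1), (hasseDeriv m q).eval c * (w - c) ^ m) +
          ((fun c => (hasseDeriv (k + 1) q).eval c) * fun c => (w - c) ^ (k + 1)) := by
      funext c
      rw [Finset.sum_range_succ]
      rfl
    rw [e]
    refine h4.congr_deriv ?_
    rw [eval_mul, eval_natCast]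
    push_cast
    ring

end Pool.Agent.HMidB
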