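import Pool.Agent.HMidB.HermA

/-!
# Two-point Hermite form of the Taylor part: the identity

`T^x = J_{a,b} + ∑_{i ≥ a} β_i(-1,x) (X-1)^i (X+1)^(K-i) - ∑_{i < a} β_i(x,1) (X-1)^i (X+1)^(K-i)`.
-/

set_option autoImplicit false

namespace Pool.Agent.HMidB

open Polynomial MeasureTheory intervalIntegral Set

/-- The Bernstein weights on `[-1,1]`. -/
noncomputable def BB (K i : ℕ) (t : ℝ) : ℝ :=
  (K.choose i : ℝ) * ((1 + t) / 2) ^ i * ((1 - t) / 2) ^ (K - i)

theorem continuous_BB (K i : ℕ) : Continuous (BB K i) := by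
  unfold BB
  fun_prop

theorem BB_nonneg (K i : ℕ) {t : ℝ} (h1 : -1 ≤ t) (h2 : t ≤ 1) : 0 ≤ BB K i t := by
  unfold BB
  have h3 : 0 ≤ (1 + t) / 2 := by linarith
  have h4 : 0 ≤ (1 - t) / 2 := by linarith
  positivity

/-- The binomial expansion of `(w - t)^K`. -/
theorem sub_pow_eq (K : ℕ) (w : ℂ) (t : ℝ) :
    (w - t) ^ K = ∑ i ∈ Finset.range (K + 1), (BB K i t : ℂ) * ((w - 1) ^ i * (w + 1) ^ (K - i)) := by
  have e : w - t = ((1 + t) / 2 : ℂ) * (w - 1) + ((1 - t) / 2 : ℂ) * (w + 1) := by ring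
  rw [e, add_pow]
  refine Finset.sum_congr rfl fun i _ => ?_
  unfold BB
  push_cast
  rw [mul_pow, mul_pow]
  ring

/-- `β_i(a,b) = (K+1) ∫_a^b B_i P`. -/
noncomputable def bet (K i : ℕ) (q : ℂ[X]) (a b : ℝ) : ℂ :=
  (K + 1 : ℕ) * ∫ t in a..b, (BB K i t : ℂ) * (hasseDeriv (K + 1) q).eval (t : ℂ)

theorem continuous_int (K i : ℕ) (q : ℂ[X]) :
    Continuous fun t : ℝ => (BB K i t : ℂ) * (hasseDeriv (K + 1) q).eval (t : ℂ) :=
  (Complex.continuous_ofReal.comp (continuous_BB K i)).mul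
    ((Polynomial.continuous _).comp Complex.continuous_ofReal)

theorem bet_add (K i : ℕ) (q : ℂ[X]) (a b c : ℝ) :
    bet K i q a b + bet K i q b c = bet K i q a c := by
  unfold bet
  rw [← mul_add, integral_add_adjacent_intervals ((continuous_int K i q).intervalIntegrable _ _)
    ((continuous_int K i q).intervalIntegrable _ _)]

theorem natDegree_X_sub_one : (X - 1 : ℂ[X]).natDegree = 1 := by
  have := natDegree_X_sub_C (1:ℂ)
  rwa [C_1] at this

theorem natDegree_X_add_one : (X + 1 : ℂ[X]).natDegree = 1 := by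
  have := natDegree_X_add_C (1:ℂ)
  rwa [C_1] at this

/-- The difference of two Taylor polynomials. -/
theorem tay_sub (K : ℕ) (q : ℂ[X]) (a b : ℝ) :
    tay (K + 1) b q - tay (K + 1) a q =
      ∑ i ∈ Finset.range (K + 1), C (bet K i q a b) * ((X - 1) ^ i * (X + 1) ^ (K - i)) := by
  refine Polynomial.funext fun w => ?_
  rw [eval_sub, eval_tay, eval_tay, eval_finsetSum]
  have h1 : ∀ t ∈ uIcc a b, HasDerivAt (fun t : ℝ => ∑ m ∈ Finset.range (K + 1),
      (hasseDeriv m q).eval (t:ℂ) * (w - t) ^ m)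
      ((K + 1 : ℕ) * (hasseDeriv (K + 1) q).eval (t:ℂ) * (w - t) ^ K) t := fun t _ =>
    (hasDerivAt_tay K w q (t:ℂ)).comp_ofReal
  have hc : Continuous fun t : ℝ => ((K + 1 : ℕ) : ℂ) * (hasseDeriv (K + 1) q).eval (t:ℂ) *
      (w - t) ^ K :=
    (continuous_const.mul ((Polynomial.continuous _).comp Complex.continuous_ofReal)).mul
      ((continuous_const.sub Complex.continuous_ofReal).pow K)
  have h2 := integral_eq_sub_of_hasDerivAt h1 (hc.intervalIntegrable _ _)
  rw [← h2]
  have h3 : ∀ t : ℝ, ((K + 1 : ℕ) : ℂ) * (hasseDeriv (K + 1) q).eval (t:ℂ) * (w - t) ^ K =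
      ∑ i ∈ Finset.range (K + 1), ((K + 1 : ℕ) : ℂ) * ((w - 1) ^ i * (w + 1) ^ (K - i)) *
        ((BB K i t : ℂ) * (hasseDeriv (K + 1) q).eval (t : ℂ)) := by
    intro t
    rw [sub_pow_eq, Finset.mul_sum]
    refine Finset.sum_congr rfl fun i _ => ?_
    ring
  simp only [h3]
  rw [intervalIntegral.integral_finsetSum]
  · refine Finset.sum_congr rfl fun i _ => ?_
    rw [intervalIntegral.integral_const_mul, bet]
    simp only [eval_mul, eval_C, eval_pow, eval_sub, eval_add, eval_X, eval_one]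
    ring
  · intro i _
    exact (continuous_const.mul (continuous_int K i q)).intervalIntegrable _ _

/-- The coefficients of `(e + y)^(-b)`. -/
noncomputable def cc' (e : ℂ) (b m : ℕ) : ℂ := (-1) ^ m * ((b + m - 1).choose m : ℂ) / e ^ (b + m)

/-- The truncated inverse power. -/
noncomputable def NN (e : ℂ) (b a : ℕ) (y : ℂ[X]) : ℂ[X] :=
  ∑ m ∈ Finset.range a, C (cc' e b m) * y ^ m

theorem cc'_rec {e : ℂ} (he : e ≠ 0) (b m : ℕ) :
    e * cc' e (b + 1) (m + 1) + cc' e (b + 1) m = cc' e b (m + 1) := by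
  unfold cc'
  have e1 : b + 1 + (m + 1) - 1 = b + m + 1 := by omega
  have e2 : b + 1 + m - 1 = b + m := by omega
  have e3 : b + (m + 1) - 1 = b + m := by omega
  rw [e1, e2, e3, Nat.choose_succ_succ]
  push_cast
  field_simp
  ring

theorem cc'_zero {e : ℂ} (he : e ≠ 0) (b : ℕ) : e * cc' e (b + 1) 0 = cc' e b 0 := by
  unfold cc'
  simp only [pow_zero, Nat.choose_zero_right, add_zero]
  field_simp
  ring

theorem NN_rec {e : ℂ} (he : e ≠ 0) (b a : ℕ) (y : ℂ[X]) :
    NN e (b + 1) (a + 1) y * (y + C e) = NN e b (a + 1) y + C (cc' e (b + 1) a) * y ^ (a + 1) := by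
  unfold NN
  induction a with
  | zero =>
    rw [Finset.sum_range_one, Finset.sum_range_one, ← cc'_zero he b, C_mul]
    ring
  | succ a ih =>
    rw [Finset.sum_range_succ, Finset.sum_range_succ _ (a + 1), add_mul, ih, ← cc'_rec he b a,
      C_add, C_mul]
    ring

theorem NN_inv {e : ℂ} (he : e ≠ 0) (b a : ℕ) (y : ℂ[X]) :
    y ^ a ∣ NN e b a y * (y + C e) ^ b - 1 := by
  cases a with
  | zero => simp
  | succ a =>
    induction b with
    | zero =>
      have : NN e 0 (a + 1) y = 1 := by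
        unfold NN
        rw [Finset.sum_range_succ']
        have h0 : cc' e 0 0 = 1 := by simp [cc']
        rw [h0, Finset.sum_eq_zero]
        · simp
        · intro m _
          have : cc' e 0 (m + 1) = 0 := by
            unfold cc'
            rw [zero_add, Nat.add_sub_cancel, Nat.choose_succ_self]
            simp
          rw [this, C_0, zero_mul]
      rw [this]
      simp
    | succ b ih =>
      have h1 : NN e (b + 1) (a + 1) y * (y + C e) ^ (b + 1) - 1 =
          C (cc' e (b + 1) a) * y ^ (a + 1) * (y + C e) ^ b +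
            (NN e b (a + 1) y * (y + C e) ^ b - 1) := by
        have := NN_rec he b a y
        calc NN e (b + 1) (a + 1) y * (y + C e) ^ (b + 1) - 1
            = (NN e (b + 1) (a + 1) y * (y + C e)) * (y + C e) ^ b - 1 := by ring
          _ = _ := by rw [this]; ring
      rw [h1]
      refine dvd_add ?_ ih
      exact Dvd.intro_left _ (by ring : C (cc' e (b + 1) a) * (y + C e) ^ b * y ^ (a + 1) = _)

/-- One half of the Hermite interpolant. -/
noncomputable def JJ (e : ℂ) (b a : ℕ) (h : ℕ → ℂ) (y : ℂ[X]) : ℂ[X] :=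
  ∑ i ∈ Finset.range a, C (h i) * y ^ i * (NN e b (a - i) y * (y + C e) ^ b)

theorem JJ_sub {e : ℂ} (he : e ≠ 0) (b a : ℕ) (h : ℕ → ℂ) (y : ℂ[X]) :
    y ^ a ∣ JJ e b a h y - ∑ i ∈ Finset.range a, C (h i) * y ^ i := by
  unfold JJ
  rw [← Finset.sum_sub_distrib]
  refine Finset.dvd_sum fun i hi => ?_
  have hi' := Finset.mem_range.1 hi
  have e1 : C (h i) * y ^ i * (NN e b (a - i) y * (y + C e) ^ b) - C (h i) * y ^ i =
      C (h i) * (y ^ i * (NN e b (a - i) y * (y + C e) ^ b - 1)) := by ring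
  rw [e1]
  refine Dvd.dvd.mul_left ?_ _
  have e2 : y ^ a = y ^ i * y ^ (a - i) := by rw [← pow_add]; congr 1; omega
  rw [e2]
  exact mul_dvd_mul_left _ (NN_inv he b (a - i) y)

theorem tay_dvd (k a : ℕ) (ha : a ≤ k) (c : ℂ) (q : ℂ[X]) :
    (X - C c) ^ a ∣ tay k c q -
      ∑ i ∈ Finset.range a, C ((hasseDeriv i q).eval c) * (X - C c) ^ i := by
  unfold tay
  have h1 := Finset.sum_range_add_sum_Ico (fun m => C ((hasseDeriv m q).eval c) * (X - C c) ^ m) ha
  rw [← h1, add_sub_cancel_left]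
  refine Finset.dvd_sum fun i hi => ?_
  have hi' := (Finset.mem_Ico.1 hi).1
  exact Dvd.dvd.mul_left (pow_dvd_pow _ hi') _

theorem natDegree_JJ {e : ℂ} {b a K : ℕ} (hab : a + b = K + 1) (h : ℕ → ℂ) {y : ℂ[X]}
    (hy : y.natDegree ≤ 1) : (JJ e b a h y).natDegree ≤ K := by
  unfold JJ
  refine natDegree_sum_le_of_forall_le _ _ fun i hi => ?_
  have hi' := Finset.mem_range.1 hi
  have h1 : (C (h i) * y ^ i).natDegree ≤ i := by
    refine (natDegree_C_mul_le _ _).trans ?_
    refine natDegree_pow_le.trans ?_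
    calc i * y.natDegree ≤ i * 1 := Nat.mul_le_mul_left _ hy
      _ = i := mul_one _
  have h2 : (NN e b (a - i) y).natDegree ≤ a - i - 1 := by
    unfold NN
    refine natDegree_sum_le_of_forall_le _ _ fun m hm => ?_
    have hm' := Finset.mem_range.1 hm
    refine (natDegree_C_mul_le _ _).trans ?_
    refine natDegree_pow_le.trans ?_
    calc m * y.natDegree ≤ m * 1 := Nat.mul_le_mul_left _ hy
      _ ≤ a - i - 1 := by omega
  have h3 : ((y + C e) ^ b).natDegree ≤ b := by
    refine natDegree_pow_le.trans ?_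
    have : (y + C e).natDegree ≤ 1 := (natDegree_add_le _ _).trans (by
      rw [natDegree_C]
      exact max_le hy (by omega))
    calc b * (y + C e).natDegree ≤ b * 1 := Nat.mul_le_mul_left _ this
      _ = b := mul_one _
  have h4 := natDegree_mul_le (p := C (h i) * y ^ i) (q := NN e b (a - i) y * (y + C e) ^ b)
  have h5 := natDegree_mul_le (p := NN e b (a - i) y) (q := (y + C e) ^ b)
  omega

/-- **The two-point Hermite identity.** -/
theorem herm {a b K : ℕ} (hab : a + b = K + 1) (q : ℂ[X]) (x : ℝ) :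
    tay (K + 1) x q =
      JJ 2 b a (fun i => (hasseDeriv i q).eval 1) (X - 1) +
      JJ (-2) a b (fun i => (hasseDeriv i q).eval (-1)) (X + 1) +
      ∑ i ∈ Finset.Ico a (K + 1), C (bet K i q (-1) x) * ((X - 1) ^ i * (X + 1) ^ (K - i)) -
      ∑ i ∈ Finset.range a, C (bet K i q x 1) * ((X - 1) ^ i * (X + 1) ^ (K - i)) := by
  set q1 := fun i => (hasseDeriv i q).eval (1:ℂ) with hq1
  set q2 := fun i => (hasseDeriv i q).eval (-1:ℂ) with hq2
  set S1 := ∑ i ∈ Finset.Ico a (K + 1), C (bet K i q (-1) x) * ((X - 1 : ℂ[X]) ^ i * (X + 1) ^ (K - i))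
    with hS1
  set S2 := ∑ i ∈ Finset.range a, C (bet K i q x 1) * ((X - 1 : ℂ[X]) ^ i * (X + 1) ^ (K - i))
    with hS2
  have haK : a ≤ K + 1 := by omega
  have t1 := tay_sub K q x 1
  have t2 := tay_sub K q (-1) x
  rw [← Finset.sum_range_add_sum_Ico _ haK] at t1 t2
  have hX1 : (X - 1 : ℂ[X]) = X - C 1 := by rw [C_1]
  have hX2 : (X + 1 : ℂ[X]) = X - C (-1) := by rw [C_neg, C_1]; ring
  have hXe : (X + 1 : ℂ[X]) = X - 1 + C 2 := by
    rw [map_ofNat C 2]; ring
  have hXe' : (X - 1 : ℂ[X]) = X + 1 + C (-2) := by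
    rw [C_neg, map_ofNat C 2]; ring
  set D := tay (K + 1) x q - (JJ 2 b a q1 (X - 1) + JJ (-2) a b q2 (X + 1)) - S1 + S2 with hD
  -- divisibility by `(X-1)^a`
  have d1 : (X - 1 : ℂ[X]) ^ a ∣ D := by
    have h1 : D = -(JJ 2 b a q1 (X - 1) - ∑ i ∈ Finset.range a, C (q1 i) * (X - 1) ^ i) +
        (tay (K + 1) 1 q - ∑ i ∈ Finset.range a, C (q1 i) * (X - 1) ^ i) -
        JJ (-2) a b q2 (X + 1) - S1 -
        ∑ i ∈ Finset.Ico a (K + 1), C (bet K i q x 1) * ((X - 1) ^ i * (X + 1) ^ (K - i)) := by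
      have : tay (K + 1) (x:ℂ) q = tay (K + 1) 1 q - (S2 +
          ∑ i ∈ Finset.Ico a (K + 1), C (bet K i q x 1) * ((X - 1) ^ i * (X + 1) ^ (K - i))) := by
        rw [← t1]; push_cast; ring
      rw [hD, this]
      ring
    rw [h1]
    refine dvd_sub (dvd_sub (dvd_sub (dvd_add (dvd_neg.2 ?_) ?_) ?_) ?_) ?_
    · exact JJ_sub two_ne_zero b a q1 (X - 1)
    · have := tay_dvd (K + 1) a haK 1 q
      rwa [C_1] at this
    · unfold JJ
      refine Finset.dvd_sum fun i _ => ?_
      rw [← hXe']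
      exact Dvd.dvd.mul_left (Dvd.dvd.mul_left dvd_rfl _) _
    · refine Finset.dvd_sum fun i hi => ?_
      have := (Finset.mem_Ico.1 hi).1
      exact Dvd.dvd.mul_left (Dvd.dvd.mul_right (pow_dvd_pow _ this) _) _
    · refine Finset.dvd_sum fun i hi => ?_
      have := (Finset.mem_Ico.1 hi).1
      exact Dvd.dvd.mul_left (Dvd.dvd.mul_right (pow_dvd_pow _ this) _) _
  have d2 : (X + 1 : ℂ[X]) ^ b ∣ D := by
    have h1 : D = -(JJ (-2) a b q2 (X + 1) - ∑ i ∈ Finset.range b, C (q2 i) * (X + 1) ^ i) +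
        (tay (K + 1) (-1) q - ∑ i ∈ Finset.range b, C (q2 i) * (X + 1) ^ i) -
        JJ 2 b a q1 (X - 1) + S2 +
        ∑ i ∈ Finset.range a, C (bet K i q (-1) x) * ((X - 1) ^ i * (X + 1) ^ (K - i)) := by
      have : tay (K + 1) (x:ℂ) q = tay (K + 1) (-1) q + (
          ∑ i ∈ Finset.range a, C (bet K i q (-1) x) * ((X - 1) ^ i * (X + 1) ^ (K - i)) + S1) := by
        rw [← t2]; push_cast; ring
      rw [hD, this]
      ring
    have hle : ∀ i ∈ Finset.range a, b ≤ K - i := by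
      intro i hi
      have := Finset.mem_range.1 hi
      omega
    rw [h1]
    refine dvd_add (dvd_add (dvd_sub (dvd_add (dvd_neg.2 ?_) ?_) ?_) ?_) ?_
    · exact JJ_sub (by norm_num) a b q2 (X + 1)
    · have := tay_dvd (K + 1) b (by omega) (-1) q
      rwa [← hX2] at this
    · unfold JJ
      refine Finset.dvd_sum fun i _ => ?_
      rw [← hXe]
      exact Dvd.dvd.mul_left (Dvd.dvd.mul_left dvd_rfl _) _
    · refine Finset.dvd_sum fun i hi => ?_
      exact Dvd.dvd.mul_left (Dvd.dvd.mul_left (pow_dvd_pow _ (hle i hi)) _) _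
    · refine Finset.dvd_sum fun i hi => ?_
      exact Dvd.dvd.mul_left (Dvd.dvd.mul_left (pow_dvd_pow _ (hle i hi)) _) _
  have hcop : IsCoprime ((X - 1 : ℂ[X]) ^ a) ((X + 1) ^ b) := by
    refine IsCoprime.pow ?_
    refine ⟨-C (1 / 2), C (1 / 2), ?_⟩
    have h2 : (C (1 / 2) : ℂ[X]) * 2 = 1 := by
      rw [← map_ofNat C 2, ← C_mul]
      norm_num
    linear_combination h2
  have hdvd := hcop.mul_dvd d1 d2
  have hqd : ∀ i ∈ Finset.range (K + 1), ∀ c : ℂ,
      (C c * ((X - 1 : ℂ[X]) ^ i * (X + 1) ^ (K - i))).natDegree ≤ K := by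
    intro i hi c
    have := Finset.mem_range.1 hi
    refine (natDegree_C_mul_le _ _).trans ((natDegree_qq i (K - i)).trans ?_)
    omega
  have hdeg : D.natDegree ≤ K := by
    rw [hD]
    refine (natDegree_add_le _ _).trans (max_le ?_ ?_)
    · refine (natDegree_sub_le _ _).trans (max_le ?_ ?_)
      · refine (natDegree_sub_le _ _).trans (max_le ?_ ?_)
        · unfold tay
          refine natDegree_sum_le_of_forall_le _ _ fun m hm => ?_
          have hm' := Finset.mem_range.1 hm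
          refine (natDegree_C_mul_le _ _).trans (natDegree_pow_le.trans ?_)
          rw [natDegree_X_sub_C]
          omega
        · refine (natDegree_add_le _ _).trans (max_le ?_ ?_)
          · exact natDegree_JJ hab q1 natDegree_X_sub_one.le
          · exact natDegree_JJ (by omega) q2 natDegree_X_add_one.le
      · rw [hS1]
        refine natDegree_sum_le_of_forall_le _ _ fun i hi => ?_
        exact hqd i (Finset.mem_range.2 (Finset.mem_Ico.1 hi).2) _
    · rw [hS2]
      refine natDegree_sum_le_of_forall_le _ _ fun i hi => ?_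
      exact hqd i (Finset.mem_range.2 (by have := Finset.mem_range.1 hi; omega)) _
  have hD0 : D = 0 := by
    refine eq_zero_of_dvd_of_natDegree_lt hdvd ?_
    have hm : ((X - 1 : ℂ[X]) ^ a * (X + 1) ^ b).natDegree = K + 1 := by
      have m1 : ((X - 1 : ℂ[X]) ^ a).Monic := by rw [hX1]; exact (monic_X_sub_C 1).pow a
      have m2 : ((X + 1 : ℂ[X]) ^ b).Monic := by rw [hX2]; exact (monic_X_sub_C (-1)).pow b
      rw [m1.natDegree_mul m2, natDegree_pow, natDegree_pow, natDegree_X_sub_one,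
        natDegree_X_add_one]
      omega
    omega
  have : tay (K + 1) (x:ℂ) q = D + (JJ 2 b a q1 (X - 1) + JJ (-2) a b q2 (X + 1)) + S1 - S2 := by
    rw [hD]; ring
  rw [this, hD0, zero_add]

end Pool.Agent.HMidB
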