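import Pool.Agent.HMidB.HermC

/-!
# The pointwise bound of the Taylor part

`‖PP (K+1) x s G ω‖ ≤ M ‖s‖ PH(‖s‖, ‖G + s (x-1)‖, ‖G + s (x+1)‖)`, where `M` bounds `H_{K+1} ω` on
`[-1,1]`.
-/

set_option autoImplicit false

namespace Pool.Agent.HMidB

open Polynomial MeasureTheory intervalIntegral Set ComplexConjugate

/-- The boundary coefficients `∑_{i ≤ j} C(n,i) C(b+j-i-1,j-i) / C(n,k)`. -/
noncomputable def al (n k b j : ℕ) : ℝ :=
  ∑ i ∈ Finset.range (j + 1), (n.choose i : ℝ) * ((b + (j - i) - 1).choose (j - i) : ℝ) /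
    (n.choose k : ℝ)

/-- One boundary part. -/
noncomputable def bdp (n k b a : ℕ) (σ g1 g2 : ℝ) : ℝ :=
  ∑ j ∈ Finset.range a, al n k b j * (2 ^ (a - j) * σ ^ (a - 1 - j) * (g1 ^ j * g2 ^ b))

/-- The majorant, homogeneous of degree `K` in `(σ, gp, gm)`. -/
noncomputable def PH (n K a b : ℕ) (x σ gp gm : ℝ) : ℝ :=
  2 * (∑ i ∈ Finset.range a, lo (K + 1) i x * (gp ^ i * gm ^ (K - i)) +
    ∑ i ∈ Finset.Ico a (K + 1), hi (K + 1) i x * (gp ^ i * gm ^ (K - i))) +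
    (bdp n (K + 1) b a σ gp gm + bdp n (K + 1) a b σ gm gp)

theorem al_nonneg (n k b j : ℕ) : 0 ≤ al n k b j := by
  unfold al
  positivity

theorem bdp_nonneg (n k b a : ℕ) {σ g1 g2 : ℝ} (hσ : 0 ≤ σ) (h1 : 0 ≤ g1) (h2 : 0 ≤ g2) :
    0 ≤ bdp n k b a σ g1 g2 := by
  unfold bdp
  have := al_nonneg n k b
  exact Finset.sum_nonneg fun j _ => mul_nonneg (this j) (by positivity)

theorem PH_nonneg (n K a b : ℕ) {x σ gp gm : ℝ} (h1 : -1 ≤ x) (h2 : x ≤ 1) (hσ : 0 ≤ σ)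
    (hp : 0 ≤ gp) (hm : 0 ≤ gm) : 0 ≤ PH n K a b x σ gp gm := by
  unfold PH
  have e1 := bdp_nonneg n (K + 1) b a hσ hp hm
  have e2 := bdp_nonneg n (K + 1) a b hσ hm hp
  have e3 : 0 ≤ ∑ i ∈ Finset.range a, lo (K + 1) i x * (gp ^ i * gm ^ (K - i)) :=
    Finset.sum_nonneg fun i _ => mul_nonneg (lo_nonneg _ _ h1 h2) (by positivity)
  have e4 : 0 ≤ ∑ i ∈ Finset.Ico a (K + 1), hi (K + 1) i x * (gp ^ i * gm ^ (K - i)) :=
    Finset.sum_nonneg fun i _ => mul_nonneg (hi_nonneg _ _ h1 h2) (by positivity)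
  linarith

theorem sum_tri {R : Type*} [AddCommMonoid R] (a : ℕ) (f : ℕ → ℕ → R) :
    ∑ i ∈ Finset.range a, ∑ m ∈ Finset.range (a - i), f i m =
      ∑ j ∈ Finset.range a, ∑ i ∈ Finset.range (j + 1), f i (j - i) := by
  have h1 : ∀ i ∈ Finset.range a, ∑ m ∈ Finset.range (a - i), f i m =
      ∑ j ∈ Finset.Ico i a, f i (j - i) := by
    intro i _
    rw [Finset.sum_Ico_eq_sum_range]
    refine Finset.sum_congr rfl fun m _ => ?_
    rw [Nat.add_sub_cancel_left]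
  rw [Finset.sum_congr rfl h1]
  refine Finset.sum_comm' fun i j => ?_
  simp only [Finset.mem_range, Finset.mem_Ico]
  omega

theorem norm_PP_JJ {n K a b : ℕ} (hab : a + b = K + 1) {e : ℂ} (he : ‖e‖ = 2) {h : ℕ → ℂ} {M : ℝ}
    (hk : K + 1 ≤ n)
    (hh : ∀ i < a, (n.choose (K + 1) : ℝ) * ‖h i‖ ≤ 2 ^ (K + 1 - i) * (n.choose i : ℝ) * M)
    {x s G : ℂ} {y : ℂ[X]} {g1 g2 : ℂ}
    (hy : ∀ j < a, PP (K + 1) x s G (y ^ j * (y + C e) ^ b) = s ^ (a - j) * (g1 ^ j * g2 ^ b)) :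
    ‖PP (K + 1) x s G (JJ e b a h y)‖ ≤ M * (‖s‖ * bdp n (K + 1) b a ‖s‖ ‖g1‖ ‖g2‖) := by
  have hC : (0:ℝ) < (n.choose (K + 1) : ℝ) := by exact_mod_cast Nat.choose_pos hk
  have h1 : PP (K + 1) x s G (JJ e b a h y) = ∑ i ∈ Finset.range a, ∑ m ∈ Finset.range (a - i),
      h i * cc' e b m * (s ^ (a - (i + m)) * (g1 ^ (i + m) * g2 ^ b)) := by
    unfold JJ NN
    rw [PP_sum]
    refine Finset.sum_congr rfl fun i hi => ?_
    rw [Finset.sum_mul, Finset.mul_sum, PP_sum]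
    refine Finset.sum_congr rfl fun m hm => ?_
    have hi' := Finset.mem_range.1 hi
    have hm' := Finset.mem_range.1 hm
    have e1 : C (h i) * y ^ i * (C (cc' e b m) * y ^ m * (y + C e) ^ b) =
        C (h i * cc' e b m) * (y ^ (i + m) * (y + C e) ^ b) := by
      rw [C_mul, pow_add]
      ring
    rw [e1, PP_C_mul, hy _ (by omega)]
  rw [h1]
  refine (norm_sum_le _ _).trans ?_
  have h2 : ∀ i ∈ Finset.range a, ‖∑ m ∈ Finset.range (a - i),
      h i * cc' e b m * (s ^ (a - (i + m)) * (g1 ^ (i + m) * g2 ^ b))‖ ≤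
      ∑ m ∈ Finset.range (a - i), (n.choose i : ℝ) * ((b + m - 1).choose m : ℝ) /
        (n.choose (K + 1) : ℝ) * M * (2 ^ (a - (i + m)) * ‖s‖ ^ (a - (i + m)) *
          (‖g1‖ ^ (i + m) * ‖g2‖ ^ b)) := by
    intro i hi
    refine (norm_sum_le _ _).trans (Finset.sum_le_sum fun m hm => ?_)
    have hi' := Finset.mem_range.1 hi
    have hm' := Finset.mem_range.1 hm
    rw [norm_mul, norm_mul, norm_mul, norm_mul, norm_pow, norm_pow, norm_pow]
    have h3 : ‖cc' e b m‖ = ((b + m - 1).choose m : ℝ) / 2 ^ (b + m) := by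
      unfold cc'
      rw [norm_div, norm_mul, norm_pow, norm_pow, norm_neg, norm_one, one_pow, one_mul, he,
        Complex.norm_natCast]
    have h4 : ‖h i‖ ≤ 2 ^ (K + 1 - i) * (n.choose i : ℝ) * M / (n.choose (K + 1) : ℝ) := by
      rw [le_div_iff₀ hC]
      linarith [hh i hi']
    have e2 : (2:ℝ) ^ (K + 1 - i) = 2 ^ (a - (i + m)) * 2 ^ (b + m) := by
      rw [← pow_add]
      congr 1
      omega
    rw [h3]
    have h5 : 0 ≤ ((b + m - 1).choose m : ℝ) / 2 ^ (b + m) *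
        (‖s‖ ^ (a - (i + m)) * (‖g1‖ ^ (i + m) * ‖g2‖ ^ b)) := by positivity
    calc ‖h i‖ * (((b + m - 1).choose m : ℝ) / 2 ^ (b + m)) *
          (‖s‖ ^ (a - (i + m)) * (‖g1‖ ^ (i + m) * ‖g2‖ ^ b))
        = ‖h i‖ * (((b + m - 1).choose m : ℝ) / 2 ^ (b + m) *
          (‖s‖ ^ (a - (i + m)) * (‖g1‖ ^ (i + m) * ‖g2‖ ^ b))) := by ring
      _ ≤ 2 ^ (K + 1 - i) * (n.choose i : ℝ) * M / (n.choose (K + 1) : ℝ) *
          (((b + m - 1).choose m : ℝ) / 2 ^ (b + m) *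
          (‖s‖ ^ (a - (i + m)) * (‖g1‖ ^ (i + m) * ‖g2‖ ^ b))) :=
          mul_le_mul_of_nonneg_right h4 h5
      _ = _ := by
          rw [e2]
          field_simp
  refine (Finset.sum_le_sum h2).trans (le_of_eq ?_)
  rw [sum_tri a (fun i m => (n.choose i : ℝ) * ((b + m - 1).choose m : ℝ) /
        (n.choose (K + 1) : ℝ) * M * (2 ^ (a - (i + m)) * ‖s‖ ^ (a - (i + m)) *
          (‖g1‖ ^ (i + m) * ‖g2‖ ^ b)))]
  unfold bdp al
  rw [Finset.mul_sum, Finset.mul_sum]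
  refine Finset.sum_congr rfl fun j hj => ?_
  have hj' := Finset.mem_range.1 hj
  rw [Finset.sum_mul, Finset.mul_sum, Finset.mul_sum]
  refine Finset.sum_congr rfl fun i hi => ?_
  have hi' := Finset.mem_range.1 hi
  have e3 : i + (j - i) = j := by omega
  have e4 : ‖s‖ ^ (a - j) = ‖s‖ * ‖s‖ ^ (a - 1 - j) := by
    rw [← pow_succ']
    congr 1
    omega
  rw [e3, e4]
  ring

section main

open Pool.Agent.HHalf

/-- **The pointwise bound.** -/
theorem norm_PP_le {n K a b : ℕ} (hab : a + b = K + 1) (hk : K + 1 ≤ n) {z : Fin n → ℂ}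
    (hz : ∀ i, ‖z i‖ ≤ 1) {x M : ℝ} (hx1 : -1 ≤ x) (hx2 : x ≤ 1)
    (hM : ∀ t : ℝ, -1 ≤ t → t ≤ 1 → ‖(hasseDeriv (K + 1) (om z)).eval (t:ℂ)‖ ≤ M) (s G : ℂ) :
    ‖PP (K + 1) x s G (om z)‖ ≤
      M * (‖s‖ * PH n K a b x ‖s‖ ‖G + s * (x - 1)‖ ‖G + s * (x + 1)‖) := by
  set g1 : ℂ := G + s * (x - 1) with hg1
  set g2 : ℂ := G + s * (x + 1) with hg2
  have hM0 : 0 ≤ M := (norm_nonneg _).trans (hM 1 (by norm_num) le_rfl)
  have hX1 : (X - 1 : ℂ[X]) + C 2 = X + 1 := by rw [map_ofNat C 2]; ring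
  have hX2 : (X + 1 : ℂ[X]) + C (-2) = X - 1 := by rw [C_neg, map_ofNat C 2]; ring
  have hM1 : ‖(hasseDeriv (K + 1) (om z)).eval (1:ℂ)‖ ≤ M := by
    have := hM 1 (by norm_num) le_rfl
    simpa using this
  have hMm : ‖(hasseDeriv (K + 1) (om z)).eval (-1:ℂ)‖ ≤ M := by
    have := hM (-1) le_rfl (by norm_num)
    simpa using this
  rw [← PP_tay, herm hab (om z) x, sub_eq_add_neg, PP_add, PP_add, PP_add]
  have hneg : ∀ q : ℂ[X], PP (K + 1) x s G (-q) = -PP (K + 1) x s G q := by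
    intro q
    have := PP_C_mul (K + 1) x s G (-1) q
    rw [C_neg, C_1, neg_one_mul, neg_one_mul] at this
    exact this
  rw [hneg]
  have hmain : ∀ i ∈ Finset.range (K + 1), ∀ c : ℂ,
      ‖PP (K + 1) x s G (C c * ((X - 1) ^ i * (X + 1) ^ (K - i)))‖ =
        ‖s‖ * (‖c‖ * (‖g1‖ ^ i * ‖g2‖ ^ (K - i))) := by
    intro i hi c
    have hi' := Finset.mem_range.1 hi
    rw [PP_C_mul, PP_qq (by omega : i + (K - i) < K + 1)]
    have e : K + 1 - (i + (K - i)) = 1 := by omega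
    rw [e, pow_one, norm_mul, norm_mul, norm_mul, norm_pow, norm_pow]
    ring
  -- the two boundary parts
  have b1 := norm_PP_JJ (n := n) (K := K) (a := a) (b := b) hab (e := 2) (by norm_num)
    (h := fun i => (hasseDeriv i (om z)).eval 1) (M := M) hk
    (fun i hi => (om_end hz (by omega : i ≤ K + 1) hk norm_one).trans
      (mul_le_mul_of_nonneg_left hM1 (by positivity)))
    (x := x) (s := s) (G := G) (y := X - 1) (g1 := g1) (g2 := g2)
    (fun j hj => by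
      rw [hX1, PP_qq (by omega : j + b < K + 1)]
      congr 2
      omega)
  have b2 := norm_PP_JJ (n := n) (K := K) (a := b) (b := a) (by omega) (e := -2) (by norm_num)
    (h := fun i => (hasseDeriv i (om z)).eval (-1)) (M := M) hk
    (fun i hi => (om_end hz (by omega : i ≤ K + 1) hk (by simp)).trans
      (mul_le_mul_of_nonneg_left hMm (by positivity)))
    (x := x) (s := s) (G := G) (y := X + 1) (g1 := g2) (g2 := g1)
    (fun j hj => by
      rw [hX2, mul_comm, PP_qq (by omega : a + j < K + 1), mul_comm (g2 ^ j)]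
      congr 2
      omega)
  -- the two integral parts
  have c1 : ‖PP (K + 1) x s G (∑ i ∈ Finset.Ico a (K + 1),
      C (bet K i (om z) (-1) x) * ((X - 1) ^ i * (X + 1) ^ (K - i)))‖ ≤
      M * (‖s‖ * (2 * ∑ i ∈ Finset.Ico a (K + 1), hi (K + 1) i x *
        (‖g1‖ ^ i * ‖g2‖ ^ (K - i)))) := by
    rw [PP_sum]
    refine (norm_sum_le _ _).trans ?_
    rw [Finset.mul_sum, Finset.mul_sum, Finset.mul_sum]
    refine Finset.sum_le_sum fun i hi' => ?_
    have hik : i < K + 1 := (Finset.mem_Ico.1 hi').2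
    rw [hmain i (Finset.mem_range.2 hik)]
    have h1 := norm_bet_le (K := K) (i := i) (q := om z) (a := -1) (b := x) le_rfl hx1 hx2 hM
    rw [integral_BB_hi (by omega), lo_neg_one] at h1
    have h2 : 1 - lo (K + 1) i x = hi (K + 1) i x := by
      have := lo_add_hi (k := K + 1) (i := i) (by omega) x
      linarith
    rw [h2] at h1
    have h3 : 0 ≤ ‖s‖ * (‖g1‖ ^ i * ‖g2‖ ^ (K - i)) := by positivity
    calc ‖s‖ * (‖bet K i (om z) (-1) x‖ * (‖g1‖ ^ i * ‖g2‖ ^ (K - i)))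
        = ‖bet K i (om z) (-1) x‖ * (‖s‖ * (‖g1‖ ^ i * ‖g2‖ ^ (K - i))) := by ring
      _ ≤ M * (2 * hi (K + 1) i x) * (‖s‖ * (‖g1‖ ^ i * ‖g2‖ ^ (K - i))) :=
          mul_le_mul_of_nonneg_right h1 h3
      _ = _ := by ring
  have c2 : ‖PP (K + 1) x s G (∑ i ∈ Finset.range a,
      C (bet K i (om z) x 1) * ((X - 1) ^ i * (X + 1) ^ (K - i)))‖ ≤
      M * (‖s‖ * (2 * ∑ i ∈ Finset.range a, lo (K + 1) i x *
        (‖g1‖ ^ i * ‖g2‖ ^ (K - i)))) := by
    rw [PP_sum]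
    refine (norm_sum_le _ _).trans ?_
    rw [Finset.mul_sum, Finset.mul_sum, Finset.mul_sum]
    refine Finset.sum_le_sum fun i hi' => ?_
    have hik : i < K + 1 := by
      have := Finset.mem_range.1 hi'
      omega
    rw [hmain i (Finset.mem_range.2 hik)]
    have h1 := norm_bet_le (K := K) (i := i) (q := om z) (a := x) (b := 1) hx1 hx2 le_rfl hM
    rw [integral_BB_hi (by omega), lo_one (by omega), sub_zero] at h1
    have h3 : 0 ≤ ‖s‖ * (‖g1‖ ^ i * ‖g2‖ ^ (K - i)) := by positivity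
    calc ‖s‖ * (‖bet K i (om z) x 1‖ * (‖g1‖ ^ i * ‖g2‖ ^ (K - i)))
        = ‖bet K i (om z) x 1‖ * (‖s‖ * (‖g1‖ ^ i * ‖g2‖ ^ (K - i))) := by ring
      _ ≤ M * (2 * lo (K + 1) i x) * (‖s‖ * (‖g1‖ ^ i * ‖g2‖ ^ (K - i))) :=
          mul_le_mul_of_nonneg_right h1 h3
      _ = _ := by ring
  refine (norm_add_le _ _).trans ?_
  rw [norm_neg]
  refine (add_le_add (norm_add_le _ _) le_rfl).trans ?_
  refine (add_le_add (add_le_add (norm_add_le _ _) le_rfl) le_rfl).trans ?_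
  refine (add_le_add (add_le_add (add_le_add b1 b2) c1) c2).trans (le_of_eq ?_)
  unfold PH
  ring

end main

end Pool.Agent.HMidB
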