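import Pool.Agent.HMidB.Rep
import Pool.Agent.HHalf.MHom

/-!
# A lower bound of `p` (helper56's (P1))

`n+1` points `z_0, ..., z_n` of the closed disc, weights uniform on the simplex, `‖v‖ < 1`,
`A = 1 - v Z`, `Λ = 1 - v m`, `m` the mean of the points. Then
`(n+1) (Λ E[1/A] - 1) = E[R/A²]`, `R = ∑ w_i (v z_i - v Z)²`, `|R| ≤ 1 - |v Z|²`,
hence `|Λ E[1/A] - 1| ≤ p/(n+1)`, `p = Re E[(1 + vZ)/(1 - vZ)]`.
-/

set_option autoImplicit false

namespace Pool.Agent.HMidB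

open MeasureTheory Set Filter Topology ComplexConjugate
open Pool.Agent.HHalf

section gen

variable {n : ℕ} {z : Fin (n + 1) → ℂ} {g g' : ℂ → ℂ} {K L : ℝ}

theorem aesm_gen (hgm : Measurable g) :
    AEStronglyMeasurable (fun X : Fin (n + 1) → ℝ => g (DD z X)) (mu (n + 1)) :=
  (hgm.comp (measurable_DD z)).aestronglyMeasurable

theorem int_gen (hz : ∀ i, ‖z i‖ ≤ 1) (hgm : Measurable g) (hK : ∀ w, ‖w‖ ≤ 1 → ‖g w‖ ≤ K) :
    Integrable (fun X : Fin (n + 1) → ℝ => g (DD z X)) (mu (n + 1)) := by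
  refine Integrable.of_bound (C := K) (aesm_gen hgm) ?_
  filter_upwards [mu_pos (n + 1)] with X hX
  exact hK _ (norm_DD_le hz hX)

theorem int_xgen (hz : ∀ i, ‖z i‖ ≤ 1) (hgm : Measurable g) (_hK0 : 0 ≤ K)
    (hK : ∀ w, ‖w‖ ≤ 1 → ‖g w‖ ≤ K) (j : Fin (n + 1)) :
    Integrable (fun X : Fin (n + 1) → ℝ => ((X j : ℝ) : ℂ) * g (DD z X)) (mu (n + 1)) := by
  refine integrable_of_bd (A := K) ?_ ?_
  · exact ((Complex.measurable_ofReal.comp (measurable_pi_apply j)).mul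
      (hgm.comp (measurable_DD z))).aestronglyMeasurable
  · intro X hX
    have h1 : ‖((X j : ℝ) : ℂ)‖ = X j := by
      rw [Complex.norm_real, Real.norm_eq_abs, abs_of_pos (hX j)]
    rw [norm_mul, h1]
    have h2 := hK _ (norm_DD_le hz hX)
    have h3 := coord_le_TT hX j
    have h4 := (hX j).le
    calc X j * ‖g (DD z X)‖ ≤ TT X * K := mul_le_mul h3 h2 (norm_nonneg _) (h4.trans h3)
      _ ≤ K * (1 + TT X) := by nlinarith [h4.trans h3]

theorem int_rgen (hz : ∀ i, ‖z i‖ ≤ 1) (hgm : Measurable g) (hK0 : 0 ≤ K)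
    (hK : ∀ w, ‖w‖ ≤ 1 → ‖g w‖ ≤ K) (i j : Fin (n + 1)) :
    Integrable (fun X : Fin (n + 1) → ℝ =>
      ((X j / TT X : ℝ) : ℂ) * (z i - DD z X) * g (DD z X)) (mu (n + 1)) := by
  refine Integrable.of_bound (C := 2 * K) ?_ ?_
  · refine Measurable.aestronglyMeasurable ?_
    refine Measurable.mul (Measurable.mul ?_ (measurable_const.sub (measurable_DD z)))
      (hgm.comp (measurable_DD z))
    exact Complex.measurable_ofReal.comp ((measurable_pi_apply j).div (measurable_TT _))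
  · filter_upwards [mu_pos (n + 1)] with X hX
    have hT : 0 < TT X := TT_pos hX
    have hD := norm_DD_le hz hX
    have h1 : ‖((X j / TT X : ℝ) : ℂ)‖ ≤ 1 := by
      rw [Complex.norm_real, Real.norm_eq_abs, abs_of_nonneg (div_nonneg (hX j).le hT.le),
        div_le_one hT]
      exact coord_le_TT hX j
    have h2 : ‖z i - DD z X‖ ≤ 2 := by
      calc ‖z i - DD z X‖ ≤ ‖z i‖ + ‖DD z X‖ := norm_sub_le _ _
        _ ≤ 2 := by linarith [hz i]
    rw [norm_mul, norm_mul]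
    calc ‖((X j / TT X : ℝ) : ℂ)‖ * ‖z i - DD z X‖ * ‖g (DD z X)‖ ≤ 1 * 2 * K := by
          gcongr
          exact hK _ hD
      _ = 2 * K := by ring

/-- Integration by parts for a function which is differentiable on the closed disc only. -/
theorem ibpx_gen (hz : ∀ i, ‖z i‖ ≤ 1) (hgm : Measurable g) (hgm' : Measurable g') (hK0 : 0 ≤ K)
    (hL0 : 0 ≤ L) (hK : ∀ w, ‖w‖ ≤ 1 → ‖g w‖ ≤ K) (hL : ∀ w, ‖w‖ ≤ 1 → ‖g' w‖ ≤ L)
    (hg : ∀ w, ‖w‖ ≤ 1 → HasDerivAt g (g' w) w) (i : Fin (n + 1)) :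
    ∫ X, ((X i : ℝ) : ℂ) * g (DD z X) ∂mu (n + 1) = ∫ X, g (DD z X) ∂mu (n + 1) +
      ∫ X, ((X i / TT X : ℝ) : ℂ) * (z i - DD z X) * g' (DD z X) ∂mu (n + 1) := by
  have i1 := int_gen hz hgm hK (n := n)
  have i2 := int_rgen hz hgm' hL0 hL i i (n := n)
  have i3 := int_xgen hz hgm hK0 hK i (n := n)
  have hmain := ibp i (f := fun X => ((X i : ℝ) : ℂ) * g (DD z X))
    (f' := fun X => g (DD z X) +
      ((X i / TT X : ℝ) : ℂ) * (z i - DD z X) * g' (DD z X))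
    (f0 := fun _ => 0) (A := K + 2 * L) (by positivity) i3.aestronglyMeasurable
    (i1.add i2).aestronglyMeasurable ?_ ?_ ?_ ?_
  · rw [hmain, integral_zero, zero_add, integral_add i1 i2]
  · intro X hX
    have hD := norm_DD_le hz hX
    have h1 : ‖((X i : ℝ) : ℂ)‖ = X i := by
      rw [Complex.norm_real, Real.norm_eq_abs, abs_of_pos (hX i)]
    rw [norm_mul, h1]
    have h2 := hK _ hD
    have h3 := coord_le_TT hX i
    have h4 := (hX i).le
    calc X i * ‖g (DD z X)‖ ≤ TT X * K := mul_le_mul h3 h2 (norm_nonneg _) (h4.trans h3)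
      _ ≤ (K + 2 * L) * (1 + TT X) := by nlinarith [h4.trans h3]
  · intro X hX
    have hD := norm_DD_le hz hX
    have hT : 0 < TT X := TT_pos hX
    have h1 : ‖((X i / TT X : ℝ) : ℂ)‖ ≤ 1 := by
      rw [Complex.norm_real, Real.norm_eq_abs, abs_of_nonneg (div_nonneg (hX i).le hT.le),
        div_le_one hT]
      exact coord_le_TT hX i
    have h2 : ‖z i - DD z X‖ ≤ 2 := by
      calc ‖z i - DD z X‖ ≤ ‖z i‖ + ‖DD z X‖ := norm_sub_le _ _
        _ ≤ 2 := by linarith [hz i]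
    have h3 := hL _ hD
    have h4 := hK _ hD
    calc ‖g (DD z X) + ((X i / TT X : ℝ) : ℂ) * (z i - DD z X) * g' (DD z X)‖
        ≤ ‖g (DD z X)‖ + ‖((X i / TT X : ℝ) : ℂ) * (z i - DD z X) * g' (DD z X)‖ :=
          norm_add_le _ _
      _ = ‖g (DD z X)‖ + ‖((X i / TT X : ℝ) : ℂ)‖ * ‖z i - DD z X‖ * ‖g' (DD z X)‖ := by
          rw [norm_mul, norm_mul]
      _ ≤ K + 1 * 2 * L := by gcongr
      _ ≤ (K + 2 * L) * (1 + TT X) := by nlinarith
  · intro y hy x hx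
    have hpos := ins_pos i hx hy
    have h1 : HasDerivAt (fun x : ℝ => ((x : ℝ) : ℂ)) 1 x := by
      simpa using (hasDerivAt_id x).ofReal_comp
    have hgD : HasDerivAt (fun x : ℝ => g (DD z (ins i x y)))
        (g' (DD z (ins i x y)) * ((z i - DD z (ins i x y)) / ((TT (ins i x y) : ℝ) : ℂ))) x :=
      HasDerivAt.comp x (hg (DD z (ins i x y)) (norm_DD_le hz hpos)) (hasDerivAt_DD z i hy hx)
    have h2 := h1.mul hgD
    have e : (fun x : ℝ => (((ins i x y) i : ℝ) : ℂ) * g (DD z (ins i x y))) =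
        (fun x : ℝ => ((x : ℝ) : ℂ)) * fun x : ℝ => g (DD z (ins i x y)) := by
      funext t
      simp only [Pi.mul_apply, ins_same]
    show HasDerivAt (fun x : ℝ => (((ins i x y) i : ℝ) : ℂ) * g (DD z (ins i x y))) _ x
    rw [e]
    refine h2.congr_deriv ?_
    simp only [ins_same]
    push_cast
    ring
  · intro y hy
    rw [tendsto_zero_iff_norm_tendsto_zero]
    have hlim : Tendsto (fun x : ℝ => K * x) (𝓝[>] 0) (𝓝 0) := by
      have : Tendsto (fun x : ℝ => K * x) (𝓝 0) (𝓝 (K * 0)) := by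
        exact (continuous_const.mul continuous_id).tendsto 0
      rw [mul_zero] at this
      exact this.mono_left nhdsWithin_le_nhds
    refine squeeze_zero' (Eventually.of_forall fun _ => norm_nonneg _) ?_ hlim
    filter_upwards [self_mem_nhdsWithin] with x hx
    have hx' : (0 : ℝ) < x := hx
    have hD := norm_DD_le hz (ins_pos i hx' hy)
    rw [norm_mul, ins_same, Complex.norm_real, Real.norm_eq_abs, abs_of_pos hx', mul_comm]
    exact mul_le_mul_of_nonneg_right (hK _ hD) hx'.le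

end gen

theorem norm_one_sub_ge {v w : ℂ} (hw : ‖w‖ ≤ 1) : 1 - ‖v‖ ≤ ‖1 - v * w‖ := by
  have h1 := norm_sub_norm_le (1:ℂ) (v * w)
  rw [norm_one, norm_mul] at h1
  have h2 : ‖v‖ * ‖w‖ ≤ ‖v‖ * 1 := mul_le_mul_of_nonneg_left hw (norm_nonneg _)
  linarith

theorem one_sub_ne {v w : ℂ} (hv : ‖v‖ < 1) (hw : ‖w‖ ≤ 1) : 1 - v * w ≠ 0 := by
  intro h
  have := norm_one_sub_ge (v := v) hw
  rw [h, norm_zero] at this
  linarith

/-- `Re (2/(1 - u) - 1) = (1 - |u|²)/|1 - u|²`. -/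
theorem re_kernel (u : ℂ) (hu : 1 - u ≠ 0) :
    (2 / (1 - u) - 1).re = (1 - ‖u‖ ^ 2) / ‖1 - u‖ ^ 2 := by
  have h1 : (0:ℝ) < ‖1 - u‖ ^ 2 := by positivity
  have h2 : (2 / (1 - u) - 1) = (1 + u) / (1 - u) := by
    field_simp
    ring
  rw [h2, Complex.div_re, ← Complex.normSq_eq_norm_sq, ← Complex.normSq_eq_norm_sq, ← add_div]
  congr 1
  simp [Complex.normSq_apply]
  ring

/-- `|∑ w_i (v z_i - v D)²| ≤ 1 - |v D|²`. -/
theorem norm_RR_le {n : ℕ} {z : Fin (n + 1) → ℂ} (hz : ∀ i, ‖z i‖ ≤ 1) {v : ℂ} (hv : ‖v‖ ≤ 1)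
    {X : Fin (n + 1) → ℝ} (hX : ∀ i, 0 < X i) :
    ‖∑ i, ((X i / TT X : ℝ) : ℂ) * (v * z i - v * DD z X) ^ 2‖ ≤ 1 - ‖v * DD z X‖ ^ 2 := by
  have hT : 0 < TT X := TT_pos hX
  set D := DD z X with hD
  have hw0 : ∀ i, 0 ≤ X i / TT X := fun i => div_nonneg (hX i).le hT.le
  have hws : ∑ i, X i / TT X = 1 := by
    rw [← Finset.sum_div]
    exact div_self hT.ne'
  have hcen := sum_mul_sub z hX
  -- the variance identity
  have hvar : ∑ i, X i / TT X * ‖z i - D‖ ^ 2 = ∑ i, X i / TT X * ‖z i‖ ^ 2 - ‖D‖ ^ 2 := by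
    have h1 : ∑ i, X i / TT X * ((z i - D) * conj D).re = 0 := by
      have h2 : (∑ i, ((X i / TT X : ℝ) : ℂ) * (z i - D)) * conj D = 0 := by
        rw [hcen, zero_mul]
      rw [Finset.sum_mul] at h2
      have h3 := congrArg Complex.re h2
      rw [Complex.re_sum, Complex.zero_re] at h3
      rw [← h3]
      refine Finset.sum_congr rfl fun i _ => ?_
      rw [mul_assoc, Complex.re_ofReal_mul]
    have h4 : ∀ i, ‖z i‖ ^ 2 = ‖z i - D‖ ^ 2 + 2 * ((z i - D) * conj D).re + ‖D‖ ^ 2 := by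
      intro i
      rw [← Complex.normSq_eq_norm_sq, ← Complex.normSq_eq_norm_sq, ← Complex.normSq_eq_norm_sq]
      simp [Complex.normSq_apply]
      ring
    have h5 : ∑ i, X i / TT X * ‖z i‖ ^ 2 = ∑ i, X i / TT X * ‖z i - D‖ ^ 2 + ‖D‖ ^ 2 := by
      calc ∑ i, X i / TT X * ‖z i‖ ^ 2
          = ∑ i, (X i / TT X * ‖z i - D‖ ^ 2 + 2 * (X i / TT X * ((z i - D) * conj D).re) +
            X i / TT X * ‖D‖ ^ 2) := by
            refine Finset.sum_congr rfl fun i _ => ?_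
            rw [h4 i]
            ring
        _ = _ := by
            rw [Finset.sum_add_distrib, Finset.sum_add_distrib, ← Finset.mul_sum, h1,
              ← Finset.sum_mul, hws]
            ring
    linarith
  have hle : ∑ i, X i / TT X * ‖z i‖ ^ 2 ≤ 1 := by
    calc ∑ i, X i / TT X * ‖z i‖ ^ 2 ≤ ∑ i, X i / TT X * 1 := by
          refine Finset.sum_le_sum fun i _ => mul_le_mul_of_nonneg_left ?_ (hw0 i)
          exact pow_le_one₀ (norm_nonneg _) (hz i)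
      _ = 1 := by simp [hws]
  have hDD : ‖D‖ ≤ 1 := norm_DD_le hz hX
  have hv2 : ‖v‖ ^ 2 ≤ 1 := pow_le_one₀ (norm_nonneg _) hv
  calc ‖∑ i, ((X i / TT X : ℝ) : ℂ) * (v * z i - v * D) ^ 2‖
      ≤ ∑ i, ‖((X i / TT X : ℝ) : ℂ) * (v * z i - v * D) ^ 2‖ := norm_sum_le _ _
    _ = ‖v‖ ^ 2 * ∑ i, X i / TT X * ‖z i - D‖ ^ 2 := by
        rw [Finset.mul_sum]
        refine Finset.sum_congr rfl fun i _ => ?_
        rw [← mul_sub, mul_pow, norm_mul, norm_mul, norm_pow, norm_pow, Complex.norm_real,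
          Real.norm_eq_abs, abs_of_nonneg (hw0 i)]
        ring
    _ ≤ ‖v‖ ^ 2 * (1 - ‖D‖ ^ 2) := by
        rw [hvar]
        exact mul_le_mul_of_nonneg_left (by linarith) (by positivity)
    _ ≤ 1 - ‖v * D‖ ^ 2 := by
        rw [norm_mul, mul_pow]
        nlinarith [norm_nonneg D]

theorem kmom_zero {n : ℕ} (z : Fin (n + 1) → ℂ) (v : ℂ) :
    kmom (mu (n + 1)) (WW (n := n)) (DD z) v 0 = ∫ X, (2 / (1 - v * DD z X) - 1) ∂mu (n + 1) := by
  unfold kmom kk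
  simp

/-- **(P1)** -/
theorem p_one {n : ℕ} {z : Fin (n + 1) → ℂ} (hz : ∀ i, ‖z i‖ ≤ 1) {v : ℂ} (hv : ‖v‖ < 1) :
    ‖(∑ i, (1 - v * z i)) * ((1 + kmom (mu (n + 1)) (WW (n := n)) (DD z) v 0) / 2) - (n + 1 : ℕ)‖ ≤
      (kmom (mu (n + 1)) (WW (n := n)) (DD z) v 0).re := by
  set g : ℂ → ℂ := fun w => 1 / (1 - v * w) with hgdef
  set g' : ℂ → ℂ := fun w => v / (1 - v * w) ^ 2 with hgdef'
  have h1v : 0 < 1 - ‖v‖ := by linarith
  have hgm : Measurable g := measurable_const.div (measurable_const.sub (measurable_const.mul measurable_id))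
  have hgm' : Measurable g' :=
    measurable_const.div ((measurable_const.sub (measurable_const.mul measurable_id)).pow_const 2)
  have hK : ∀ w : ℂ, ‖w‖ ≤ 1 → ‖g w‖ ≤ 1 / (1 - ‖v‖) := by
    intro w hw
    simp only [hgdef]
    rw [norm_div, norm_one]
    exact one_div_le_one_div_of_le h1v (norm_one_sub_ge hw)
  have hL : ∀ w : ℂ, ‖w‖ ≤ 1 → ‖g' w‖ ≤ 1 / (1 - ‖v‖) ^ 2 := by
    intro w hw
    simp only [hgdef']
    rw [norm_div, norm_pow]
    exact div_le_div₀ (by norm_num) hv.le (by positivity)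
      (pow_le_pow_left₀ h1v.le (norm_one_sub_ge hw) 2)
  have hgd : ∀ w : ℂ, ‖w‖ ≤ 1 → HasDerivAt g (g' w) w := by
    intro w hw
    have hne := one_sub_ne hv hw
    have h1 : HasDerivAt (fun w : ℂ => 1 - v * w) (-v) w := by
      simpa using ((hasDerivAt_id w).const_mul v).const_sub 1
    have h2 := (hasDerivAt_const w (1:ℂ)).fun_div h1 hne
    refine h2.congr_deriv ?_
    simp only [hgdef']
    ring
  have hK0 : 0 ≤ 1 / (1 - ‖v‖) := by positivity
  have hL0 : 0 ≤ 1 / (1 - ‖v‖) ^ 2 := by positivity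
  have ibp := fun i => ibpx_gen (n := n) hz hgm hgm' hK0 hL0 hK hL hgd i
  -- multiply by `A_i` and sum
  have hsum : ∑ i, (1 - v * z i) * ∫ X, ((X i : ℝ) : ℂ) * g (DD z X) ∂mu (n + 1) =
      (∑ i, (1 - v * z i)) * ∫ X, g (DD z X) ∂mu (n + 1) +
      ∑ i, (1 - v * z i) *
        ∫ X, ((X i / TT X : ℝ) : ℂ) * (z i - DD z X) * g' (DD z X) ∂mu (n + 1) := by
    rw [Finset.sum_mul, ← Finset.sum_add_distrib]
    refine Finset.sum_congr rfl fun i _ => ?_
    rw [ibp i]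
    ring
  -- the left side is `n + 1`
  have hleft : ∑ i, (1 - v * z i) * ∫ X, ((X i : ℝ) : ℂ) * g (DD z X) ∂mu (n + 1) =
      ((n + 1 : ℕ) : ℂ) := by
    have e1 : ∑ i, (1 - v * z i) * ∫ X, ((X i : ℝ) : ℂ) * g (DD z X) ∂mu (n + 1) =
        ∫ X, ∑ i, (1 - v * z i) * (((X i : ℝ) : ℂ) * g (DD z X)) ∂mu (n + 1) := by
      rw [integral_finsetSum _ (fun i _ => (int_xgen hz hgm hK0 hK i).const_mul _)]
      refine Finset.sum_congr rfl fun i _ => ?_
      rw [MeasureTheory.integral_const_mul]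
    have e2 : ∫ X, ∑ i, (1 - v * z i) * (((X i : ℝ) : ℂ) * g (DD z X)) ∂mu (n + 1) =
        ∫ X, ((TT X : ℝ) : ℂ) * (fun _ => (1:ℂ)) (DD z X) ∂mu (n + 1) := by
      refine integral_congr_ae ?_
      filter_upwards [mu_pos (n + 1)] with X hX
      have hne := one_sub_ne hv (norm_DD_le hz hX)
      have h3 := TT_mul_DD z hX
      have h4 : ((TT X : ℝ) : ℂ) = ∑ i, (X i : ℂ) := by
        unfold TT
        push_cast
        rfl
      have h5 : ∑ i, (1 - v * z i) * (((X i : ℝ) : ℂ) * g (DD z X)) =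
          (((TT X : ℝ) : ℂ) * (1 - v * DD z X)) * g (DD z X) := by
        have h6 : ((TT X : ℝ) : ℂ) * (1 - v * DD z X) = ∑ i, (1 - v * z i) * ((X i : ℝ) : ℂ) := by
          have : ((TT X : ℝ) : ℂ) * (1 - v * DD z X) =
              ((TT X : ℝ) : ℂ) - v * (((TT X : ℝ) : ℂ) * DD z X) := by ring
          rw [this, h3, h4, Finset.mul_sum, ← Finset.sum_sub_distrib]
          refine Finset.sum_congr rfl fun i _ => ?_
          ring
        rw [h6, Finset.sum_mul]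
        refine Finset.sum_congr rfl fun i _ => ?_
        ring
      rw [h5]
      simp only [hgdef]
      field_simp
    rw [e1, e2, hom hz (differentiable_const _)]
    simp
  -- the last sum is `- E[R/A²]`
  have hright : ∑ i, (1 - v * z i) *
        ∫ X, ((X i / TT X : ℝ) : ℂ) * (z i - DD z X) * g' (DD z X) ∂mu (n + 1) =
      - ∫ X, (∑ i, ((X i / TT X : ℝ) : ℂ) * (v * z i - v * DD z X) ^ 2) /
        (1 - v * DD z X) ^ 2 ∂mu (n + 1) := by
    have e1 : ∑ i, (1 - v * z i) *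
        ∫ X, ((X i / TT X : ℝ) : ℂ) * (z i - DD z X) * g' (DD z X) ∂mu (n + 1) =
        ∫ X, ∑ i, (1 - v * z i) * (((X i / TT X : ℝ) : ℂ) * (z i - DD z X) * g' (DD z X))
          ∂mu (n + 1) := by
      rw [integral_finsetSum _ (fun i _ => (int_rgen hz hgm' hL0 hL i i).const_mul _)]
      refine Finset.sum_congr rfl fun i _ => ?_
      rw [MeasureTheory.integral_const_mul]
    rw [e1, ← integral_neg]
    refine integral_congr_ae ?_
    filter_upwards [mu_pos (n + 1)] with X hX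
    have hne := one_sub_ne hv (norm_DD_le hz hX)
    have hcen := sum_mul_sub z hX
    have h6 : ∑ i, (1 - v * z i) * (((X i / TT X : ℝ) : ℂ) * (z i - DD z X) * g' (DD z X)) =
        (∑ i, ((X i / TT X : ℝ) : ℂ) * ((1 - v * z i) * (v * (z i - DD z X)))) /
          (1 - v * DD z X) ^ 2 := by
      rw [Finset.sum_div]
      refine Finset.sum_congr rfl fun i _ => ?_
      simp only [hgdef']
      ring
    have h7 : ∑ i, ((X i / TT X : ℝ) : ℂ) * ((1 - v * z i) * (v * (z i - DD z X))) =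
        - ∑ i, ((X i / TT X : ℝ) : ℂ) * (v * z i - v * DD z X) ^ 2 := by
      have h8 : (1 - v * DD z X) * v * ∑ i, ((X i / TT X : ℝ) : ℂ) * (z i - DD z X) = 0 := by
        rw [hcen, mul_zero]
      rw [Finset.mul_sum] at h8
      rw [← Finset.sum_neg_distrib, ← sub_eq_zero, ← Finset.sum_sub_distrib, ← h8]
      refine Finset.sum_congr rfl fun i _ => ?_
      ring
    rw [h6, h7, neg_div]
  -- `E[1/A] = (1 + P)/2`
  have hP : ∫ X, g (DD z X) ∂mu (n + 1) =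
      (1 + kmom (mu (n + 1)) (WW (n := n)) (DD z) v 0) / 2 := by
    have hi : Integrable (fun X : Fin (n + 1) → ℝ => g (DD z X)) (mu (n + 1)) :=
      int_gen hz hgm hK
    rw [kmom_zero]
    have e1 : ∫ X, (2 / (1 - v * DD z X) - 1) ∂mu (n + 1) =
        2 * ∫ X, g (DD z X) ∂mu (n + 1) - 1 := by
      have e2 : (fun X : Fin (n + 1) → ℝ => (2 / (1 - v * DD z X) - 1 : ℂ)) =
          fun X => 2 * g (DD z X) - 1 := by
        funext X
        simp only [hgdef]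
        ring
      rw [e2, integral_sub (hi.const_mul 2) (integrable_const _), MeasureTheory.integral_const_mul]
      simp
    rw [e1]
    ring
  rw [hleft, hright, hP] at hsum
  have hkey : (∑ i, (1 - v * z i)) * ((1 + kmom (mu (n + 1)) (WW (n := n)) (DD z) v 0) / 2) -
      ((n + 1 : ℕ) : ℂ) = ∫ X, (∑ i, ((X i / TT X : ℝ) : ℂ) * (v * z i - v * DD z X) ^ 2) /
        (1 - v * DD z X) ^ 2 ∂mu (n + 1) := by
    linear_combination -hsum
  rw [hkey]
  -- the real part of `P`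
  have hre : (kmom (mu (n + 1)) (WW (n := n)) (DD z) v 0).re =
      ∫ X, (1 - ‖v * DD z X‖ ^ 2) / ‖1 - v * DD z X‖ ^ 2 ∂mu (n + 1) := by
    rw [kmom_zero]
    have hi : Integrable (fun X : Fin (n + 1) → ℝ => (2 / (1 - v * DD z X) - 1 : ℂ)) (mu (n + 1)) := by
      have h0 : Integrable (fun X : Fin (n + 1) → ℝ => g (DD z X)) (mu (n + 1)) :=
        int_gen hz hgm hK
      have h1 : Integrable (fun X : Fin (n + 1) → ℝ => 2 * g (DD z X) - (1:ℂ)) (mu (n + 1)) :=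
        (h0.const_mul 2).sub (integrable_const (1:ℂ))
      have e3 : (fun X : Fin (n + 1) → ℝ => (2 / (1 - v * DD z X) - 1 : ℂ)) =
          fun X => 2 * g (DD z X) - 1 := by
        funext X
        simp only [hgdef]
        ring
      rw [e3]
      exact h1
    have e4 : (∫ X, (2 / (1 - v * DD z X) - 1) ∂mu (n + 1)).re =
        ∫ X, (2 / (1 - v * DD z X) - 1).re ∂mu (n + 1) := (integral_re hi).symm
    rw [e4]
    refine integral_congr_ae ?_
    filter_upwards [mu_pos (n + 1)] with X hX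
    exact re_kernel _ (one_sub_ne hv (norm_DD_le hz hX))
  rw [hre]
  refine norm_integral_le_of_norm_le ?_ ?_
  · refine Integrable.of_bound (C := 1 / (1 - ‖v‖) ^ 2) ?_ ?_
    · refine Measurable.aestronglyMeasurable ?_
      exact (measurable_const.sub ((measurable_const.mul (measurable_DD z)).norm.pow_const 2)).div
        ((measurable_const.sub (measurable_const.mul (measurable_DD z))).norm.pow_const 2)
    · filter_upwards [mu_pos (n + 1)] with X hX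
      have hD := norm_DD_le hz hX
      have h2 : ‖v * DD z X‖ ≤ 1 := by
        rw [norm_mul]
        calc ‖v‖ * ‖DD z X‖ ≤ 1 * 1 := mul_le_mul hv.le hD (norm_nonneg _) (by norm_num)
          _ = 1 := by norm_num
      have h3 : 0 ≤ 1 - ‖v * DD z X‖ ^ 2 := by nlinarith [norm_nonneg (v * DD z X)]
      rw [Real.norm_eq_abs, abs_of_nonneg (div_nonneg h3 (by positivity))]
      exact div_le_div₀ (by norm_num) (by nlinarith [norm_nonneg (v * DD z X)]) (by positivity)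
        (pow_le_pow_left₀ h1v.le (norm_one_sub_ge hD) 2)
  · filter_upwards [mu_pos (n + 1)] with X hX
    rw [norm_div, norm_pow]
    exact div_le_div_of_nonneg_right (norm_RR_le hz hv.le hX) (by positivity)

/-- **Lower bound of `p`**, `Λ` the mean of the `1 - v z_i`. -/
theorem p_lower {n : ℕ} {z : Fin (n + 1) → ℂ} (hz : ∀ i, ‖z i‖ ≤ 1) {v : ℂ} (hv : ‖v‖ < 1)
    {Λ : ℂ} (hΛ : ((n + 1 : ℕ) : ℂ) * Λ = ∑ i, (1 - v * z i)) :
    1 - ‖1 - Λ‖ ^ 2 ≤ (kmom (mu (n + 1)) (WW (n := n)) (DD z) v 0).re *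
      (‖Λ‖ ^ 2 + 2 * ‖Λ‖ / (n + 1 : ℕ)) := by
  set P := kmom (mu (n + 1)) (WW (n := n)) (DD z) v 0 with hP
  have h1 := p_one hz hv
  rw [← hP, ← hΛ] at h1
  have hn : (0:ℝ) < ((n + 1 : ℕ) : ℝ) := by positivity
  have h2 : ‖Λ * ((1 + P) / 2) - 1‖ * ((n + 1 : ℕ) : ℝ) ≤ P.re := by
    have e : ((n + 1 : ℕ) : ℂ) * Λ * ((1 + P) / 2) - ((n + 1 : ℕ) : ℂ) =
        (Λ * ((1 + P) / 2) - 1) * ((n + 1 : ℕ) : ℂ) := by ring
    rw [e, norm_mul, Complex.norm_natCast] at h1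
    exact h1
  have h3 : (conj Λ * (Λ * ((1 + P) / 2) - 1)).re ≥ -(‖Λ‖ * ‖Λ * ((1 + P) / 2) - 1‖) := by
    have := Complex.abs_re_le_norm (conj Λ * (Λ * ((1 + P) / 2) - 1))
    rw [norm_mul, RCLike.norm_conj] at this
    have := neg_abs_le (conj Λ * (Λ * ((1 + P) / 2) - 1)).re
    linarith
  have h4 : (conj Λ * (Λ * ((1 + P) / 2) - 1)).re = ‖Λ‖ ^ 2 * ((1 + P.re) / 2) - Λ.re := by
    rw [← Complex.normSq_eq_norm_sq]
    simp [Complex.normSq_apply]
    ring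
  have h5 : ‖1 - Λ‖ ^ 2 = 1 - 2 * Λ.re + ‖Λ‖ ^ 2 := by
    rw [← Complex.normSq_eq_norm_sq, ← Complex.normSq_eq_norm_sq]
    simp [Complex.normSq_apply]
    ring
  have h6 : ‖Λ‖ * ‖Λ * ((1 + P) / 2) - 1‖ ≤ ‖Λ‖ * (P.re / ((n + 1 : ℕ) : ℝ)) := by
    refine mul_le_mul_of_nonneg_left ?_ (norm_nonneg _)
    rw [le_div_iff₀ hn]
    exact h2
  have h7 : ‖Λ‖ * (P.re / ((n + 1 : ℕ) : ℝ)) = P.re * ‖Λ‖ / ((n + 1 : ℕ) : ℝ) := by ring
  rw [h4] at h3
  rw [h5]
  have h8 : P.re * (‖Λ‖ ^ 2 + 2 * ‖Λ‖ / ((n + 1 : ℕ) : ℝ)) =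
      P.re * ‖Λ‖ ^ 2 + 2 * (P.re * ‖Λ‖ / ((n + 1 : ℕ) : ℝ)) := by ring
  rw [h8]
  linarith

/-- The form for `1 + 1/p`. -/
theorem p_lower' {n : ℕ} {z : Fin (n + 1) → ℂ} (hz : ∀ i, ‖z i‖ ≤ 1) {v : ℂ} (hv : ‖v‖ < 1)
    {Λ : ℂ} (hΛ : ((n + 1 : ℕ) : ℂ) * Λ = ∑ i, (1 - v * z i)) :
    (1 - ‖1 - Λ‖ ^ 2) * (1 + (kmom (mu (n + 1)) (WW (n := n)) (DD z) v 0).re) ≤
      2 * (Λ.re + ‖Λ‖ / (n + 1 : ℕ)) * (kmom (mu (n + 1)) (WW (n := n)) (DD z) v 0).re := by
  have h1 := p_lower hz hv hΛ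
  have h5 : ‖1 - Λ‖ ^ 2 = 1 - 2 * Λ.re + ‖Λ‖ ^ 2 := by
    rw [← Complex.normSq_eq_norm_sq, ← Complex.normSq_eq_norm_sq]
    simp [Complex.normSq_apply]
    ring
  rw [h5] at h1 ⊢
  set p := (kmom (mu (n + 1)) (WW (n := n)) (DD z) v 0).re
  have h8 : p * (‖Λ‖ ^ 2 + 2 * ‖Λ‖ / ((n + 1 : ℕ) : ℝ)) =
      p * ‖Λ‖ ^ 2 + 2 * (p * (‖Λ‖ / ((n + 1 : ℕ) : ℝ))) := by ring
  rw [h8] at h1
  nlinarith

end Pool.Agent.HMidB
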