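import Pool.Agent.HMidB.HermD
import Pool.Agent.HMidB.Low
import Pool.Agent.HStar.Final

/-!
# The numerator of the star inequality, two-point Hermite form

For `|ξ| < 1`, `W = w0`, `G = 1 - ξ Z`, `r = |ξ| W/|G|`, `A_± = |1 - ξ Z_±|/|G|`, `Z_±` the barycentre with
the first node replaced by `±1`:

`|∑_{j ≤ K} e_{K-j} 2 Re K_{j+1}(ξ)| ≤ M E[ (|ξ| W/|G|²) 2 PH(r, A_+, A_-) ]`.
-/

set_option autoImplicit false

namespace Pool.Agent.HMidB

open Polynomial MeasureTheory Set ComplexConjugate Pool.Agent.HHalf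

theorem bdp_homog {n k a b K : ℕ} (hab : a + b = K + 1) (c σ g1 g2 : ℝ) :
    bdp n k b a (c * σ) (c * g1) (c * g2) = c ^ K * bdp n k b a σ g1 g2 := by
  unfold bdp
  rw [Finset.mul_sum]
  refine Finset.sum_congr rfl fun j hj => ?_
  have hj' := Finset.mem_range.1 hj
  have e : c ^ K = c ^ (a - 1 - j) * (c ^ j * c ^ b) := by
    rw [← pow_add, ← pow_add]
    congr 1
    omega
  rw [mul_pow, mul_pow, mul_pow, e]
  ring

theorem PH_homog {n K a b : ℕ} (hab : a + b = K + 1) (x c σ gp gm : ℝ) :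
    PH n K a b x (c * σ) (c * gp) (c * gm) = c ^ K * PH n K a b x σ gp gm := by
  unfold PH
  rw [bdp_homog hab, bdp_homog (by omega : b + a = K + 1)]
  have h : ∀ i ≤ K, (c * gp) ^ i * (c * gm) ^ (K - i) = c ^ K * (gp ^ i * gm ^ (K - i)) := by
    intro i hi
    have e : c ^ K = c ^ i * c ^ (K - i) := by
      rw [← pow_add]
      congr 1
      omega
    rw [mul_pow, mul_pow, e]
    ring
  have h1 : ∑ i ∈ Finset.range a, lo (K + 1) i x * ((c * gp) ^ i * (c * gm) ^ (K - i)) =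
      c ^ K * ∑ i ∈ Finset.range a, lo (K + 1) i x * (gp ^ i * gm ^ (K - i)) := by
    rw [Finset.mul_sum]
    refine Finset.sum_congr rfl fun i hi => ?_
    have := Finset.mem_range.1 hi
    rw [h i (by omega)]
    ring
  have h2 : ∑ i ∈ Finset.Ico a (K + 1), hi (K + 1) i x * ((c * gp) ^ i * (c * gm) ^ (K - i)) =
      c ^ K * ∑ i ∈ Finset.Ico a (K + 1), hi (K + 1) i x * (gp ^ i * gm ^ (K - i)) := by
    rw [Finset.mul_sum]
    refine Finset.sum_congr rfl fun i hi => ?_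
    have := (Finset.mem_Ico.1 hi).2
    rw [h i (by omega)]
    ring
  rw [h1, h2]
  ring

theorem continuous_bdp (n k b a : ℕ) :
    Continuous fun p : ℝ × ℝ × ℝ => bdp n k b a p.1 p.2.1 p.2.2 := by
  unfold bdp
  fun_prop

theorem continuous_PH (n K a b : ℕ) (x : ℝ) :
    Continuous fun p : ℝ × ℝ × ℝ => PH n K a b x p.1 p.2.1 p.2.2 := by
  unfold PH
  have h1 := continuous_bdp n (K + 1) b a
  have h2 : Continuous fun p : ℝ × ℝ × ℝ => bdp n (K + 1) a b p.1 p.2.2 p.2.1 :=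
    (continuous_bdp n (K + 1) a b).comp
      (continuous_fst.prodMk (continuous_snd.snd.prodMk continuous_snd.fst))
  refine Continuous.add ?_ (h1.add h2)
  fun_prop

theorem PH_bounded (n K a b : ℕ) (x R : ℝ) : ∃ B : ℝ, 0 ≤ B ∧ ∀ σ gp gm : ℝ, 0 ≤ σ → σ ≤ R →
    0 ≤ gp → gp ≤ R → 0 ≤ gm → gm ≤ R → |PH n K a b x σ gp gm| ≤ B := by
  have hc : IsCompact (Icc (0:ℝ) R ×ˢ (Icc (0:ℝ) R ×ˢ Icc (0:ℝ) R)) :=
    isCompact_Icc.prod (isCompact_Icc.prod isCompact_Icc)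
  obtain ⟨B, hB⟩ := hc.exists_bound_of_continuousOn (continuous_PH n K a b x).continuousOn
  refine ⟨max B 0, le_max_right _ _, fun σ gp gm h1 h2 h3 h4 h5 h6 => ?_⟩
  have := hB (σ, gp, gm) ⟨⟨h1, h2⟩, ⟨h3, h4⟩, ⟨h5, h6⟩⟩
  exact this.trans (le_max_left _ _)

section num

variable {n : ℕ} {z : Fin n → ℂ}

/-- The density of the numerator. -/
noncomputable def numd (K a b : ℕ) (z : Fin n → ℂ) (x : ℝ) (ξ : ℂ) (X : Fin (n + 1) → ℝ) : ℝ :=
  ‖ξ‖ * HStar.w0 X / ‖1 - ξ * HStar.ZZ z x X‖ ^ 2 *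
    (2 * PH n K a b x (‖ξ‖ * HStar.w0 X / ‖1 - ξ * HStar.ZZ z x X‖)
      (‖1 - ξ * HStar.ZZ z 1 X‖ / ‖1 - ξ * HStar.ZZ z x X‖)
      (‖1 - ξ * HStar.ZZ z (-1) X‖ / ‖1 - ξ * HStar.ZZ z x X‖))

theorem measurable_nrm (z : Fin n → ℂ) (c ξ : ℂ) :
    Measurable fun X : Fin (n + 1) → ℝ => ‖1 - ξ * HStar.ZZ z c X‖ :=
  (measurable_const.sub (measurable_const.mul (HStar.measurable_ZZ z c))).norm

theorem measurable_numd (K a b : ℕ) (z : Fin n → ℂ) (x : ℝ) (ξ : ℂ) :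
    Measurable (numd K a b z x ξ) := by
  unfold numd
  have h0 := measurable_nrm z x ξ
  have h1 := measurable_nrm z 1 ξ
  have h2 := measurable_nrm z (-1) ξ
  have hw : Measurable fun X : Fin (n + 1) → ℝ => ‖ξ‖ * HStar.w0 X :=
    measurable_const.mul (HStar.measurable_w0 n)
  refine (hw.div (h0.pow_const 2)).mul (measurable_const.mul ?_)
  exact (continuous_PH n K a b x).measurable.comp
    ((hw.div h0).prodMk ((h1.div h0).prodMk (h2.div h0)))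

theorem g_bounds (hz : ∀ i, ‖z i‖ ≤ 1) {x : ℝ} (hx1 : -1 ≤ x) (hx2 : x ≤ 1) {ξ : ℂ} (hξ : ‖ξ‖ < 1)
    {X : Fin (n + 1) → ℝ} (hX : ∀ i, 0 < X i) {c : ℂ} (hc : ‖c‖ ≤ 1) :
    1 - ‖ξ‖ ≤ ‖1 - ξ * HStar.ZZ z x X‖ ∧ ‖1 - ξ * HStar.ZZ z c X‖ ≤ 2 := by
  have hx : ‖(x:ℂ)‖ ≤ 1 := by
    rw [Complex.norm_real, Real.norm_eq_abs]
    exact abs_le.2 ⟨hx1, hx2⟩
  have h1 := HStar.norm_ZZ_le hz hx hX
  have h2 := HStar.norm_ZZ_le hz hc hX
  refine ⟨HStar.norm_one_sub_ge le_rfl h1, ?_⟩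
  refine (norm_sub_le _ _).trans ?_
  rw [norm_one, norm_mul]
  have : ‖ξ‖ * ‖HStar.ZZ z c X‖ ≤ 1 * 1 :=
    mul_le_mul hξ.le h2 (norm_nonneg _) zero_le_one
  linarith

theorem integrable_numd (hz : ∀ i, ‖z i‖ ≤ 1) (K a b : ℕ) {x : ℝ} (hx1 : -1 ≤ x) (hx2 : x ≤ 1)
    {ξ : ℂ} (hξ : ‖ξ‖ < 1) : Integrable (numd K a b z x ξ) (mu (n + 1)) := by
  obtain ⟨B, hB0, hB⟩ := PH_bounded n K a b x (2 / (1 - ‖ξ‖))
  have h1 : 0 < 1 - ‖ξ‖ := by linarith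
  refine (integrable_const (2 / (1 - ‖ξ‖) ^ 2 * (2 * B))).mono'
    (measurable_numd K a b z x ξ).aestronglyMeasurable ?_
  filter_upwards [mu_pos (n + 1)] with X hX
  have hg := (g_bounds hz hx1 hx2 hξ hX (c := 1) (by simp))
  have hg' := (g_bounds hz hx1 hx2 hξ hX (c := -1) (by simp))
  have hw0 := HStar.w0_nonneg hX
  have hw1 := HStar.w0_le_one hX
  have hg0 : 0 < ‖1 - ξ * HStar.ZZ z x X‖ := h1.trans_le hg.1
  have hs : ‖ξ‖ * HStar.w0 X ≤ 2 := by nlinarith [norm_nonneg ξ]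
  have hs0 : 0 ≤ ‖ξ‖ * HStar.w0 X := by positivity
  have hPH := hB (‖ξ‖ * HStar.w0 X / ‖1 - ξ * HStar.ZZ z x X‖)
    (‖1 - ξ * HStar.ZZ z 1 X‖ / ‖1 - ξ * HStar.ZZ z x X‖)
    (‖1 - ξ * HStar.ZZ z (-1) X‖ / ‖1 - ξ * HStar.ZZ z x X‖)
    (by positivity) (div_le_div₀ (by norm_num) hs h1 hg.1)
    (by positivity) (div_le_div₀ (by norm_num) hg.2 h1 hg.1)
    (by positivity) (div_le_div₀ (by norm_num) hg'.2 h1 hg.1)
  unfold numd
  rw [norm_mul, norm_mul, Real.norm_eq_abs, Real.norm_eq_abs, Real.norm_eq_abs]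
  have e1 : |‖ξ‖ * HStar.w0 X / ‖1 - ξ * HStar.ZZ z x X‖ ^ 2| ≤ 2 / (1 - ‖ξ‖) ^ 2 := by
    rw [abs_of_nonneg (by positivity)]
    exact div_le_div₀ (by norm_num) hs (by positivity) (pow_le_pow_left₀ h1.le hg.1 2)
  refine mul_le_mul e1 ?_ (by positivity) (by positivity)
  rw [abs_of_pos (by norm_num : (0:ℝ) < 2)]
  exact mul_le_mul_of_nonneg_left hPH (by norm_num)

theorem PP_kern (K : ℕ) (x : ℝ) (ξ : ℂ) (q : ℂ[X]) (X : Fin (n + 1) → ℝ)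
    (hG : 1 - ξ * HStar.ZZ z x X ≠ 0) :
    ∑ j ∈ Finset.range (K + 1), (hasseDeriv (K + 1 - (j + 1)) q).eval (x:ℂ) *
      ((HStar.w0 X : ℂ) ^ (j + 1) * (ξ ^ (j + 1) / (1 - ξ * HStar.ZZ z x X) ^ (j + 1 + 1))) =
    PP (K + 1) x (ξ * HStar.w0 X) (1 - ξ * HStar.ZZ z x X) q /
      (1 - ξ * HStar.ZZ z x X) ^ (K + 2) := by
  set G := 1 - ξ * HStar.ZZ z x X with hGd
  unfold PP
  rw [Finset.sum_div]
  refine Finset.sum_congr rfl fun j hj => ?_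
  have hj' := Finset.mem_range.1 hj
  have e : G ^ (K + 2) = G ^ (j + 1 + 1) * G ^ (K + 1 - (j + 1)) := by
    rw [← pow_add]
    congr 1
    omega
  rw [e, mul_pow]
  have h1 : G ^ (j + 1 + 1) ≠ 0 := pow_ne_zero _ hG
  have h2 : G ^ (K + 1 - (j + 1)) ≠ 0 := pow_ne_zero _ hG
  field_simp

/-- **The numerator of the star inequality.** -/
theorem star_num {K a b : ℕ} (hab : a + b = K + 1) (hk : K + 1 ≤ n) (hz : ∀ i, ‖z i‖ ≤ 1)
    {x M : ℝ} (hx1 : -1 ≤ x) (hx2 : x ≤ 1)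
    (hM : ∀ t : ℝ, -1 ≤ t → t ≤ 1 → ‖(hasseDeriv (K + 1) (om z)).eval (t:ℂ)‖ ≤ M)
    {e : ℕ → ℝ} (he : ∀ i ≤ K + 1, (hasseDeriv i (om z)).eval (x:ℂ) = (e i : ℂ)) {ξ : ℂ}
    (hξ : ‖ξ‖ < 1) :
    |∑ j ∈ Finset.range (K + 1), e (K + 1 - (j + 1)) * (2 * (HStar.KK z x (j + 1) ξ).re)| ≤
      M * ∫ X, numd K a b z x ξ X ∂mu (n + 1) := by
  have hx : ‖(x:ℂ)‖ ≤ 1 := by
    rw [Complex.norm_real, Real.norm_eq_abs]
    exact abs_le.2 ⟨hx1, hx2⟩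
  have h1ξ : 0 < 1 - ‖ξ‖ := by linarith
  have hint : ∀ j ∈ Finset.range (K + 1), Integrable (fun X : Fin (n + 1) → ℝ =>
      (hasseDeriv (K + 1 - (j + 1)) (om z)).eval (x:ℂ) *
      ((HStar.w0 X : ℂ) ^ (j + 1) * (ξ ^ (j + 1) / (1 - ξ * HStar.ZZ z x X) ^ (j + 1 + 1))))
      (mu (n + 1)) := by
    intro j _
    refine Integrable.const_mul ?_ _
    refine HStar.integrable_bdd (C := 1 / (1 - ‖ξ‖) ^ (j + 1 + 1)) ?_ ?_
    · refine Measurable.aestronglyMeasurable ?_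
      exact ((HStar.measurable_w0c n).pow_const _).mul (measurable_const.div
        ((measurable_const.sub (measurable_const.mul (HStar.measurable_ZZ z x))).pow_const _))
    · intro X hX
      rw [norm_mul, norm_pow]
      have h2 := HStar.norm_kern_le (j + 1) hξ (le_refl ‖ξ‖) (HStar.norm_ZZ_le hz hx hX)
      have h3 : ‖(HStar.w0 X : ℂ)‖ ^ (j + 1) ≤ 1 :=
        pow_le_one₀ (norm_nonneg _) (HStar.norm_w0_le hX)
      calc ‖(HStar.w0 X : ℂ)‖ ^ (j + 1) * ‖ξ ^ (j + 1) / (1 - ξ * HStar.ZZ z x X) ^ (j + 1 + 1)‖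
          ≤ 1 * (1 / (1 - ‖ξ‖) ^ (j + 1 + 1)) := mul_le_mul h3 h2 (norm_nonneg _) zero_le_one
        _ = _ := one_mul _
  have h1 : ((∑ j ∈ Finset.range (K + 1), e (K + 1 - (j + 1)) *
      (2 * (HStar.KK z x (j + 1) ξ).re) : ℝ)) =
      (2 * ∫ X, PP (K + 1) x (ξ * HStar.w0 X) (1 - ξ * HStar.ZZ z x X) (om z) /
        (1 - ξ * HStar.ZZ z x X) ^ (K + 2) ∂mu (n + 1)).re := by
    have h2 : ∫ X, PP (K + 1) x (ξ * HStar.w0 X) (1 - ξ * HStar.ZZ z x X) (om z) /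
        (1 - ξ * HStar.ZZ z x X) ^ (K + 2) ∂mu (n + 1) =
        ∑ j ∈ Finset.range (K + 1), (e (K + 1 - (j + 1)) : ℂ) * HStar.KK z x (j + 1) ξ := by
      have h3 : ∫ X, PP (K + 1) x (ξ * HStar.w0 X) (1 - ξ * HStar.ZZ z x X) (om z) /
          (1 - ξ * HStar.ZZ z x X) ^ (K + 2) ∂mu (n + 1) = ∫ X, ∑ j ∈ Finset.range (K + 1),
          (hasseDeriv (K + 1 - (j + 1)) (om z)).eval (x:ℂ) * ((HStar.w0 X : ℂ) ^ (j + 1) *
            (ξ ^ (j + 1) / (1 - ξ * HStar.ZZ z x X) ^ (j + 1 + 1))) ∂mu (n + 1) := by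
        refine integral_congr_ae ?_
        filter_upwards [mu_pos (n + 1)] with X hX
        rw [PP_kern]
        intro h0
        have := (g_bounds hz hx1 hx2 hξ hX (c := 1) (by simp)).1
        rw [h0, norm_zero] at this
        linarith
      rw [h3, integral_finsetSum _ hint]
      refine Finset.sum_congr rfl fun j hj => ?_
      have hj' := Finset.mem_range.1 hj
      rw [MeasureTheory.integral_const_mul, he _ (by omega)]
      rfl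
    rw [h2, Finset.mul_sum, Complex.re_sum]
    refine Finset.sum_congr rfl fun j _ => ?_
    have : (2:ℂ) * ((e (K + 1 - (j + 1)) : ℂ) * HStar.KK z x (j + 1) ξ) =
        ((e (K + 1 - (j + 1)) * 2 : ℝ) : ℂ) * HStar.KK z x (j + 1) ξ := by
      push_cast
      ring
    rw [this, Complex.re_ofReal_mul]
    ring
  rw [h1]
  refine (Complex.abs_re_le_norm _).trans ?_
  rw [norm_mul]
  have h2 : ‖(2:ℂ)‖ = 2 := by norm_num
  rw [h2]
  have h3 : ‖∫ X, PP (K + 1) x (ξ * HStar.w0 X) (1 - ξ * HStar.ZZ z x X) (om z) /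
      (1 - ξ * HStar.ZZ z x X) ^ (K + 2) ∂mu (n + 1)‖ ≤
      ∫ X, M / 2 * numd K a b z x ξ X ∂mu (n + 1) := by
    refine norm_integral_le_of_norm_le ((integrable_numd hz K a b hx1 hx2 hξ).const_mul _) ?_
    filter_upwards [mu_pos (n + 1)] with X hX
    have hg := (g_bounds hz hx1 hx2 hξ hX (c := 1) (by simp)).1
    have hg0 : 0 < ‖1 - ξ * HStar.ZZ z x X‖ := h1ξ.trans_le hg
    have hw0 := HStar.w0_nonneg hX
    have h4 := norm_PP_le hab hk hz hx1 hx2 hM (ξ * HStar.w0 X) (1 - ξ * HStar.ZZ z x X)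
    have e1 : 1 - ξ * HStar.ZZ z x X + ξ * (HStar.w0 X : ℂ) * ((x:ℂ) - 1) =
        1 - ξ * HStar.ZZ z 1 X := by
      rw [HStar.ZZ_eq z x X, HStar.ZZ_eq z 1 X]
      ring
    have e2 : 1 - ξ * HStar.ZZ z x X + ξ * (HStar.w0 X : ℂ) * ((x:ℂ) + 1) =
        1 - ξ * HStar.ZZ z (-1) X := by
      rw [HStar.ZZ_eq z x X, HStar.ZZ_eq z (-1) X]
      ring
    have e3 : ‖ξ * (HStar.w0 X : ℂ)‖ = ‖ξ‖ * HStar.w0 X := by
      rw [norm_mul, Complex.norm_real, Real.norm_of_nonneg hw0]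
    rw [e1, e2, e3] at h4
    rw [norm_div, norm_pow, div_le_iff₀ (by positivity)]
    refine h4.trans (le_of_eq ?_)
    unfold numd
    set g := ‖1 - ξ * HStar.ZZ z x X‖ with hgdef
    have h5 := PH_homog (n := n) hab x g (‖ξ‖ * HStar.w0 X / g) (‖1 - ξ * HStar.ZZ z 1 X‖ / g)
      (‖1 - ξ * HStar.ZZ z (-1) X‖ / g)
    rw [mul_div_cancel₀ _ hg0.ne', mul_div_cancel₀ _ hg0.ne', mul_div_cancel₀ _ hg0.ne'] at h5
    rw [h5]
    have e4 : g ^ (K + 2) = g ^ K * g ^ 2 := by rw [← pow_add]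
    rw [e4]
    field_simp
  rw [MeasureTheory.integral_const_mul] at h3
  linarith

end num

/-- **(P1)** in the notation of the star frame. -/
theorem p_one_KK {n : ℕ} {z : Fin n → ℂ} (hz : ∀ i, ‖z i‖ ≤ 1) {x : ℂ} (hx : ‖x‖ ≤ 1) {ξ : ℂ}
    (hξ : ‖ξ‖ < 1) {Λ : ℂ} (hΛ : ((n + 1 : ℕ) : ℂ) * Λ = (1 - ξ * x) + ∑ i, (1 - ξ * z i)) :
    (1 - ‖1 - Λ‖ ^ 2) * (2 * (HStar.KK z x 0 ξ).re) ≤
      2 * (Λ.re + ‖Λ‖ / (n + 1 : ℕ)) * (2 * (HStar.KK z x 0 ξ).re - 1) := by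
  have h1 : kmom (mu (n + 1)) (WW (n := n)) (DD (Fin.cons x z : Fin (n + 1) → ℂ)) ξ 0 =
      2 * HStar.KK z x 0 ξ - 1 := by
    rw [kmom_zero]
    unfold HStar.KK HStar.ZZ
    have hI : Integrable (fun X : Fin (n + 1) → ℝ =>
        2 / (1 - ξ * DD (Fin.cons x z : Fin (n + 1) → ℂ) X)) (mu (n + 1)) := by
      have h1ξ : 0 < 1 - ‖ξ‖ := by linarith
      refine HStar.integrable_bdd (C := 2 / (1 - ‖ξ‖)) ?_ ?_
      · refine Measurable.aestronglyMeasurable ?_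
        exact measurable_const.div (measurable_const.sub
          (measurable_const.mul (measurable_DD _)))
      · intro X hX
        have h2 : ‖DD (Fin.cons x z : Fin (n + 1) → ℂ) X‖ ≤ 1 := HStar.norm_ZZ_le hz hx hX
        have h3 := HStar.norm_one_sub_ge (le_refl ‖ξ‖) h2
        rw [norm_div]
        have h4 : ‖(2:ℂ)‖ = 2 := by norm_num
        rw [h4]
        exact div_le_div_of_nonneg_left (by norm_num) h1ξ h3
    rw [integral_sub hI (integrable_const _), integral_const]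
    simp only [pow_zero, one_mul, zero_add, pow_one, probReal_univ, one_smul]
    rw [← MeasureTheory.integral_const_mul]
    congr 2
    funext X
    ring
  have hsum : ∑ i, (1 - ξ * (Fin.cons x z : Fin (n + 1) → ℂ) i) =
      (1 - ξ * x) + ∑ i, (1 - ξ * z i) := by
    rw [Fin.sum_univ_succ]
    simp only [Fin.cons_zero, Fin.cons_succ]
  have h2 := p_lower' (z := (Fin.cons x z : Fin (n + 1) → ℂ)) (HStar.cons_le hz hx) hξ
    (Λ := Λ) (by rw [hsum, hΛ])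
  rw [h1] at h2
  have h3 : (2 * HStar.KK z x 0 ξ - 1).re = 2 * (HStar.KK z x 0 ξ).re - 1 := by
    simp
  rw [h3] at h2
  calc _ = (1 - ‖1 - Λ‖ ^ 2) * (1 + (2 * (HStar.KK z x 0 ξ).re - 1)) := by ring
    _ ≤ _ := h2

end Pool.Agent.HMidB
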