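import Mathlib

/-!
# The Herglotz kernels and their derivatives

`kk j u w = 2 u^j/(1 - u w)^(j+1) - [j = 0]` is the `j`-th Taylor coefficient at `w` of
`(1 + u w)/(1 - u w)`. For an entire `g` and `0 ≤ r < 1`, `‖w‖ ≤ 1`:

* `Re g(r w) = (1/2π) ∫ Re g(e^{iθ}) Re kk 0 (r e^{-iθ}) w dθ`;
* `(g(r ·))^{(j)}(w)/j! = (1/2π) ∫ Re g(e^{iθ}) kk j (r e^{-iθ}) w dθ` for `j ≥ 1`.
-/

set_option autoImplicit false

namespace Pool.Agent.HMidB

open Complex Set MeasureTheory intervalIntegral ComplexConjugate Filter Topology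

/-- The kernels. -/
noncomputable def kk (j : ℕ) (u w : ℂ) : ℂ :=
  2 * u ^ j / (1 - u * w) ^ (j + 1) - (if j = 0 then 1 else 0)

theorem kk_ne {u w : ℂ} (h : ‖u * w‖ < 1) : 1 - u * w ≠ 0 := by
  intro h0
  have : u * w = 1 := by linear_combination -h0
  rw [this, norm_one] at h
  exact lt_irrefl _ h

theorem hasDerivAt_kk (j : ℕ) {u w : ℂ} (h : ‖u * w‖ < 1) :
    HasDerivAt (kk j u) ((j + 1 : ℕ) * kk (j + 1) u w) w := by
  have hne := kk_ne h
  have h1 : HasDerivAt (fun w : ℂ => 1 - u * w) (-u) w := by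
    simpa using ((hasDerivAt_id w).const_mul u).const_sub 1
  have h2 : HasDerivAt (fun w : ℂ => (1 - u * w) ^ (j + 1)) ((j + 1 : ℕ) * (1 - u * w) ^ j * -u) w := by
    have := h1.fun_pow (j + 1)
    simpa using this
  have h3 := ((hasDerivAt_const w (2 * u ^ j)).fun_div h2 (pow_ne_zero _ hne)).sub_const
    (if j = 0 then (1:ℂ) else 0)
  refine HasDerivAt.congr_deriv h3 ?_
  unfold kk
  rw [if_neg (Nat.succ_ne_zero j), sub_zero, zero_mul, zero_sub, mul_div_assoc',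
    div_eq_div_iff (pow_ne_zero _ (pow_ne_zero _ hne)) (pow_ne_zero _ hne)]
  ring

theorem norm_kk_le (j : ℕ) {u w : ℂ} {ρ : ℝ} (hρ : ρ < 1) (hu : ‖u‖ ≤ 1) (h : ‖u * w‖ ≤ ρ) :
    ‖kk j u w‖ ≤ 2 / (1 - ρ) ^ (j + 1) + 1 := by
  unfold kk
  refine (norm_sub_le _ _).trans ?_
  have h1 : ‖(if j = 0 then (1:ℂ) else 0)‖ ≤ 1 := by
    split_ifs <;> simp
  refine add_le_add ?_ h1
  rw [norm_div, norm_mul, norm_pow, norm_pow]
  have h2 : ‖(2:ℂ)‖ = 2 := by norm_num
  rw [h2]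
  have h3 : 1 - ρ ≤ ‖1 - u * w‖ := by
    have := norm_sub_norm_le (1:ℂ) (u * w)
    rw [norm_one] at this
    linarith
  have h4 : 0 < 1 - ρ := by linarith
  have h5 : ‖u‖ ^ j ≤ 1 := pow_le_one₀ (norm_nonneg _) hu
  have h6 : 2 * ‖u‖ ^ j ≤ 2 := by linarith
  exact div_le_div₀ (by norm_num) h6 (pow_pos h4 _) (pow_le_pow_left₀ h4.le h3 _)

/-- The boundary parameter `r e^{-iθ}`. -/
noncomputable def uu (r θ : ℝ) : ℂ := (r : ℂ) * exp (-(θ * I))

theorem norm_uu {r : ℝ} (hr : 0 ≤ r) (θ : ℝ) : ‖uu r θ‖ = r := by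
  have : ‖exp (-((θ:ℂ) * I))‖ = 1 := by
    have := Complex.norm_exp_ofReal_mul_I (-θ)
    rwa [Complex.ofReal_neg, neg_mul] at this
  rw [uu, norm_mul, this, mul_one, Complex.norm_real, Real.norm_eq_abs, abs_of_nonneg hr]

theorem continuous_uu (r : ℝ) : Continuous (uu r) := by
  unfold uu
  fun_prop

theorem continuous_kk (j : ℕ) {r : ℝ} (hr : 0 ≤ r) {w : ℂ} (hw : r * ‖w‖ < 1) :
    Continuous fun θ => kk j (uu r θ) w := by
  unfold kk
  refine Continuous.sub (Continuous.div ?_ ?_ ?_) continuous_const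
  · exact continuous_const.mul ((continuous_uu r).pow j)
  · exact (continuous_const.sub ((continuous_uu r).mul continuous_const)).pow _
  · intro θ
    refine pow_ne_zero _ (kk_ne ?_)
    rw [norm_mul, norm_uu hr]
    exact hw

/-- The kernel integral. -/
noncomputable def TJ (f : ℝ → ℝ) (r : ℝ) (j : ℕ) (w : ℂ) : ℂ :=
  ∫ θ in (0:ℝ)..2 * Real.pi, (f θ : ℂ) * kk j (uu r θ) w

theorem hasDerivAt_TJ {f : ℝ → ℝ} (hf : Continuous f) {r : ℝ} (hr0 : 0 ≤ r) (hr1 : r ≤ 1) (j : ℕ)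
    {w : ℂ} (hw : r * ‖w‖ < 1) :
    HasDerivAt (TJ f r j) ((j + 1 : ℕ) * TJ f r (j + 1) w) w := by
  -- a radius
  obtain ⟨δ, hδ, hδ'⟩ : ∃ δ > 0, r * (‖w‖ + δ) < 1 := by
    refine ⟨(1 - r * ‖w‖) / 2, by linarith, ?_⟩
    have : r * ((1 - r * ‖w‖) / 2) ≤ (1 - r * ‖w‖) / 2 := by
      have h0 : 0 ≤ (1 - r * ‖w‖) / 2 := by linarith
      nlinarith
    nlinarith
  set ρ := r * (‖w‖ + δ) with hρ
  have hball : ∀ y ∈ Metric.ball w δ, r * ‖y‖ ≤ ρ := by
    intro y hy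
    rw [Metric.mem_ball, dist_eq_norm] at hy
    have : ‖y‖ ≤ ‖w‖ + δ := by
      have := norm_add_le w (y - w)
      rw [add_sub_cancel] at this
      linarith
    exact mul_le_mul_of_nonneg_left this hr0
  have hfc : Continuous fun θ => (f θ : ℂ) := Complex.continuous_ofReal.comp hf
  have key := intervalIntegral.hasDerivAt_integral_of_dominated_loc_of_deriv_le
    (𝕜 := ℂ) (μ := volume) (a := 0) (b := 2 * Real.pi)
    (F := fun y θ => (f θ : ℂ) * kk j (uu r θ) y)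
    (F' := fun y θ => (f θ : ℂ) * ((j + 1 : ℕ) * kk (j + 1) (uu r θ) y))
    (bound := fun θ => |f θ| * ((j + 1 : ℕ) * (2 / (1 - ρ) ^ (j + 1 + 1) + 1)))
    (x₀ := w) (Metric.ball_mem_nhds w hδ) ?_ ?_ ?_ ?_ ?_ ?_
  · have h2 := key.2
    have e : (∫ θ in (0:ℝ)..2 * Real.pi, (f θ : ℂ) * ((j + 1 : ℕ) * kk (j + 1) (uu r θ) w)) =
        (j + 1 : ℕ) * TJ f r (j + 1) w := by
      unfold TJ
      rw [← intervalIntegral.integral_const_mul]
      refine intervalIntegral.integral_congr fun θ _ => ?_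
      ring
    rw [e] at h2
    exact h2
  · filter_upwards [Metric.ball_mem_nhds w hδ] with y hy
    exact (hfc.mul (continuous_kk j hr0 (lt_of_le_of_lt (hball y hy) hδ'))).aestronglyMeasurable
  · exact (hfc.mul (continuous_kk j hr0 hw)).intervalIntegrable _ _
  · exact (hfc.mul (continuous_const.mul (continuous_kk (j + 1) hr0 hw))).aestronglyMeasurable
  · refine Filter.Eventually.of_forall fun θ _ y hy => ?_
    have h1 : ‖uu r θ * y‖ ≤ ρ := by
      rw [norm_mul, norm_uu hr0]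
      exact hball y hy
    have h2 := norm_kk_le (j + 1) hδ' (by rw [norm_uu hr0]; exact hr1) h1
    rw [norm_mul, norm_mul, Complex.norm_real, Real.norm_eq_abs, Complex.norm_natCast]
    exact mul_le_mul_of_nonneg_left (mul_le_mul_of_nonneg_left h2 (Nat.cast_nonneg _))
      (abs_nonneg _)
  · exact ((hf.abs).mul continuous_const).intervalIntegrable _ _
  · refine Filter.Eventually.of_forall fun θ _ y hy => ?_
    refine (hasDerivAt_kk j ?_).const_mul _
    rw [norm_mul, norm_uu hr0]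
    exact lt_of_le_of_lt (hball y hy) hδ'

end Pool.Agent.HMidB
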