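import Pool.Agent.HMidB.Grow

/-!
# The polynomial `T(η) = ∑ e_{K-j} η^(j+1)` is bounded by `M |η| Phr(|η|)`

This is the hypothesis `hmaj` of `HStar.certMaj` as soon as `r Phr(r)` is bounded by a polynomial.
-/

set_option autoImplicit false

namespace Pool.Agent.HMidB

open Polynomial MeasureTheory Set ComplexConjugate Pool.Agent.HHalf

theorem norm_re_sub_one {x : ℝ} (h2 : x < 1) : ‖(x:ℂ) - 1‖ = 1 - x := by
  have h4 : (x:ℂ) - 1 = ((x - 1 : ℝ) : ℂ) := by push_cast; ring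
  rw [h4, Complex.norm_real, Real.norm_eq_abs, abs_of_neg (by linarith)]
  ring

theorem norm_re_add_one {x : ℝ} (h1 : -1 < x) : ‖(x:ℂ) + 1‖ = 1 + x := by
  have h4 : (x:ℂ) + 1 = ((x + 1 : ℝ) : ℂ) := by push_cast; ring
  rw [h4, Complex.norm_real, Real.norm_eq_abs, abs_of_pos (by linarith)]
  ring

/-- The bound with the exact moduli. -/
theorem T_le_PH {n K a b : ℕ} (hab : a + b = K + 1) (hk : K + 1 ≤ n) {z : Fin n → ℂ}
    (hz : ∀ i, ‖z i‖ ≤ 1) {x M : ℝ} (hx1 : -1 ≤ x) (hx2 : x ≤ 1)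
    (hM : ∀ t : ℝ, -1 ≤ t → t ≤ 1 → ‖(hasseDeriv (K + 1) (om z)).eval (t:ℂ)‖ ≤ M)
    {e : ℕ → ℝ} (he : ∀ i ≤ K + 1, (hasseDeriv i (om z)).eval (x:ℂ) = (e i : ℂ)) (η : ℂ) :
    ‖∑ j ∈ Finset.range (K + 1), ((e (K + 1 - (j + 1)) : ℝ) : ℂ) * η ^ (j + 1)‖ ≤
      M * (‖η‖ * PH n K a b x ‖η‖ ‖1 + η * (x - 1)‖ ‖1 + η * (x + 1)‖) := by
  have h := norm_PP_le hab hk hz hx1 hx2 hM η 1
  have e1 : PP (K + 1) x η 1 (om z) =
      ∑ j ∈ Finset.range (K + 1), ((e (K + 1 - (j + 1)) : ℝ) : ℂ) * η ^ (j + 1) := by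
    unfold PP
    refine Finset.sum_congr rfl fun j hj => ?_
    rw [he _ (by omega), one_pow, mul_one]
  rwa [e1] at h

/-- **The majorant.** -/
theorem T_le {n K a b : ℕ} (hab : a + b = K + 1) (hk : K + 1 ≤ n) {z : Fin n → ℂ}
    (hz : ∀ i, ‖z i‖ ≤ 1) {x M : ℝ} (hx1 : -1 < x) (hx2 : x < 1)
    (hM : ∀ t : ℝ, -1 ≤ t → t ≤ 1 → ‖(hasseDeriv (K + 1) (om z)).eval (t:ℂ)‖ ≤ M)
    {e : ℕ → ℝ} (he : ∀ i ≤ K + 1, (hasseDeriv i (om z)).eval (x:ℂ) = (e i : ℂ)) (η : ℂ) :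
    ‖∑ j ∈ Finset.range (K + 1), ((e (K + 1 - (j + 1)) : ℝ) : ℂ) * η ^ (j + 1)‖ ≤
      M * (‖η‖ * Phr n K a b x ‖η‖) := by
  have hM0 : 0 ≤ M := (norm_nonneg _).trans (hM 1 (by norm_num) le_rfl)
  refine (T_le_PH hab hk hz hx1.le hx2.le hM he η).trans ?_
  refine mul_le_mul_of_nonneg_left (mul_le_mul_of_nonneg_left ?_ (norm_nonneg _)) hM0
  refine PH_le hab hx1 hx2 (norm_nonneg _) (norm_nonneg _) (norm_nonneg _) ?_ ?_ ?_
  · have := two_point_sq x η 1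
    rw [this, norm_one]
    ring
  · refine (norm_add_le _ _).trans ?_
    rw [norm_one, norm_mul, norm_re_sub_one hx2]
    linarith
  · refine (norm_add_le _ _).trans ?_
    rw [norm_one, norm_mul, norm_re_add_one hx1]
    linarith

/-- `Q^(K/2)` is at most a polynomial. -/
theorem sqrt_pow_le {y : ℝ} (hy : 0 ≤ y) (K : ℕ) :
    Real.sqrt (1 + y) ^ K ≤ (1 + y) ^ (K / 2) * (1 + y / 2) ^ (K % 2) := by
  have h1 : Real.sqrt (1 + y) ≤ 1 + y / 2 := by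
    rw [Real.sqrt_le_left (by linarith)]
    nlinarith
  have h2 : Real.sqrt (1 + y) ^ 2 = 1 + y := Real.sq_sqrt (by linarith)
  conv_lhs => rw [← Nat.div_add_mod K 2, pow_add, pow_mul, h2]
  exact mul_le_mul_of_nonneg_left (pow_le_pow_left₀ (Real.sqrt_nonneg _) h1 _) (by positivity)

/-- `Ω² = 1 + 3x²` for `k = 2`. -/
theorem Om2_two {x : ℝ} (h1 : -1 < x) (h2 : x < 1) : Om2 1 1 x = 1 + 3 * x ^ 2 := by
  have h3 : (1 + x) / 2 ≠ 0 := by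
    intro h
    linarith
  have h4 : (1 - x) / 2 ≠ 0 := by
    intro h
    linarith
  unfold Om2
  rw [Finset.sum_range_succ, Finset.sum_range_one]
  have e1 : omw 1 1 0 x = 2 * ((1 - x) / 2) ^ 2 := by
    simp [omw, lo]
  have e2 : omw 1 1 1 x = 2 * ((1 + x) / 2) ^ 2 := by
    simp [omw, hi]
  have e3 : BB 1 0 x = (1 - x) / 2 := by simp [BB]
  have e4 : BB 1 1 x = (1 + x) / 2 := by simp [BB]
  rw [e1, e2, e3, e4]
  field_simp
  ring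

end Pool.Agent.HMidB
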