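import Pool.Agent.HMidB.Box

/-!
# The constants `Ω²` for `m = 5`
-/

set_option autoImplicit false

namespace Pool.Agent.HMidB

theorem Om43 {x : ℝ} (h1 : -1 < x) (h2 : x < 1) : Om2 4 3 x =
    (48 * ((1 + x) / 2) ^ 2 * ((1 - x) / 2) ^ 7 +
      12 * ((1 + x) / 2) * ((1 - x) / 2) ^ 6 * ((1 - x) / 2 + 5 * ((1 + x) / 2)) ^ 2 +
      8 * ((1 - x) / 2) ^ 5 * (((1 - x) / 2) ^ 2 + 5 * ((1 + x) / 2) * ((1 - x) / 2) +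
        10 * ((1 + x) / 2) ^ 2) ^ 2 +
      12 * ((1 + x) / 2) ^ 7 * (5 * ((1 - x) / 2) + (1 + x) / 2) ^ 2 +
      48 * ((1 + x) / 2) ^ 8 * ((1 - x) / 2)) / (12 * ((1 + x) / 2) ^ 2 * ((1 - x) / 2)) := by
  have h3 : 0 < (1 + x) / 2 := by linarith
  have h4 : 0 < (1 - x) / 2 := by linarith
  unfold Om2 omw lo hi BB
  simp only [Finset.sum_range_succ, Finset.sum_range_zero, Finset.sum_Ico_eq_sum_range]
  norm_num [Nat.choose]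
  set u := (1 + x) / 2
  set v := (1 - x) / 2
  field_simp
  ring

theorem Om44 {x : ℝ} (h1 : -1 < x) (h2 : x < 1) : Om2 4 4 x =
    (48 * ((1 + x) / 2) ^ 3 * ((1 - x) / 2) ^ 6 +
      12 * ((1 + x) / 2) ^ 2 * ((1 - x) / 2) ^ 5 * ((1 - x) / 2 + 5 * ((1 + x) / 2)) ^ 2 +
      8 * ((1 + x) / 2) * ((1 - x) / 2) ^ 4 * (((1 - x) / 2) ^ 2 +
        5 * ((1 + x) / 2) * ((1 - x) / 2) + 10 * ((1 + x) / 2) ^ 2) ^ 2 +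
      12 * ((1 - x) / 2) ^ 3 * (((1 - x) / 2) ^ 3 + 5 * ((1 + x) / 2) * ((1 - x) / 2) ^ 2 +
        10 * ((1 + x) / 2) ^ 2 * ((1 - x) / 2) + 10 * ((1 + x) / 2) ^ 3) ^ 2 +
      48 * ((1 + x) / 2) ^ 9) / (12 * ((1 + x) / 2) ^ 3) := by
  have h3 : 0 < (1 + x) / 2 := by linarith
  have h4 : 0 < (1 - x) / 2 := by linarith
  unfold Om2 omw lo hi BB
  simp only [Finset.sum_range_succ, Finset.sum_range_zero, Finset.sum_Ico_eq_sum_range]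
  norm_num [Nat.choose]
  set u := (1 + x) / 2
  set v := (1 - x) / 2
  field_simp
  ring

theorem OmA {x : ℝ} (h1 : 0 ≤ x) (h2 : x ≤ 1 / 4) : Om2 4 3 x ≤ (2 : ℝ) ^ 2 := by
  have hs : 0 ≤ x - 0 := by linarith
  have ht : 0 ≤ 1 / 4 - x := by linarith
  have h3 : 0 < (1 + x) / 2 := by linarith
  have h4 : 0 < (1 - x) / 2 := by linarith
  rw [Om43 (by linarith) (by linarith), div_le_iff₀ (by positivity)]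
  have key : (2 : ℝ) ^ 2 * (12 * ((1 + x) / 2) ^ 2 * ((1 - x) / 2)) - (48 * ((1 + x) / 2) ^ 2 * ((1 - x) / 2) ^ 7 +
      12 * ((1 + x) / 2) * ((1 - x) / 2) ^ 6 * ((1 - x) / 2 + 5 * ((1 + x) / 2)) ^ 2 +
      8 * ((1 - x) / 2) ^ 5 * (((1 - x) / 2) ^ 2 + 5 * ((1 + x) / 2) * ((1 - x) / 2) +
        10 * ((1 + x) / 2) ^ 2) ^ 2 +
      12 * ((1 + x) / 2) ^ 7 * (5 * ((1 - x) / 2) + (1 + x) / 2) ^ 2 +
      48 * ((1 + x) / 2) ^ 8 * ((1 - x) / 2)) =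
      32768 * (x - 0) ^ 0 * (1 / 4 - x) ^ 9 +
      1286144 * (x - 0) ^ 1 * (1 / 4 - x) ^ 8 +
      8712192 * (x - 0) ^ 2 * (1 / 4 - x) ^ 7 +
      27585536 * (x - 0) ^ 3 * (1 / 4 - x) ^ 6 +
      50466944 * (x - 0) ^ 4 * (1 / 4 - x) ^ 5 +
      57581472 * (x - 0) ^ 5 * (1 / 4 - x) ^ 4 +
      41712000 * (x - 0) ^ 6 * (1 / 4 - x) ^ 3 +
      18657216 * (x - 0) ^ 7 * (1 / 4 - x) ^ 2 +
      4691712 * (x - 0) ^ 8 * (1 / 4 - x) ^ 1 +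
      505248 * (x - 0) ^ 9 * (1 / 4 - x) ^ 0 := by
    ring
  have hp : 0 ≤ 32768 * (x - 0) ^ 0 * (1 / 4 - x) ^ 9 +
      1286144 * (x - 0) ^ 1 * (1 / 4 - x) ^ 8 +
      8712192 * (x - 0) ^ 2 * (1 / 4 - x) ^ 7 +
      27585536 * (x - 0) ^ 3 * (1 / 4 - x) ^ 6 +
      50466944 * (x - 0) ^ 4 * (1 / 4 - x) ^ 5 +
      57581472 * (x - 0) ^ 5 * (1 / 4 - x) ^ 4 +
      41712000 * (x - 0) ^ 6 * (1 / 4 - x) ^ 3 +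
      18657216 * (x - 0) ^ 7 * (1 / 4 - x) ^ 2 +
      4691712 * (x - 0) ^ 8 * (1 / 4 - x) ^ 1 +
      505248 * (x - 0) ^ 9 * (1 / 4 - x) ^ 0 := by
    positivity
  linarith

theorem OmB {x : ℝ} (h1 : 1 / 4 ≤ x) (h2 : x ≤ 1 / 2) : Om2 4 3 x ≤ (11 / 5 : ℝ) ^ 2 := by
  have hs : 0 ≤ x - 1 / 4 := by linarith
  have ht : 0 ≤ 1 / 2 - x := by linarith
  have h3 : 0 < (1 + x) / 2 := by linarith
  have h4 : 0 < (1 - x) / 2 := by linarith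
  rw [Om43 (by linarith) (by linarith), div_le_iff₀ (by positivity)]
  have key : (11 / 5 : ℝ) ^ 2 * (12 * ((1 + x) / 2) ^ 2 * ((1 - x) / 2)) - (48 * ((1 + x) / 2) ^ 2 * ((1 - x) / 2) ^ 7 +
      12 * ((1 + x) / 2) * ((1 - x) / 2) ^ 6 * ((1 - x) / 2 + 5 * ((1 + x) / 2)) ^ 2 +
      8 * ((1 - x) / 2) ^ 5 * (((1 - x) / 2) ^ 2 + 5 * ((1 + x) / 2) * ((1 - x) / 2) +
        10 * ((1 + x) / 2) ^ 2) ^ 2 +
      12 * ((1 + x) / 2) ^ 7 * (5 * ((1 - x) / 2) + (1 + x) / 2) ^ 2 +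
      48 * ((1 + x) / 2) ^ 8 * ((1 - x) / 2)) =
      892320 * (x - 1 / 4) ^ 0 * (1 / 2 - x) ^ 9 +
      39561024 / 5 * (x - 1 / 4) ^ 1 * (1 / 2 - x) ^ 8 +
      761260992 / 25 * (x - 1 / 4) ^ 2 * (1 / 2 - x) ^ 7 +
      332612352 / 5 * (x - 1 / 4) ^ 3 * (1 / 2 - x) ^ 6 +
      2259078048 / 25 * (x - 1 / 4) ^ 4 * (1 / 2 - x) ^ 5 +
      391631552 / 5 * (x - 1 / 4) ^ 5 * (1 / 2 - x) ^ 4 +
      212433152 / 5 * (x - 1 / 4) ^ 6 * (1 / 2 - x) ^ 3 +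
      333430272 / 25 * (x - 1 / 4) ^ 7 * (1 / 2 - x) ^ 2 +
      9763328 / 5 * (x - 1 / 4) ^ 8 * (1 / 2 - x) ^ 1 +
      1174528 / 25 * (x - 1 / 4) ^ 9 * (1 / 2 - x) ^ 0 := by
    ring
  have hp : 0 ≤ 892320 * (x - 1 / 4) ^ 0 * (1 / 2 - x) ^ 9 +
      39561024 / 5 * (x - 1 / 4) ^ 1 * (1 / 2 - x) ^ 8 +
      761260992 / 25 * (x - 1 / 4) ^ 2 * (1 / 2 - x) ^ 7 +
      332612352 / 5 * (x - 1 / 4) ^ 3 * (1 / 2 - x) ^ 6 +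
      2259078048 / 25 * (x - 1 / 4) ^ 4 * (1 / 2 - x) ^ 5 +
      391631552 / 5 * (x - 1 / 4) ^ 5 * (1 / 2 - x) ^ 4 +
      212433152 / 5 * (x - 1 / 4) ^ 6 * (1 / 2 - x) ^ 3 +
      333430272 / 25 * (x - 1 / 4) ^ 7 * (1 / 2 - x) ^ 2 +
      9763328 / 5 * (x - 1 / 4) ^ 8 * (1 / 2 - x) ^ 1 +
      1174528 / 25 * (x - 1 / 4) ^ 9 * (1 / 2 - x) ^ 0 := by
    positivity
  linarith

theorem OmC {x : ℝ} (h1 : 1 / 2 ≤ x) (h2 : x ≤ 3 / 5) : Om2 4 4 x ≤ (3 / 2 : ℝ) ^ 2 := by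
  have hs : 0 ≤ x - 1 / 2 := by linarith
  have ht : 0 ≤ 3 / 5 - x := by linarith
  have h3 : 0 < (1 + x) / 2 := by linarith
  have h4 : 0 < (1 - x) / 2 := by linarith
  rw [Om44 (by linarith) (by linarith), div_le_iff₀ (by positivity)]
  have key : (3 / 2 : ℝ) ^ 2 * (12 * ((1 + x) / 2) ^ 3) - (48 * ((1 + x) / 2) ^ 3 * ((1 - x) / 2) ^ 6 +
      12 * ((1 + x) / 2) ^ 2 * ((1 - x) / 2) ^ 5 * ((1 - x) / 2 + 5 * ((1 + x) / 2)) ^ 2 +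
      8 * ((1 + x) / 2) * ((1 - x) / 2) ^ 4 * (((1 - x) / 2) ^ 2 +
        5 * ((1 + x) / 2) * ((1 - x) / 2) + 10 * ((1 + x) / 2) ^ 2) ^ 2 +
      12 * ((1 - x) / 2) ^ 3 * (((1 - x) / 2) ^ 3 + 5 * ((1 + x) / 2) * ((1 - x) / 2) ^ 2 +
        10 * ((1 + x) / 2) ^ 2 * ((1 - x) / 2) + 10 * ((1 + x) / 2) ^ 3) ^ 2 +
      48 * ((1 + x) / 2) ^ 9) =
      175781250 * (x - 1 / 2) ^ 0 * (3 / 5 - x) ^ 9 +
      4775000000 * (x - 1 / 2) ^ 1 * (3 / 5 - x) ^ 8 +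
      31307812500 * (x - 1 / 2) ^ 2 * (3 / 5 - x) ^ 7 +
      100082875000 * (x - 1 / 2) ^ 3 * (3 / 5 - x) ^ 6 +
      188276231250 * (x - 1 / 2) ^ 4 * (3 / 5 - x) ^ 5 +
      223809735000 * (x - 1 / 2) ^ 5 * (3 / 5 - x) ^ 4 +
      170995065000 * (x - 1 / 2) ^ 6 * (3 / 5 - x) ^ 3 +
      81738160000 * (x - 1 / 2) ^ 7 * (3 / 5 - x) ^ 2 +
      22309440000 * (x - 1 / 2) ^ 8 * (3 / 5 - x) ^ 1 +
      2658560000 * (x - 1 / 2) ^ 9 * (3 / 5 - x) ^ 0 := by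
    ring
  have hp : 0 ≤ 175781250 * (x - 1 / 2) ^ 0 * (3 / 5 - x) ^ 9 +
      4775000000 * (x - 1 / 2) ^ 1 * (3 / 5 - x) ^ 8 +
      31307812500 * (x - 1 / 2) ^ 2 * (3 / 5 - x) ^ 7 +
      100082875000 * (x - 1 / 2) ^ 3 * (3 / 5 - x) ^ 6 +
      188276231250 * (x - 1 / 2) ^ 4 * (3 / 5 - x) ^ 5 +
      223809735000 * (x - 1 / 2) ^ 5 * (3 / 5 - x) ^ 4 +
      170995065000 * (x - 1 / 2) ^ 6 * (3 / 5 - x) ^ 3 +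
      81738160000 * (x - 1 / 2) ^ 7 * (3 / 5 - x) ^ 2 +
      22309440000 * (x - 1 / 2) ^ 8 * (3 / 5 - x) ^ 1 +
      2658560000 * (x - 1 / 2) ^ 9 * (3 / 5 - x) ^ 0 := by
    positivity
  linarith

theorem OmD {x : ℝ} (h1 : 3 / 5 ≤ x) (h2 : x ≤ 7 / 10) : Om2 4 4 x ≤ (7 / 5 : ℝ) ^ 2 := by
  have hs : 0 ≤ x - 3 / 5 := by linarith
  have ht : 0 ≤ 7 / 10 - x := by linarith
  have h3 : 0 < (1 + x) / 2 := by linarith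
  have h4 : 0 < (1 - x) / 2 := by linarith
  rw [Om44 (by linarith) (by linarith), div_le_iff₀ (by positivity)]
  have key : (7 / 5 : ℝ) ^ 2 * (12 * ((1 + x) / 2) ^ 3) - (48 * ((1 + x) / 2) ^ 3 * ((1 - x) / 2) ^ 6 +
      12 * ((1 + x) / 2) ^ 2 * ((1 - x) / 2) ^ 5 * ((1 - x) / 2 + 5 * ((1 + x) / 2)) ^ 2 +
      8 * ((1 + x) / 2) * ((1 - x) / 2) ^ 4 * (((1 - x) / 2) ^ 2 +
        5 * ((1 + x) / 2) * ((1 - x) / 2) + 10 * ((1 + x) / 2) ^ 2) ^ 2 +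
      12 * ((1 - x) / 2) ^ 3 * (((1 - x) / 2) ^ 3 + 5 * ((1 + x) / 2) * ((1 - x) / 2) ^ 2 +
        10 * ((1 + x) / 2) ^ 2 * ((1 - x) / 2) + 10 * ((1 + x) / 2) ^ 3) ^ 2 +
      48 * ((1 + x) / 2) ^ 9) =
      876800000 * (x - 3 / 5) ^ 0 * (7 / 10 - x) ^ 9 +
      9174720000 * (x - 3 / 5) ^ 1 * (7 / 10 - x) ^ 8 +
      40782880000 * (x - 3 / 5) ^ 2 * (7 / 10 - x) ^ 7 +
      102065540000 * (x - 3 / 5) ^ 3 * (7 / 10 - x) ^ 6 +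
      159250905000 * (x - 3 / 5) ^ 4 * (7 / 10 - x) ^ 5 +
      160918453750 * (x - 3 / 5) ^ 5 * (7 / 10 - x) ^ 4 +
      105207885000 * (x - 3 / 5) ^ 6 * (7 / 10 - x) ^ 3 +
      42752002500 * (x - 3 / 5) ^ 7 * (7 / 10 - x) ^ 2 +
      9719280000 * (x - 3 / 5) ^ 8 * (7 / 10 - x) ^ 1 +
      927033750 * (x - 3 / 5) ^ 9 * (7 / 10 - x) ^ 0 := by
    ring
  have hp : 0 ≤ 876800000 * (x - 3 / 5) ^ 0 * (7 / 10 - x) ^ 9 +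
      9174720000 * (x - 3 / 5) ^ 1 * (7 / 10 - x) ^ 8 +
      40782880000 * (x - 3 / 5) ^ 2 * (7 / 10 - x) ^ 7 +
      102065540000 * (x - 3 / 5) ^ 3 * (7 / 10 - x) ^ 6 +
      159250905000 * (x - 3 / 5) ^ 4 * (7 / 10 - x) ^ 5 +
      160918453750 * (x - 3 / 5) ^ 5 * (7 / 10 - x) ^ 4 +
      105207885000 * (x - 3 / 5) ^ 6 * (7 / 10 - x) ^ 3 +
      42752002500 * (x - 3 / 5) ^ 7 * (7 / 10 - x) ^ 2 +
      9719280000 * (x - 3 / 5) ^ 8 * (7 / 10 - x) ^ 1 +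
      927033750 * (x - 3 / 5) ^ 9 * (7 / 10 - x) ^ 0 := by
    positivity
  linarith

end Pool.Agent.HMidB
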