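import Pool.Agent.HMidB.Omega
import Pool.Agent.HStar.Asm2
import Pool.Agent.HHalfC.COppT

/-!
# The orders `k = 6, 7`, `0 ≤ x ≤ 7/10`
-/

set_option autoImplicit false

namespace Pool.Agent.HMidB

open Polynomial MeasureTheory Set ComplexConjugate Pool.Agent.HHalf Pool.Agent.HStar
  Pool.Agent.HFin Pool.Agent.HSixP1

theorem FE_m {N : ℕ} (hN : 0 < N) (x c : ℝ) : FE N x (c / N - 1) =
    2 * c * (2 - c / N) - (1 + (c / N - 1) ^ 2) / 2 - |2 * x + (c / N - 1)| := by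
  have hN' : (N:ℝ) ≠ 0 := by exact_mod_cast hN.ne'
  have e : 2 * (N:ℝ) * (1 - (c / N - 1) ^ 2) = 2 * c * (2 - c / N) := by
    field_simp
    ring
  unfold FE
  rw [e]

theorem FE_p {N : ℕ} (hN : 0 < N) (x c : ℝ) : FE N x (1 - c / N) =
    2 * c * (2 - c / N) - (1 + (1 - c / N) ^ 2) / 2 - |2 * x + (1 - c / N)| := by
  have hN' : (N:ℝ) ≠ 0 := by exact_mod_cast hN.ne'
  have e : 2 * (N:ℝ) * (1 - (1 - c / N) ^ 2) = 2 * c * (2 - c / N) := by
    field_simp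
    ring
  unfold FE
  rw [e]

theorem frac_bd {N n0 : ℕ} (h0 : 0 < n0) (hN : n0 ≤ N) {c : ℝ} (hc : 0 ≤ c) :
    0 ≤ c / N ∧ c / N ≤ c / n0 := by
  have h1 : (0:ℝ) < n0 := by exact_mod_cast h0
  have h2 : (n0:ℝ) ≤ N := by exact_mod_cast hN
  exact ⟨by positivity, div_le_div_of_nonneg_left hc h1 h2⟩

theorem E6 {N : ℕ} (hN : 7 ≤ N) {x : ℝ} (h0 : 0 ≤ x) (h1 : x ≤ 7 / 10) :
    2 * (26 / 5 : ℝ) ≤ FE N x ((23 / 4 + x) / N - 1) ∧ 2 * (26 / 5 : ℝ) ≤ FE N x (1 - (25 / 4 - x) / N) := by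
  rw [FE_m (by omega), FE_p (by omega)]
  obtain ⟨a1, a2⟩ := frac_bd (n0 := 7) (by norm_num) hN (c := 23 / 4 + x) (by linarith)
  obtain ⟨b1, b2⟩ := frac_bd (n0 := 7) (by norm_num) hN (c := 25 / 4 - x) (by linarith)
  push_cast at a2 b2
  set h := (23 / 4 + x) / (N:ℝ)
  set h' := (25 / 4 - x) / (N:ℝ)
  constructor
  · rcases abs_cases (2 * x + (h - 1)) with ⟨e, _⟩ | ⟨e, _⟩ <;> rw [e] <;>
      nlinarith [mul_nonneg a1 h0, mul_nonneg (sub_nonneg.2 a2) h0, mul_nonneg a1 a1,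
        mul_nonneg (sub_nonneg.2 a2) a1, mul_nonneg h0 (sub_nonneg.2 h1),
        mul_nonneg (sub_nonneg.2 a2) (sub_nonneg.2 a2)]
  · rcases abs_cases (2 * x + (1 - h')) with ⟨e, _⟩ | ⟨e, _⟩ <;> rw [e] <;>
      nlinarith [mul_nonneg b1 h0, mul_nonneg (sub_nonneg.2 b2) h0, mul_nonneg b1 b1,
        mul_nonneg (sub_nonneg.2 b2) b1, mul_nonneg h0 (sub_nonneg.2 h1),
        mul_nonneg (sub_nonneg.2 b2) (sub_nonneg.2 b2)]

theorem E7 {N : ℕ} (hN : 8 ≤ N) {x : ℝ} (h0 : 0 ≤ x) (h1 : x ≤ 7 / 10) :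
    2 * (28 / 5 : ℝ) ≤ FE N x ((27 / 4 + x) / N - 1) ∧ 2 * (28 / 5 : ℝ) ≤ FE N x (1 - (29 / 4 - x) / N) := by
  rw [FE_m (by omega), FE_p (by omega)]
  obtain ⟨a1, a2⟩ := frac_bd (n0 := 8) (by norm_num) hN (c := 27 / 4 + x) (by linarith)
  obtain ⟨b1, b2⟩ := frac_bd (n0 := 8) (by norm_num) hN (c := 29 / 4 - x) (by linarith)
  push_cast at a2 b2
  set h := (27 / 4 + x) / (N:ℝ)
  set h' := (29 / 4 - x) / (N:ℝ)
  constructor
  · rcases abs_cases (2 * x + (h - 1)) with ⟨e, _⟩ | ⟨e, _⟩ <;> rw [e] <;>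
      nlinarith [mul_nonneg a1 h0, mul_nonneg (sub_nonneg.2 a2) h0, mul_nonneg a1 a1,
        mul_nonneg (sub_nonneg.2 a2) a1, mul_nonneg h0 (sub_nonneg.2 h1),
        mul_nonneg (sub_nonneg.2 a2) (sub_nonneg.2 a2)]
  · rcases abs_cases (2 * x + (1 - h')) with ⟨e, _⟩ | ⟨e, _⟩ <;> rw [e] <;>
      nlinarith [mul_nonneg b1 h0, mul_nonneg (sub_nonneg.2 b2) h0, mul_nonneg b1 b1,
        mul_nonneg (sub_nonneg.2 b2) b1, mul_nonneg h0 (sub_nonneg.2 h1),
        mul_nonneg (sub_nonneg.2 b2) (sub_nonneg.2 b2)]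

theorem bd_1_3_2 (r A B : ℝ) : bdG (ge 1 5) 3 2 r A B =
    16 / 429 * (r ^ 2 * (A ^ 0 * B ^ 2)) + 40 / 143 * (r ^ 1 * (A ^ 1 * B ^ 2)) + 428 / 429 * (r ^ 0 * (A ^ 2 * B ^ 2)) := by
  norm_num [bdG, alG, ge, gam, Finset.sum_range_succ, Nat.choose]

theorem bd_1_2_3 (r A B : ℝ) : bdG (ge 1 5) 2 3 r A B =
    8 / 429 * (r ^ 1 * (A ^ 0 * B ^ 3)) + 64 / 429 * (r ^ 0 * (A ^ 1 * B ^ 3)) := by
  norm_num [bdG, alG, ge, gam, Finset.sum_range_succ, Nat.choose]

theorem bd_1_4_1 (r A B : ℝ) : bdG (ge 1 5) 4 1 r A B =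
    32 / 429 * (r ^ 3 * (A ^ 0 * B ^ 1)) + 224 / 429 * (r ^ 2 * (A ^ 1 * B ^ 1)) + 736 / 429 * (r ^ 1 * (A ^ 2 * B ^ 1)) + 504 / 143 * (r ^ 0 * (A ^ 3 * B ^ 1)) := by
  norm_num [bdG, alG, ge, gam, Finset.sum_range_succ, Nat.choose]

theorem bd_1_1_4 (r A B : ℝ) : bdG (ge 1 5) 1 4 r A B =
    4 / 429 * (r ^ 0 * (A ^ 0 * B ^ 4)) := by
  norm_num [bdG, alG, ge, gam, Finset.sum_range_succ, Nat.choose]

theorem bd_2_3_2 (r A B : ℝ) : bdG (ge 2 5) 3 2 r A B =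
    12 / 143 * (r ^ 2 * (A ^ 0 * B ^ 2)) + 96 / 143 * (r ^ 1 * (A ^ 1 * B ^ 2)) + 366 / 143 * (r ^ 0 * (A ^ 2 * B ^ 2)) := by
  norm_num [bdG, alG, ge, gam, Finset.sum_range_succ, Nat.choose]

theorem bd_2_2_3 (r A B : ℝ) : bdG (ge 2 5) 2 3 r A B =
    6 / 143 * (r ^ 1 * (A ^ 0 * B ^ 3)) + 51 / 143 * (r ^ 0 * (A ^ 1 * B ^ 3)) := by
  norm_num [bdG, alG, ge, gam, Finset.sum_range_succ, Nat.choose]

theorem bd_2_4_1 (r A B : ℝ) : bdG (ge 2 5) 4 1 r A B =
    24 / 143 * (r ^ 3 * (A ^ 0 * B ^ 1)) + 180 / 143 * (r ^ 2 * (A ^ 1 * B ^ 1)) + 636 / 143 * (r ^ 1 * (A ^ 2 * B ^ 1)) + 1410 / 143 * (r ^ 0 * (A ^ 3 * B ^ 1)) := by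
  norm_num [bdG, alG, ge, gam, Finset.sum_range_succ, Nat.choose]

theorem bd_2_1_4 (r A B : ℝ) : bdG (ge 2 5) 1 4 r A B =
    3 / 143 * (r ^ 0 * (A ^ 0 * B ^ 4)) := by
  norm_num [bdG, alG, ge, gam, Finset.sum_range_succ, Nat.choose]

theorem box_6_0 {N : ℕ} (hN : 7 ≤ N) {L : Fin N → ℂ} (hL : ∀ a, ‖L a‖ ≤ 1) {x : ℝ}
    (h0 : 0 ≤ x) (h1 : x ≤ 1 / 4) (htp : 25 / 4 ≤ ∑ a, (1 - (L a).re)) (htm : 23 / 4 ≤ ∑ a, (1 + (L a).re)) :
    PW L 6 x := by
  have hE := E6 (N := N) (by omega) (x := x) (by linarith) (by linarith)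
  refine box (N := N) (p := 1) (h := 2) (a := 3) (b := 2) (by norm_num) (by omega) hL
    (x := x) (x0 := 0) (x1 := 1 / 4) (W := 2) (by norm_num) h0 h1 (by norm_num) (by norm_num)
    (OmA (by linarith) (by linarith))
    (β := fun j => if j = 1 then 1880 / 143 else if j = 2 then 2326 / 429 else if j = 3 then 19233 / 572 else if j = 4 then 251 / 33 else if j = 5 then 24469 / 1716 else 0) ?_ ?_
    htp htm hE.1 hE.2
    (ρ := fun j => if j = 2 then 8 / 41 else if j = 3 then 4 / 13 else if j = 4 then 16 / 37 else if j = 5 then 4 / 7 else if j = 6 then 8 / 11 else 0)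
    ?_ ?_ ?_
  · intro j
    split_ifs <;> norm_num
  · intro r hr
    have e5 : 2 * 2 + 1 = 5 := rfl
    rw [e5, bd_1_3_2, bd_1_2_3]
    simp only [Finset.sum_range_succ, Finset.sum_range_zero]
    norm_num [Nat.choose]
    apply le_of_eq
    ring
  · intro j
    split_ifs <;> norm_num
  · intro j hj1 hj2
    have hj3 : j ≤ 6 := hj2
    interval_cases j <;> norm_num
  · norm_num [Finset.sum_range_succ, Finset.prod_range_succ, bfx, tt, gam, Nat.choose]

theorem box_6_1 {N : ℕ} (hN : 7 ≤ N) {L : Fin N → ℂ} (hL : ∀ a, ‖L a‖ ≤ 1) {x : ℝ}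
    (h0 : 1 / 4 ≤ x) (h1 : x ≤ 1 / 2) (htp : 25 / 4 ≤ ∑ a, (1 - (L a).re)) (htm : 23 / 4 ≤ ∑ a, (1 + (L a).re)) :
    PW L 6 x := by
  have hE := E6 (N := N) (by omega) (x := x) (by linarith) (by linarith)
  refine box (N := N) (p := 1) (h := 2) (a := 3) (b := 2) (by norm_num) (by omega) hL
    (x := x) (x0 := 1 / 4) (x1 := 1 / 2) (W := 11 / 5) (by norm_num) h0 h1 (by norm_num) (by norm_num)
    (OmB (by linarith) (by linarith))
    (β := fun j => if j = 1 then 10258 / 715 else if j = 2 then 2294 / 429 else if j = 3 then 29111 / 858 else if j = 4 then 3943 / 572 else if j = 5 then 247515 / 18304 else 0) ?_ ?_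
    htp htm hE.1 hE.2
    (ρ := fun j => if j = 2 then 2 / 9 else if j = 3 then 3 / 8 else if j = 4 then 4 / 7 else if j = 5 then 5 / 6 else if j = 6 then 6 / 5 else 0)
    ?_ ?_ ?_
  · intro j
    split_ifs <;> norm_num
  · intro r hr
    have e5 : 2 * 2 + 1 = 5 := rfl
    rw [e5, bd_1_3_2, bd_1_2_3]
    simp only [Finset.sum_range_succ, Finset.sum_range_zero]
    norm_num [Nat.choose]
    apply le_of_eq
    ring
  · intro j
    split_ifs <;> norm_num
  · intro j hj1 hj2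
    have hj3 : j ≤ 6 := hj2
    interval_cases j <;> norm_num
  · norm_num [Finset.sum_range_succ, Finset.prod_range_succ, bfx, tt, gam, Nat.choose]

theorem box_6_2 {N : ℕ} (hN : 7 ≤ N) {L : Fin N → ℂ} (hL : ∀ a, ‖L a‖ ≤ 1) {x : ℝ}
    (h0 : 1 / 2 ≤ x) (h1 : x ≤ 3 / 5) (htp : 25 / 4 ≤ ∑ a, (1 - (L a).re)) (htm : 23 / 4 ≤ ∑ a, (1 + (L a).re)) :
    PW L 6 x := by
  have hE := E6 (N := N) (by omega) (x := x) (by linarith) (by linarith)
  refine box (N := N) (p := 1) (h := 2) (a := 4) (b := 1) (by norm_num) (by omega) hL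
    (x := x) (x0 := 1 / 2) (x1 := 3 / 5) (W := 3 / 2) (by norm_num) h0 h1 (by norm_num) (by norm_num)
    (OmC (by linarith) (by linarith))
    (β := fun j => if j = 1 then 5377 / 429 else if j = 2 then 9052 / 715 else if j = 3 then 126979 / 4290 else if j = 4 then 6449 / 715 else if j = 5 then 18457 / 2640 else 0) ?_ ?_
    htp htm hE.1 hE.2
    (ρ := fun j => if j = 2 then 4 / 17 else if j = 3 then 30 / 73 else if j = 4 then 40 / 61 else if j = 5 then 50 / 49 else if j = 6 then 60 / 37 else 0)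
    ?_ ?_ ?_
  · intro j
    split_ifs <;> norm_num
  · intro r hr
    have e5 : 2 * 2 + 1 = 5 := rfl
    rw [e5, bd_1_4_1, bd_1_1_4]
    simp only [Finset.sum_range_succ, Finset.sum_range_zero]
    norm_num [Nat.choose]
    apply le_of_eq
    ring
  · intro j
    split_ifs <;> norm_num
  · intro j hj1 hj2
    have hj3 : j ≤ 6 := hj2
    interval_cases j <;> norm_num
  · norm_num [Finset.sum_range_succ, Finset.prod_range_succ, bfx, tt, gam, Nat.choose]

theorem box_6_3 {N : ℕ} (hN : 7 ≤ N) {L : Fin N → ℂ} (hL : ∀ a, ‖L a‖ ≤ 1) {x : ℝ}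
    (h0 : 3 / 5 ≤ x) (h1 : x ≤ 7 / 10) (htp : 25 / 4 ≤ ∑ a, (1 - (L a).re)) (htm : 23 / 4 ≤ ∑ a, (1 + (L a).re)) :
    PW L 6 x := by
  have hE := E6 (N := N) (by omega) (x := x) (by linarith) (by linarith)
  refine box (N := N) (p := 1) (h := 2) (a := 4) (b := 1) (by norm_num) (by omega) hL
    (x := x) (x0 := 3 / 5) (x1 := 7 / 10) (W := 7 / 5) (by norm_num) h0 h1 (by norm_num) (by norm_num)
    (OmD (by linarith) (by linarith))
    (β := fun j => if j = 1 then 25598 / 2145 else if j = 2 then 1972 / 165 else if j = 3 then 33624 / 1375 else if j = 4 then 369088 / 53625 else if j = 5 then 6398608 / 1340625 else 0) ?_ ?_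
    htp htm hE.1 hE.2
    (ρ := fun j => if j = 2 then 1 / 4 else if j = 3 then 5 / 11 else if j = 4 then 10 / 13 else if j = 5 then 25 / 19 else if j = 6 then 5 / 2 else 0)
    ?_ ?_ ?_
  · intro j
    split_ifs <;> norm_num
  · intro r hr
    have e5 : 2 * 2 + 1 = 5 := rfl
    rw [e5, bd_1_4_1, bd_1_1_4]
    simp only [Finset.sum_range_succ, Finset.sum_range_zero]
    norm_num [Nat.choose]
    apply le_of_eq
    ring
  · intro j
    split_ifs <;> norm_num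
  · intro j hj1 hj2
    have hj3 : j ≤ 6 := hj2
    interval_cases j <;> norm_num
  · norm_num [Finset.sum_range_succ, Finset.prod_range_succ, bfx, tt, gam, Nat.choose]

theorem box_7_0 {N : ℕ} (hN : 8 ≤ N) {L : Fin N → ℂ} (hL : ∀ a, ‖L a‖ ≤ 1) {x : ℝ}
    (h0 : 0 ≤ x) (h1 : x ≤ 1 / 4) (htp : 29 / 4 ≤ ∑ a, (1 - (L a).re)) (htm : 27 / 4 ≤ ∑ a, (1 + (L a).re)) :
    PW L 7 x := by
  have hE := E7 (N := N) (by omega) (x := x) (by linarith) (by linarith)
  refine box (N := N) (p := 2) (h := 2) (a := 3) (b := 2) (by norm_num) (by omega) hL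
    (x := x) (x0 := 0) (x1 := 1 / 4) (W := 2) (by norm_num) h0 h1 (by norm_num) (by norm_num)
    (OmA (by linarith) (by linarith))
    (β := fun j => if j = 1 then 6423 / 143 else if j = 2 then 7863 / 572 else if j = 3 then 123921 / 1144 else if j = 4 then 249 / 13 else if j = 5 then 54531 / 1144 else 0) ?_ ?_
    htp htm hE.1 hE.2
    (ρ := fun j => if j = 2 then 8 / 49 else if j = 3 then 12 / 47 else if j = 4 then 16 / 45 else if j = 5 then 20 / 43 else if j = 6 then 24 / 41 else if j = 7 then 28 / 39 else 0)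
    ?_ ?_ ?_
  · intro j
    split_ifs <;> norm_num
  · intro r hr
    have e5 : 2 * 2 + 1 = 5 := rfl
    rw [e5, bd_2_3_2, bd_2_2_3]
    simp only [Finset.sum_range_succ, Finset.sum_range_zero]
    norm_num [Nat.choose]
    apply le_of_eq
    ring
  · intro j
    split_ifs <;> norm_num
  · intro j hj1 hj2
    have hj3 : j ≤ 7 := hj2
    interval_cases j <;> norm_num
  · norm_num [Finset.sum_range_succ, Finset.prod_range_succ, bfx, tt, gam, Nat.choose]

theorem box_7_1 {N : ℕ} (hN : 8 ≤ N) {L : Fin N → ℂ} (hL : ∀ a, ‖L a‖ ≤ 1) {x : ℝ}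
    (h0 : 1 / 4 ≤ x) (h1 : x ≤ 1 / 2) (htp : 29 / 4 ≤ ∑ a, (1 - (L a).re)) (htm : 27 / 4 ≤ ∑ a, (1 + (L a).re)) :
    PW L 7 x := by
  have hE := E7 (N := N) (by omega) (x := x) (by linarith) (by linarith)
  refine box (N := N) (p := 2) (h := 2) (a := 3) (b := 2) (by norm_num) (by omega) hL
    (x := x) (x0 := 1 / 4) (x1 := 1 / 2) (W := 11 / 5) (by norm_num) h0 h1 (by norm_num) (by norm_num)
    (OmB (by linarith) (by linarith))
    (β := fun j => if j = 1 then 35118 / 715 else if j = 2 then 597 / 44 else if j = 3 then 251319 / 2288 else if j = 4 then 158823 / 9152 else if j = 5 then 1662363 / 36608 else 0) ?_ ?_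
    htp htm hE.1 hE.2
    (ρ := fun j => if j = 2 then 2 / 11 else if j = 3 then 3 / 10 else if j = 4 then 4 / 9 else if j = 5 then 5 / 8 else if j = 6 then 6 / 7 else if j = 7 then 7 / 6 else 0)
    ?_ ?_ ?_
  · intro j
    split_ifs <;> norm_num
  · intro r hr
    have e5 : 2 * 2 + 1 = 5 := rfl
    rw [e5, bd_2_3_2, bd_2_2_3]
    simp only [Finset.sum_range_succ, Finset.sum_range_zero]
    norm_num [Nat.choose]
    apply le_of_eq
    ring
  · intro j
    split_ifs <;> norm_num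
  · intro j hj1 hj2
    have hj3 : j ≤ 7 := hj2
    interval_cases j <;> norm_num
  · norm_num [Finset.sum_range_succ, Finset.prod_range_succ, bfx, tt, gam, Nat.choose]

theorem box_7_2 {N : ℕ} (hN : 8 ≤ N) {L : Fin N → ℂ} (hL : ∀ a, ‖L a‖ ≤ 1) {x : ℝ}
    (h0 : 1 / 2 ≤ x) (h1 : x ≤ 3 / 5) (htp : 29 / 4 ≤ ∑ a, (1 - (L a).re)) (htm : 27 / 4 ≤ ∑ a, (1 + (L a).re)) :
    PW L 7 x := by
  have hE := E7 (N := N) (by omega) (x := x) (by linarith) (by linarith)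
  refine box (N := N) (p := 2) (h := 2) (a := 4) (b := 1) (by norm_num) (by omega) hL
    (x := x) (x0 := 1 / 2) (x1 := 3 / 5) (W := 3 / 2) (by norm_num) h0 h1 (by norm_num) (by norm_num)
    (OmC (by linarith) (by linarith))
    (β := fun j => if j = 1 then 11835 / 286 else if j = 2 then 5013 / 143 else if j = 3 then 260727 / 2860 else if j = 4 then 68967 / 2860 else if j = 5 then 47313 / 2080 else 0) ?_ ?_
    htp htm hE.1 hE.2
    (ρ := fun j => if j = 2 then 4 / 21 else if j = 3 then 10 / 31 else if j = 4 then 40 / 81 else if j = 5 then 50 / 69 else if j = 6 then 20 / 19 else if j = 7 then 14 / 9 else 0)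
    ?_ ?_ ?_
  · intro j
    split_ifs <;> norm_num
  · intro r hr
    have e5 : 2 * 2 + 1 = 5 := rfl
    rw [e5, bd_2_4_1, bd_2_1_4]
    simp only [Finset.sum_range_succ, Finset.sum_range_zero]
    norm_num [Nat.choose]
    apply le_of_eq
    ring
  · intro j
    split_ifs <;> norm_num
  · intro j hj1 hj2
    have hj3 : j ≤ 7 := hj2
    interval_cases j <;> norm_num
  · norm_num [Finset.sum_range_succ, Finset.prod_range_succ, bfx, tt, gam, Nat.choose]

theorem box_7_3 {N : ℕ} (hN : 8 ≤ N) {L : Fin N → ℂ} (hL : ∀ a, ‖L a‖ ≤ 1) {x : ℝ}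
    (h0 : 3 / 5 ≤ x) (h1 : x ≤ 7 / 10) (htp : 29 / 4 ≤ ∑ a, (1 - (L a).re)) (htm : 27 / 4 ≤ ∑ a, (1 + (L a).re)) :
    PW L 7 x := by
  have hE := E7 (N := N) (by omega) (x := x) (by linarith) (by linarith)
  refine box (N := N) (p := 2) (h := 2) (a := 4) (b := 1) (by norm_num) (by omega) hL
    (x := x) (x0 := 3 / 5) (x1 := 7 / 10) (W := 7 / 5) (by norm_num) h0 h1 (by norm_num) (by norm_num)
    (OmD (by linarith) (by linarith))
    (β := fun j => if j = 1 then 28086 / 715 else if j = 2 then 23649 / 715 else if j = 3 then 1338432 / 17875 else if j = 4 then 326286 / 17875 else if j = 5 then 6911616 / 446875 else 0) ?_ ?_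
    htp htm hE.1 hE.2
    (ρ := fun j => if j = 2 then 1 / 5 else if j = 3 then 15 / 43 else if j = 4 then 5 / 9 else if j = 5 then 25 / 29 else if j = 6 then 15 / 11 else if j = 7 then 7 / 3 else 0)
    ?_ ?_ ?_
  · intro j
    split_ifs <;> norm_num
  · intro r hr
    have e5 : 2 * 2 + 1 = 5 := rfl
    rw [e5, bd_2_4_1, bd_2_1_4]
    simp only [Finset.sum_range_succ, Finset.sum_range_zero]
    norm_num [Nat.choose]
    apply le_of_eq
    ring
  · intro j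
    split_ifs <;> norm_num
  · intro j hj1 hj2
    have hj3 : j ≤ 7 := hj2
    interval_cases j <;> norm_num
  · norm_num [Finset.sum_range_succ, Finset.prod_range_succ, bfx, tt, gam, Nat.choose]

theorem cth_ge {N k : ℕ} (hk : 5 ≤ k) : (k:ℝ) + 1 / 4 ≤ thr N k := by
  unfold thr Pool.Agent.HHalfC.cth
  rw [if_neg (by omega)]
  split_ifs <;> first | omega | linarith

theorem pw_six {N : ℕ} (hN : 7 ≤ N) {L : Fin N → ℂ} (hL : ∀ a, ‖L a‖ ≤ 1) {x : ℝ}
    (h0 : 0 ≤ x) (h1 : x ≤ 7 / 10) (htp : thr N 6 < ∑ a, (1 - (L a).re)) : PW L 6 x := by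
  have hx : x ∈ Icc (-1:ℝ) 1 := ⟨by linarith, by linarith⟩
  by_cases ho : ∑ a, (1 + (L a).re) ≤ ((6:ℕ):ℝ) - 1 / 4
  · intro g hg hb
    exact Pool.Agent.HHalfC.pointwise_opp hL (by norm_num) (by omega) hx (Or.inl ⟨h0, ho⟩) hg hb
  · push Not at ho
    have hp : (25 / 4 : ℝ) ≤ ∑ a, (1 - (L a).re) := by
      have := cth_ge (N := N) (k := 6) (by norm_num)
      push_cast at this
      linarith
    have hm : (23 / 4 : ℝ) ≤ ∑ a, (1 + (L a).re) := by
      push_cast at ho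
      linarith
    rcases le_total x (1 / 4) with c1 | c1
    · exact box_6_0 hN hL h0 c1 hp hm
    · rcases le_total x (1 / 2) with c2 | c2
      · exact box_6_1 hN hL c1 c2 hp hm
      · rcases le_total x (3 / 5) with c3 | c3
        · exact box_6_2 hN hL c2 c3 hp hm
        · exact box_6_3 hN hL c3 h1 hp hm

theorem pw_seven {N : ℕ} (hN : 8 ≤ N) {L : Fin N → ℂ} (hL : ∀ a, ‖L a‖ ≤ 1) {x : ℝ}
    (h0 : 0 ≤ x) (h1 : x ≤ 7 / 10) (htp : thr N 7 < ∑ a, (1 - (L a).re)) : PW L 7 x := by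
  have hx : x ∈ Icc (-1:ℝ) 1 := ⟨by linarith, by linarith⟩
  by_cases ho : ∑ a, (1 + (L a).re) ≤ ((7:ℕ):ℝ) - 1 / 4
  · intro g hg hb
    exact Pool.Agent.HHalfC.pointwise_opp hL (by norm_num) (by omega) hx (Or.inl ⟨h0, ho⟩) hg hb
  · push Not at ho
    have hp : (29 / 4 : ℝ) ≤ ∑ a, (1 - (L a).re) := by
      have := cth_ge (N := N) (k := 7) (by norm_num)
      push_cast at this
      linarith
    have hm : (27 / 4 : ℝ) ≤ ∑ a, (1 + (L a).re) := by
      push_cast at ho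
      linarith
    rcases le_total x (1 / 4) with c1 | c1
    · exact box_7_0 hN hL h0 c1 hp hm
    · rcases le_total x (1 / 2) with c2 | c2
      · exact box_7_1 hN hL c1 c2 hp hm
      · rcases le_total x (3 / 5) with c3 | c3
        · exact box_7_2 hN hL c2 c3 hp hm
        · exact box_7_3 hN hL c3 h1 hp hm

end Pool.Agent.HMidB
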