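import Pool.Agent.HMidB.Star
import Pool.Agent.HHalf.MHG
import Pool.Agent.HHalf.NCC
import Pool.Agent.ConjInterp.Reduce

/-!
# The `(n+1)`-point form

For `F = ω h`, `φ = F^(n)`, `|x| < 1`:
`(n!/k!) F^(k)(x) = ∑_{j ≤ k} H_{k-j} ω(x) E[W^j φ^(j)(Z)/j!]`, `Z = W x + ∑ w_i z_i` the average of
`x, z_1, ..., z_n` with the weights of the uniform law of the simplex, `W` the weight of `x`.
-/

set_option autoImplicit false

namespace Pool.Agent.HMidB

open Complex Set MeasureTheory ComplexConjugate Filter Topology Polynomial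
open Pool.Agent.HHalf

/-- The weight of the coordinate `0`. -/
noncomputable def WW {n : ℕ} (X : Fin (n + 1) → ℝ) : ℝ := X 0 / TT X

theorem DD_cons {n : ℕ} (x : ℂ) (z : Fin n → ℂ) (X : Fin (n + 1) → ℝ) :
    DD (Fin.cons x z : Fin (n + 1) → ℂ) X =
      (WW X : ℂ) * x + (∑ i : Fin n, (X i.succ : ℂ) * z i) / (TT X : ℂ) := by
  unfold DD WW
  rw [Fin.sum_univ_succ, Fin.cons_zero, add_div]
  congr 1
  push_cast
  ring

theorem WW_nonneg {n : ℕ} {X : Fin (n + 1) → ℝ} (hX : ∀ i, 0 < X i) : 0 ≤ WW X :=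
  div_nonneg (hX 0).le (TT_nonneg hX)

theorem WW_le_one {n : ℕ} {X : Fin (n + 1) → ℝ} (hX : ∀ i, 0 < X i) : WW X ≤ 1 := by
  unfold WW
  rw [div_le_one (TT_pos hX)]
  exact coord_le_TT hX 0

theorem measurable_WW (n : ℕ) : Measurable (fun X : Fin (n + 1) → ℝ => WW X) := by
  unfold WW
  exact (measurable_pi_apply 0).div (measurable_TT _)

theorem ae_WW (n : ℕ) : ∀ᵐ X ∂mu (n + 1), |WW (n := n) X| ≤ 1 := by
  filter_upwards [mu_pos (n + 1)] with X hX
  rw [abs_of_nonneg (WW_nonneg hX)]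
  exact WW_le_one hX

theorem norm_cons_le {n : ℕ} {x : ℂ} (hx : ‖x‖ ≤ 1) {z : Fin n → ℂ} (hz : ∀ i, ‖z i‖ ≤ 1) :
    ∀ i : Fin (n + 1), ‖(Fin.cons x z : Fin (n + 1) → ℂ) i‖ ≤ 1 := by
  intro i
  refine Fin.cases ?_ (fun i => ?_) i
  · rw [Fin.cons_zero]
    exact hx
  · rw [Fin.cons_succ]
    exact hz i

theorem ae_DD {n : ℕ} {x : ℂ} (hx : ‖x‖ ≤ 1) {z : Fin n → ℂ} (hz : ∀ i, ‖z i‖ ≤ 1) :
    ∀ᵐ X ∂mu (n + 1), ‖DD (Fin.cons x z : Fin (n + 1) → ℂ) X‖ ≤ 1 := by
  filter_upwards [mu_pos (n + 1)] with X hX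
  exact norm_DD_le (norm_cons_le hx hz) hX

/-- `E[W^j g(Z_x)]`. -/
noncomputable def Gj {n : ℕ} (z : Fin n → ℂ) (g : ℂ → ℂ) (j : ℕ) (x : ℂ) : ℂ :=
  ∫ X, (WW X : ℂ) ^ j * g (DD (Fin.cons x z : Fin (n + 1) → ℂ) X) ∂mu (n + 1)

theorem hasDerivAt_Gj {n : ℕ} {z : Fin n → ℂ} (hz : ∀ i, ‖z i‖ ≤ 1) {g : ℂ → ℂ}
    (hg : Differentiable ℂ g) (j : ℕ) {x : ℂ} (hx : ‖x‖ < 1) :
    HasDerivAt (Gj z g j) (Gj z (deriv g) (j + 1) x) x := by
  have hg' : Continuous (deriv g) := (hg.contDiff (n := 1)).continuous_deriv (by simp)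
  obtain ⟨K, hK0, hK⟩ := bd_disc hg'
  obtain ⟨K0, hK00, hK0'⟩ := bd_disc hg.continuous
  have hδ : 0 < 1 - ‖x‖ := by linarith
  have hball : ∀ y ∈ Metric.ball x (1 - ‖x‖), ‖y‖ ≤ 1 := by
    intro y hy
    rw [Metric.mem_ball, dist_eq_norm] at hy
    have := norm_add_le x (y - x)
    rw [add_sub_cancel] at this
    linarith
  have hmeas : ∀ (f : ℂ → ℂ), Continuous f → ∀ i : ℕ, ∀ y : ℂ,
      AEStronglyMeasurable (fun X : Fin (n + 1) → ℝ =>
        (WW X : ℂ) ^ i * f (DD (Fin.cons y z : Fin (n + 1) → ℂ) X)) (mu (n + 1)) := by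
    intro f hf i y
    refine Measurable.aestronglyMeasurable ?_
    exact ((Complex.measurable_ofReal.comp (measurable_WW n)).pow_const i).mul
      (hf.measurable.comp (measurable_DD _))
  have hW : ∀ᵐ X ∂mu (n + 1), |WW (n := n) X| ≤ 1 := ae_WW n
  refine (hasDerivAt_integral_of_dominated_loc_of_deriv_le (𝕜 := ℂ)
    (F := fun y X => (WW X : ℂ) ^ j * g (DD (Fin.cons y z : Fin (n + 1) → ℂ) X))
    (F' := fun y X => (WW X : ℂ) ^ (j + 1) * deriv g (DD (Fin.cons y z : Fin (n + 1) → ℂ) X))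
    (bound := fun _ => K) (Metric.ball_mem_nhds x hδ) ?_ ?_ ?_ ?_ ?_ ?_).2
  · exact Filter.Eventually.of_forall fun y => hmeas g hg.continuous j y
  · refine Integrable.of_bound (C := K0) (hmeas g hg.continuous j x) ?_
    filter_upwards [hW, ae_DD hx.le hz] with X h1 h2
    rw [norm_mul, norm_pow, Complex.norm_real, Real.norm_eq_abs]
    calc |WW X| ^ j * ‖g (DD (Fin.cons x z : Fin (n + 1) → ℂ) X)‖ ≤ 1 * K0 :=
          mul_le_mul (pow_le_one₀ (abs_nonneg _) h1) (hK0' _ h2) (norm_nonneg _) (by norm_num)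
      _ = K0 := one_mul _
  · exact hmeas (deriv g) hg' (j + 1) x
  · filter_upwards [mu_pos (n + 1)] with X hX y hy
    have h1 : |WW X| ≤ 1 := by
      rw [abs_of_nonneg (WW_nonneg hX)]
      exact WW_le_one hX
    have h2 := norm_DD_le (norm_cons_le (hball y hy) hz) hX
    rw [norm_mul, norm_pow, Complex.norm_real, Real.norm_eq_abs]
    calc |WW X| ^ (j + 1) * ‖deriv g (DD (Fin.cons y z : Fin (n + 1) → ℂ) X)‖ ≤ 1 * K :=
          mul_le_mul (pow_le_one₀ (abs_nonneg _) h1) (hK _ h2) (norm_nonneg _) (by norm_num)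
      _ = K := one_mul _
  · exact integrable_const _
  · refine Filter.Eventually.of_forall fun X y _ => ?_
    have h1 : HasDerivAt (fun y : ℂ => DD (Fin.cons y z : Fin (n + 1) → ℂ) X) (WW X : ℂ) y := by
      have e : (fun y : ℂ => DD (Fin.cons y z : Fin (n + 1) → ℂ) X) = fun y : ℂ =>
          (WW X : ℂ) * y + (∑ i : Fin n, (X i.succ : ℂ) * z i) / (TT X : ℂ) := by
        funext y
        exact DD_cons y z X
      rw [e]
      simpa using ((hasDerivAt_id y).const_mul (WW X : ℂ)).add_const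
        ((∑ i : Fin n, (X i.succ : ℂ) * z i) / (TT X : ℂ))
    have h2 := (hg (DD (Fin.cons y z : Fin (n + 1) → ℂ) X)).hasDerivAt.comp y h1
    have h3 := h2.const_mul ((WW X : ℂ) ^ j)
    refine h3.congr_deriv ?_
    ring

/-- All derivatives of `E φ(Z_x)`. -/
theorem iteratedDeriv_G {n : ℕ} {z : Fin n → ℂ} (hz : ∀ i, ‖z i‖ ≤ 1) {g : ℂ → ℂ}
    (hg : Differentiable ℂ g) (j : ℕ) : ∀ {x : ℂ}, ‖x‖ < 1 →
    iteratedDeriv j (Gj z g 0) x = Gj z (iteratedDeriv j g) j x := by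
  induction j with
  | zero =>
    intro x _
    rw [iteratedDeriv_zero]
    rfl
  | succ j ih =>
    intro x hx
    rw [iteratedDeriv_succ]
    have hopen : IsOpen {w : ℂ | ‖w‖ < 1} := isOpen_lt continuous_norm continuous_const
    have hev : iteratedDeriv j (Gj z g 0) =ᶠ[𝓝 x] Gj z (iteratedDeriv j g) j := by
      filter_upwards [hopen.mem_nhds hx] with y hy
      exact ih hy
    rw [hev.deriv_eq]
    have hd : Differentiable ℂ (iteratedDeriv j g) := ConjInterp.entire_iteratedDeriv hg j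
    rw [(hasDerivAt_Gj hz hd j hx).deriv, ← iteratedDeriv_succ]

/-- The `(n+1)`-point form. -/
theorem rep {n : ℕ} {z : Fin n → ℂ} (hz : ∀ i, ‖z i‖ ≤ 1) {h : ℂ → ℂ} (hh : Differentiable ℂ h)
    (k : ℕ) {x : ℂ} (hx : ‖x‖ < 1) :
    (n.factorial : ℂ) * iteratedDeriv k (fun w => (∏ i, (w - z i)) * h w) x =
      (k.factorial : ℂ) * ∑ j ∈ Finset.range (k + 1), (hasseDeriv (k - j) (om z)).eval x *
        mom (mu (n + 1)) WW (DD (Fin.cons x z : Fin (n + 1) → ℂ))
          (iteratedDeriv n (fun w => (∏ i, (w - z i)) * h w)) j := by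
  set φ : ℂ → ℂ := iteratedDeriv n (fun w => (∏ i, (w - z i)) * h w) with hφ
  have hφd : Differentiable ℂ φ := ConjInterp.entire_iteratedDeriv (entire_prod_mul z hh) n
  have hopen : IsOpen {w : ℂ | ‖w‖ < 1} := isOpen_lt continuous_norm continuous_const
  -- `n! h = E φ(Z)` near `x`
  have hG : ∀ y : ℂ, ‖y‖ < 1 → Gj z φ 0 y = (n.factorial : ℂ) * h y := by
    intro y hy
    have h1 := hg n (Fin.cons y z : Fin (n + 1) → ℂ) (norm_cons_le hy.le hz) h hh
    simp only [Fin.cons_succ, Fin.cons_zero] at h1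
    rw [← h1]
    unfold Gj
    simp only [pow_zero, one_mul]
    rfl
  have hhj : ∀ j : ℕ, (n.factorial : ℂ) * iteratedDeriv j h x =
      (j.factorial : ℂ) * mom (mu (n + 1)) WW (DD (Fin.cons x z : Fin (n + 1) → ℂ)) φ j := by
    intro j
    have h1 := iteratedDeriv_G hz hφd j hx
    have hev : Gj z φ 0 =ᶠ[𝓝 x] fun y => (n.factorial : ℂ) * h y := by
      filter_upwards [hopen.mem_nhds hx] with y hy
      exact hG y hy
    rw [hev.iteratedDeriv_eq, iteratedDeriv_const_mul_field] at h1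
    rw [h1]
    unfold Gj mom
    rw [← MeasureTheory.integral_const_mul]
    congr 1
    funext X
    have hf : (j.factorial : ℂ) ≠ 0 := by exact_mod_cast j.factorial_ne_zero
    field_simp
  -- Leibniz
  have hom : (fun w => (∏ i, (w - z i)) * h w) = fun w => (om z).eval w * h w := by
    funext w
    unfold om
    rw [eval_prod]
    simp only [eval_sub, eval_X, eval_C]
  have hP : ContDiffAt ℂ k (fun w => (om z).eval w) x := (om z).differentiable.contDiff.contDiffAt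
  have hhc : ContDiffAt ℂ k h x := hh.contDiff.contDiffAt
  rw [hom, iteratedDeriv_fun_mul hP hhc, Finset.mul_sum, Finset.mul_sum]
  have hrefl := Finset.sum_range_reflect (fun i => (n.factorial : ℂ) *
    ((k.choose i : ℂ) * iteratedDeriv i (fun w => (om z).eval w) x * iteratedDeriv (k - i) h x))
    (k + 1)
  rw [← hrefl]
  refine Finset.sum_congr rfl fun j hj => ?_
  have hjk : j ≤ k := by
    have := Finset.mem_range.1 hj
    omega
  have e1 : k + 1 - 1 - j = k - j := by omega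
  have e2 : k - (k - j) = j := by omega
  rw [e1, e2]
  have hD : iteratedDeriv (k - j) (fun w => (om z).eval w) x =
      ((k - j).factorial : ℂ) * (hasseDeriv (k - j) (om z)).eval x := by
    rw [ConjInterp.iter_poly, ← Polynomial.factorial_smul_hasseDeriv]
    simp
  rw [hD]
  have hc : ((k.choose (k - j) : ℕ) : ℂ) * ((k - j).factorial : ℂ) * (j.factorial : ℂ) =
      (k.factorial : ℂ) := by
    have := Nat.choose_mul_factorial_mul_factorial (Nat.sub_le k j)
    rw [e2] at this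
    exact_mod_cast this
  calc (n.factorial : ℂ) * ((k.choose (k - j) : ℂ) * (((k - j).factorial : ℂ) *
        (hasseDeriv (k - j) (om z)).eval x) * iteratedDeriv j h x)
      = (k.choose (k - j) : ℂ) * ((k - j).factorial : ℂ) * (hasseDeriv (k - j) (om z)).eval x *
        ((n.factorial : ℂ) * iteratedDeriv j h x) := by ring
    _ = (k.choose (k - j) : ℂ) * ((k - j).factorial : ℂ) * (hasseDeriv (k - j) (om z)).eval x *
        ((j.factorial : ℂ) * mom (mu (n + 1)) WW (DD (Fin.cons x z : Fin (n + 1) → ℂ)) φ j) := by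
        rw [hhj j]
    _ = (((k.choose (k - j) : ℕ) : ℂ) * ((k - j).factorial : ℂ) * (j.factorial : ℂ)) *
        ((hasseDeriv (k - j) (om z)).eval x *
          mom (mu (n + 1)) WW (DD (Fin.cons x z : Fin (n + 1) → ℂ)) φ j) := by ring
    _ = _ := by rw [hc]

/-- **The star inequality at `x` implies the bound at `x`.** -/
theorem star_bound {n : ℕ} {z : Fin n → ℂ} (hz : ∀ i, ‖z i‖ ≤ 1) (k : ℕ) {x : ℂ} (hx : ‖x‖ < 1)
    {h : ℂ → ℂ} (hh : Differentiable ℂ h)
    (hb : ∀ w, ‖w‖ ≤ 1 → ‖iteratedDeriv n (fun w => (∏ i, (w - z i)) * h w) w‖ ≤ 1)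
    {M : ℝ} (hreal : ((hasseDeriv k (om z)).eval x).im = 0)
    (hM : |((hasseDeriv k (om z)).eval x).re| ≤ M)
    (hstar : ∀ u : ℂ, ‖u‖ < 1 →
      |(∑ j ∈ Finset.range k, (hasseDeriv (k - (j + 1)) (om z)).eval x *
        kmom (mu (n + 1)) WW (DD (Fin.cons x z : Fin (n + 1) → ℂ)) u (j + 1)).re| ≤
        M * (kmom (mu (n + 1)) WW (DD (Fin.cons x z : Fin (n + 1) → ℂ)) u 0).re) :
    ‖iteratedDeriv k (fun w => (∏ i, (w - z i)) * h w) x‖ ≤
      (k.factorial : ℝ) / (n.factorial : ℝ) * M := by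
  have hφd : Differentiable ℂ (iteratedDeriv n (fun w => (∏ i, (w - z i)) * h w)) :=
    ConjInterp.entire_iteratedDeriv (entire_prod_mul z hh) n
  have h1 := star_abs (μ := mu (n + 1)) (measurable_DD (Fin.cons x z : Fin (n + 1) → ℂ))
    (measurable_WW n) (ae_DD hx.le hz) (ae_WW n)
    (a := fun j => (hasseDeriv (k - j) (om z)).eval x) (by simpa using hreal) k
    (by simpa using hM) hstar hφd hb
  have h2 := congrArg norm (rep hz hh k hx)
  rw [norm_mul, norm_mul, Complex.norm_natCast, Complex.norm_natCast] at h2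
  have hn : (0:ℝ) < (n.factorial : ℝ) := by exact_mod_cast n.factorial_pos
  have h3 : (n.factorial : ℝ) * ‖iteratedDeriv k (fun w => (∏ i, (w - z i)) * h w) x‖ ≤
      (k.factorial : ℝ) * M := by
    rw [h2]
    exact mul_le_mul_of_nonneg_left h1 (Nat.cast_nonneg _)
  rw [div_mul_eq_mul_div, le_div_iff₀ hn]
  linarith

end Pool.Agent.HMidB
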