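import Pool.Agent.HMidB.Kern

set_option autoImplicit false

namespace Pool.Agent.HMidB

open Complex Set MeasureTheory intervalIntegral ComplexConjugate Filter Topology

/-- The boundary values of the real part. -/
noncomputable def bv (g : ℂ → ℂ) (θ : ℝ) : ℝ := (g (exp (θ * I))).re

theorem continuous_bv {g : ℂ → ℂ} (hg : Differentiable ℂ g) : Continuous (bv g) := by
  unfold bv
  have := hg.continuous
  fun_prop

/-- `herglotzRieszKernel 0 (r w) (e^{iθ}) = kk 0 (r e^{-iθ}) w`. -/
theorem kernel_eq_kk {r : ℝ} (hr : 0 ≤ r) {w : ℂ} (hw : r * ‖w‖ < 1) (θ : ℝ) :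
    herglotzRieszKernel 0 ((r : ℂ) * w) (exp (θ * I)) = kk 0 (uu r θ) w := by
  have h1 : exp (θ * I) * exp (-(θ * I)) = 1 := by
    rw [← Complex.exp_add]
    simp
  have hne : 1 - uu r θ * w ≠ 0 := by
    apply kk_ne
    rw [norm_mul, norm_uu hr]
    exact hw
  have hne2 : exp (θ * I) - (r : ℂ) * w ≠ 0 := by
    intro h
    apply hne
    have h2 : exp (θ * I) = (r : ℂ) * w := by linear_combination h
    unfold uu
    linear_combination exp (-(θ * I)) * h2 - h1
  rw [herglotzRieszKernel_def]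
  unfold kk
  simp only [sub_zero, pow_zero, mul_one, zero_add, pow_one, if_true]
  rw [div_sub_one hne, div_eq_div_iff hne2 hne]
  unfold uu
  linear_combination (2 * (r : ℂ) * w) * (-h1)

/-- Poisson formula for the real part. -/
theorem schwarz_re {g : ℂ → ℂ} (hg : Differentiable ℂ g) {r : ℝ} (hr0 : 0 ≤ r) {w : ℂ}
    (hw : r * ‖w‖ < 1) :
    (g ((r : ℂ) * w)).re = (2 * Real.pi)⁻¹ * (TJ (bv g) r 0 w).re := by
  have hball : (r : ℂ) * w ∈ Metric.ball (0 : ℂ) 1 := by
    rw [mem_ball_zero_iff, norm_mul, Complex.norm_real, Real.norm_eq_abs, abs_of_nonneg hr0]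
    exact hw
  have hd : DiffContOnCl ℂ g (Metric.ball 0 1) := hg.diffContOnCl
  have hP := hd.circleAverage_re_herglotzRieszKernel_smul hball
  have hgc := hg.continuous
  have hK : ContinuousOn (herglotzRieszKernel 0 ((r : ℂ) * w)) (Metric.sphere 0 |(1 : ℝ)|) :=
    continuousOn_herglotzRieszKernel_sphere hball
  have hci2 : CircleIntegrable ((Complex.re ∘ herglotzRieszKernel 0 ((r : ℂ) * w)) • g) 0 1 := by
    apply ContinuousOn.circleIntegrable'
    exact (Complex.continuous_re.comp_continuousOn hK).smul hgc.continuousOn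
  have h2 := Complex.reCLM.circleAverage_comp_comm hci2
  simp only [Complex.reCLM_apply] at h2
  rw [hP] at h2
  have hcm : ∀ θ : ℝ, circleMap 0 1 θ = exp (θ * I) := by
    intro θ
    simp [circleMap]
  rw [← h2, Real.circleAverage_def, smul_eq_mul]
  congr 1
  unfold TJ
  have hcont : Continuous fun θ : ℝ => (bv g θ : ℂ) * kk 0 (uu r θ) w :=
    (Complex.continuous_ofReal.comp (continuous_bv hg)).mul (continuous_kk 0 hr0 hw)
  have h3 := Complex.reCLM.intervalIntegral_comp_comm (hcont.intervalIntegrable 0 (2 * Real.pi))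
    (μ := volume)
  simp only [Complex.reCLM_apply] at h3
  rw [← h3]
  refine intervalIntegral.integral_congr fun θ _ => ?_
  simp only [Function.comp_apply, Pi.smul_apply', hcm, kernel_eq_kk hr0 hw, Complex.real_smul,
    Complex.re_ofReal_mul, Complex.reCLM_apply]
  rw [mul_comm]
  rfl

/-- Two derivatives agree if the real parts agree near the point. -/
theorem deriv_eq_of_re {f g : ℂ → ℂ} {f' g' w : ℂ} (hf : HasDerivAt f f' w) (hg : HasDerivAt g g' w)
    (h : ∀ᶠ y in 𝓝 w, (f y).re = (g y).re) : f' = g' := by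
  have hd : HasDerivAt (fun y => f y - g y) (f' - g') w := hf.sub hg
  have hz : ∀ᶠ y in 𝓝 w, (f y - g y).re = 0 := by
    filter_upwards [h] with y hy
    rw [Complex.sub_re, hy, sub_self]
  -- along a line with direction `c`
  have key : ∀ c : ℂ, (c * (f' - g')).re = 0 := by
    intro c
    have hl : HasDerivAt (fun t : ℝ => w + (t : ℂ) * c) c 0 := by
      have h1 : HasDerivAt (fun t : ℝ => (t : ℂ)) 1 0 := Complex.ofRealCLM.hasDerivAt
      have h2 := (h1.mul_const c).const_add w
      rwa [one_mul] at h2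
    have hl0 : w + ((0 : ℝ) : ℂ) * c = w := by simp
    have hd' : HasDerivAt (fun y => f y - g y) (f' - g') (w + ((0 : ℝ) : ℂ) * c) := by
      rwa [hl0]
    have hc := hd'.scomp (0 : ℝ) hl
    have hre := Complex.reCLM.hasFDerivAt.comp_hasDerivAt (0 : ℝ) hc
    have hzero : HasDerivAt (Complex.reCLM ∘ ((fun y => f y - g y) ∘ fun t : ℝ => w + (t : ℂ) * c)) 0
        (0 : ℝ) := by
      have hev : ∀ᶠ t : ℝ in 𝓝 0, (Complex.reCLM ∘ ((fun y => f y - g y) ∘
          fun t : ℝ => w + (t : ℂ) * c)) t = (fun _ => (0:ℝ)) t := by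
        have hcont : Tendsto (fun t : ℝ => w + (t : ℂ) * c) (𝓝 0) (𝓝 w) := by
          have := hl.continuousAt.tendsto
          rwa [hl0] at this
        filter_upwards [hcont.eventually hz] with t ht
        simpa using ht
      exact (hasDerivAt_const (0:ℝ) (0:ℝ)).congr_of_eventuallyEq hev
    have := hre.unique hzero
    simpa using this
  have h1 := key 1
  have h2 := key I
  rw [one_mul] at h1
  rw [Complex.I_mul_re, neg_eq_zero] at h2
  have : f' - g' = 0 := Complex.ext h1 h2
  exact sub_eq_zero.1 this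

/-- Schwarz formula for the derivatives. -/
theorem schwarz_deriv {g : ℂ → ℂ} (hg : Differentiable ℂ g) {r : ℝ} (hr0 : 0 ≤ r) (hr1 : r ≤ 1)
    (j : ℕ) : ∀ {w : ℂ}, r * ‖w‖ < 1 →
    iteratedDeriv (j + 1) (fun w => g ((r : ℂ) * w)) w =
      ((j + 1).factorial : ℂ) * ((((2 * Real.pi)⁻¹ : ℝ) : ℂ) * TJ (bv g) r (j + 1) w) := by
  have hopen : IsOpen {w : ℂ | r * ‖w‖ < 1} :=
    isOpen_lt (continuous_const.mul continuous_norm) continuous_const
  have hgr : Differentiable ℂ fun w => g ((r : ℂ) * w) :=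
    hg.comp (differentiable_id.const_mul _)
  have hT : ∀ i {w : ℂ}, r * ‖w‖ < 1 → HasDerivAt
      (fun w => (((2 * Real.pi)⁻¹ : ℝ) : ℂ) * TJ (bv g) r i w)
      ((((2 * Real.pi)⁻¹ : ℝ) : ℂ) * ((i + 1 : ℕ) * TJ (bv g) r (i + 1) w)) w := by
    intro i w hw
    exact (hasDerivAt_TJ (continuous_bv hg) hr0 hr1 i hw).const_mul _
  induction j with
  | zero =>
    intro w hw
    rw [zero_add, iteratedDeriv_one]
    have h1 : HasDerivAt (fun w => g ((r : ℂ) * w)) (deriv (fun w => g ((r : ℂ) * w)) w) w :=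
      (hgr w).hasDerivAt
    have h2 := hT 0 hw
    have h3 := deriv_eq_of_re h1 h2 (by
      filter_upwards [hopen.mem_nhds hw] with y hy
      rw [schwarz_re hg hr0 hy, Complex.re_ofReal_mul])
    rw [h3]
    simp
  | succ j ih =>
    intro w hw
    rw [iteratedDeriv_succ]
    have hev : iteratedDeriv (j + 1) (fun w => g ((r : ℂ) * w)) =ᶠ[𝓝 w] fun w =>
        ((j + 1).factorial : ℂ) * ((((2 * Real.pi)⁻¹ : ℝ) : ℂ) * TJ (bv g) r (j + 1) w) := by
      filter_upwards [hopen.mem_nhds hw] with y hy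
      exact ih hy
    rw [hev.deriv_eq]
    have h2 := (hT (j + 1) hw).const_mul ((j + 1).factorial : ℂ)
    rw [h2.deriv, Nat.factorial_succ (j + 1)]
    push_cast
    ring

end Pool.Agent.HMidB
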