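import Pool.Agent.HMidB.Dual

/-!
# The star inequality implies the bound (abstract form)
-/

set_option autoImplicit false

namespace Pool.Agent.HMidB

open Complex Set MeasureTheory ComplexConjugate Filter Topology

variable {Ω : Type*} [MeasurableSpace Ω] {μ : Measure Ω} [IsProbabilityMeasure μ]

/-- `E[W^j g^(j)(Z)/j!]`. -/
noncomputable def mom (μ : Measure Ω) (W : Ω → ℝ) (Z : Ω → ℂ) (g : ℂ → ℂ) (j : ℕ) : ℂ :=
  ∫ ω, (W ω : ℂ) ^ j * (iteratedDeriv j g (Z ω) / (j.factorial : ℂ)) ∂μ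

/-- `E[W^j kk j u Z]`. -/
noncomputable def kmom (μ : Measure Ω) (W : Ω → ℝ) (Z : Ω → ℂ) (u : ℂ) (j : ℕ) : ℂ :=
  ∫ ω, (W ω : ℂ) ^ j * kk j u (Z ω) ∂μ

theorem integrable_mom {Z : Ω → ℂ} {W : Ω → ℝ} (hZm : Measurable Z) (hWm : Measurable W)
    (hZ : ∀ᵐ ω ∂μ, ‖Z ω‖ ≤ 1) (hW : ∀ᵐ ω ∂μ, |W ω| ≤ 1) {g : ℂ → ℂ} (hg : Differentiable ℂ g)
    (j : ℕ) : Integrable (fun ω => (W ω : ℂ) ^ j * (iteratedDeriv j g (Z ω) / (j.factorial : ℂ))) μ := by
  have hcd : Continuous (iteratedDeriv j g) :=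
    (hg.contDiff (n := ⊤)).continuous_iteratedDeriv j (by simp)
  obtain ⟨B, hB⟩ := (isCompact_closedBall (0:ℂ) 1).exists_bound_of_continuousOn hcd.continuousOn
  refine Integrable.of_bound (C := B / (j.factorial : ℝ)) ?_ ?_
  · refine Measurable.aestronglyMeasurable ?_
    exact ((Complex.measurable_ofReal.comp hWm).pow_const j).mul
      ((hcd.measurable.comp hZm).div_const _)
  · filter_upwards [hZ, hW] with ω h1 h2
    rw [norm_mul, norm_pow, Complex.norm_real, Real.norm_eq_abs, norm_div, Complex.norm_natCast]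
    have h3 : |W ω| ^ j ≤ 1 := pow_le_one₀ (abs_nonneg _) h2
    have h4 := hB (Z ω) (by simpa using h1)
    have h5 : ‖iteratedDeriv j g (Z ω)‖ / (j.factorial : ℝ) ≤ B / (j.factorial : ℝ) :=
      div_le_div_of_nonneg_right h4 (Nat.cast_nonneg _)
    calc |W ω| ^ j * (‖iteratedDeriv j g (Z ω)‖ / (j.factorial : ℝ)) ≤ 1 * (B / (j.factorial : ℝ)) :=
          mul_le_mul h3 h5 (by positivity) (by norm_num)
      _ = _ := one_mul _

theorem integrable_kmom {Z : Ω → ℂ} {W : Ω → ℝ} (hZm : Measurable Z) (hWm : Measurable W)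
    (hZ : ∀ᵐ ω ∂μ, ‖Z ω‖ ≤ 1) (hW : ∀ᵐ ω ∂μ, |W ω| ≤ 1) {u : ℂ} (hu : ‖u‖ < 1)
    (j : ℕ) : Integrable (fun ω => (W ω : ℂ) ^ j * kk j u (Z ω)) μ := by
  refine Integrable.of_bound (C := 2 / (1 - ‖u‖) ^ (j + 1) + 1) ?_ ?_
  · refine Measurable.aestronglyMeasurable ?_
    unfold kk
    refine Measurable.mul ((Complex.measurable_ofReal.comp hWm).pow_const j) ?_
    refine Measurable.sub (Measurable.div measurable_const ?_) measurable_const
    exact (measurable_const.sub (measurable_const.mul hZm)).pow_const _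
  · filter_upwards [hZ, hW] with ω h1 h2
    rw [norm_mul, norm_pow, Complex.norm_real, Real.norm_eq_abs]
    have h3 : |W ω| ^ j ≤ 1 := pow_le_one₀ (abs_nonneg _) h2
    have h4 : ‖u * Z ω‖ ≤ ‖u‖ := by
      rw [norm_mul]
      calc ‖u‖ * ‖Z ω‖ ≤ ‖u‖ * 1 := mul_le_mul_of_nonneg_left h1 (norm_nonneg _)
        _ = ‖u‖ := mul_one _
    have h5 := norm_kk_le j hu hu.le h4
    calc |W ω| ^ j * ‖kk j u (Z ω)‖ ≤ 1 * ‖kk j u (Z ω)‖ :=
          mul_le_mul_of_nonneg_right h3 (norm_nonneg _)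
      _ ≤ _ := by rwa [one_mul]

theorem integral_re_Lg {Z : Ω → ℂ} {W : Ω → ℝ} (hZm : Measurable Z) (hWm : Measurable W)
    (hZ : ∀ᵐ ω ∂μ, ‖Z ω‖ ≤ 1) (hW : ∀ᵐ ω ∂μ, |W ω| ≤ 1) (b : ℕ → ℂ) (k : ℕ) {g : ℂ → ℂ}
    (hg : Differentiable ℂ g) :
    ∫ ω, (Lg b k g (W ω) (Z ω)).re ∂μ =
      (∑ j ∈ Finset.range (k + 1), b j * mom μ W Z g j).re := by
  have hI : ∀ j ∈ Finset.range (k + 1), Integrable (fun ω => b j * ((W ω : ℂ) ^ j *
      (iteratedDeriv j g (Z ω) / (j.factorial : ℂ)))) μ := fun j _ =>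
    (integrable_mom hZm hWm hZ hW hg j).const_mul _
  have h1 : ∫ ω, Lg b k g (W ω) (Z ω) ∂μ = ∑ j ∈ Finset.range (k + 1), b j * mom μ W Z g j := by
    unfold Lg
    rw [integral_finsetSum _ hI]
    refine Finset.sum_congr rfl fun j _ => ?_
    rw [MeasureTheory.integral_const_mul]
    rfl
  have h2 : Integrable (fun ω => Lg b k g (W ω) (Z ω)) μ := by
    unfold Lg
    exact integrable_finsetSum _ hI
  rw [← h1]
  exact integral_re h2

theorem integral_re_Lk {Z : Ω → ℂ} {W : Ω → ℝ} (hZm : Measurable Z) (hWm : Measurable W)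
    (hZ : ∀ᵐ ω ∂μ, ‖Z ω‖ ≤ 1) (hW : ∀ᵐ ω ∂μ, |W ω| ≤ 1) (b : ℕ → ℂ) (k : ℕ) {u : ℂ}
    (hu : ‖u‖ < 1) :
    ∫ ω, (Lk b k u (W ω) (Z ω)).re ∂μ =
      (∑ j ∈ Finset.range (k + 1), b j * kmom μ W Z u j).re := by
  have hI : ∀ j ∈ Finset.range (k + 1), Integrable (fun ω => b j * ((W ω : ℂ) ^ j *
      kk j u (Z ω))) μ := fun j _ =>
    (integrable_kmom hZm hWm hZ hW hu j).const_mul _
  have h1 : ∫ ω, Lk b k u (W ω) (Z ω) ∂μ = ∑ j ∈ Finset.range (k + 1), b j * kmom μ W Z u j := by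
    unfold Lk
    rw [integral_finsetSum _ hI]
    refine Finset.sum_congr rfl fun j _ => ?_
    rw [MeasureTheory.integral_const_mul]
    rfl
  have h2 : Integrable (fun ω => Lk b k u (W ω) (Z ω)) μ := by
    unfold Lk
    exact integrable_finsetSum _ hI
  rw [← h1]
  exact integral_re h2

theorem iteratedDeriv_one_add (c : ℂ) {ψ : ℂ → ℂ} (hψ : Differentiable ℂ ψ) (j : ℕ) (w : ℂ) :
    iteratedDeriv (j + 1) (fun w => 1 + c * ψ w) w = c * iteratedDeriv (j + 1) ψ w := by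
  rw [iteratedDeriv_succ', iteratedDeriv_succ']
  have h1 : deriv (fun w => 1 + c * ψ w) = fun w => c * deriv ψ w := by
    funext w
    exact (((hψ w).hasDerivAt.const_mul c).const_add 1).deriv
  rw [h1, iteratedDeriv_const_mul_field]

omit [IsProbabilityMeasure μ] in
theorem mom_zero (W : Ω → ℝ) (Z : Ω → ℂ) (g : ℂ → ℂ) : mom μ W Z g 0 = ∫ ω, g (Z ω) ∂μ := by
  unfold mom
  simp

theorem mom_one_add {Z : Ω → ℂ} {W : Ω → ℝ} (hZm : Measurable Z) (hWm : Measurable W)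
    (hZ : ∀ᵐ ω ∂μ, ‖Z ω‖ ≤ 1) (hW : ∀ᵐ ω ∂μ, |W ω| ≤ 1) (c : ℂ) {ψ : ℂ → ℂ}
    (hψ : Differentiable ℂ ψ) : mom μ W Z (fun w => 1 + c * ψ w) 0 = 1 + c * mom μ W Z ψ 0 := by
  rw [mom_zero, mom_zero, integral_add (integrable_const _), integral_const,
    MeasureTheory.integral_const_mul]
  · simp
  · have := integrable_mom hZm hWm hZ hW hψ 0
    simp only [pow_zero, one_mul, iteratedDeriv_zero, Nat.factorial_zero, Nat.cast_one,
      div_one] at this
    exact this.const_mul c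

omit [IsProbabilityMeasure μ] in
theorem mom_one_add_succ (W : Ω → ℝ) (Z : Ω → ℂ) (c : ℂ) {ψ : ℂ → ℂ}
    (hψ : Differentiable ℂ ψ) (j : ℕ) :
    mom μ W Z (fun w => 1 + c * ψ w) (j + 1) = c * mom μ W Z ψ (j + 1) := by
  unfold mom
  rw [← MeasureTheory.integral_const_mul]
  congr 1
  funext ω
  rw [iteratedDeriv_one_add c hψ]
  ring

/-- **Star inequality ⟹ bound.** -/
theorem star_abs {Z : Ω → ℂ} {W : Ω → ℝ} (hZm : Measurable Z) (hWm : Measurable W)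
    (hZ : ∀ᵐ ω ∂μ, ‖Z ω‖ ≤ 1) (hW : ∀ᵐ ω ∂μ, |W ω| ≤ 1) {a : ℕ → ℂ} (ha : (a 0).im = 0) (k : ℕ)
    {M : ℝ} (haM : |(a 0).re| ≤ M)
    (hstar : ∀ u : ℂ, ‖u‖ < 1 →
      |(∑ j ∈ Finset.range k, a (j + 1) * kmom μ W Z u (j + 1)).re| ≤ M * (kmom μ W Z u 0).re)
    {ψ : ℂ → ℂ} (hψ : Differentiable ℂ ψ) (hb : ∀ w : ℂ, ‖w‖ ≤ 1 → ‖ψ w‖ ≤ 1) :
    ‖∑ j ∈ Finset.range (k + 1), a j * mom μ W Z ψ j‖ ≤ M := by
  set S : ℂ := ∑ j ∈ Finset.range k, a (j + 1) * mom μ W Z ψ (j + 1) with hS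
  set G : ℂ := mom μ W Z ψ 0 with hG
  have hsplit : ∑ j ∈ Finset.range (k + 1), a j * mom μ W Z ψ j = S + a 0 * G := by
    rw [Finset.sum_range_succ']
  -- the unimodular factor
  obtain ⟨c, hc, hcS⟩ : ∃ c : ℂ, ‖c‖ = 1 ∧ c * (S + a 0 * G) = ((‖S + a 0 * G‖ : ℝ) : ℂ) := by
    by_cases h0 : S + a 0 * G = 0
    · exact ⟨1, by simp, by simp [h0]⟩
    · refine ⟨conj (S + a 0 * G) / ((‖S + a 0 * G‖ : ℝ) : ℂ), ?_, ?_⟩
      · rw [norm_div, RCLike.norm_conj, Complex.norm_real, norm_norm]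
        exact div_self (norm_ne_zero_iff.2 h0)
      · have h1 : ((‖S + a 0 * G‖ : ℝ) : ℂ) ≠ 0 := by
          exact_mod_cast norm_ne_zero_iff.2 h0
        rw [div_mul_eq_mul_div, div_eq_iff h1, mul_comm, Complex.mul_conj, Complex.normSq_eq_norm_sq]
        push_cast
        ring
  -- positivity for the sign `s` and the function `1 + e ψ`
  have key : ∀ s : ℝ, |s| = 1 → ∀ e : ℂ, ‖e‖ = 1 →
      0 ≤ M * (1 + (e * G).re) + s * (e * S).re := by
    intro s hs e he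
    set b : ℕ → ℂ := fun j => if j = 0 then (M : ℂ) else (s : ℂ) * a j with hbdef
    have hb0 : (b 0).im = 0 := by simp [hbdef]
    have hpos : ∀ u : ℂ, ‖u‖ < 1 → 0 ≤ ∫ ω, (Lk b k u (W ω) (Z ω)).re ∂μ := by
      intro u hu
      rw [integral_re_Lk hZm hWm hZ hW b k hu, Finset.sum_range_succ', Complex.add_re]
      have e1 : ∑ j ∈ Finset.range k, b (j + 1) * kmom μ W Z u (j + 1) =
          (s : ℂ) * ∑ j ∈ Finset.range k, a (j + 1) * kmom μ W Z u (j + 1) := by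
        rw [Finset.mul_sum]
        refine Finset.sum_congr rfl fun j _ => ?_
        simp only [hbdef, Nat.succ_ne_zero, if_false]
        ring
      have e2 : b 0 * kmom μ W Z u 0 = (M : ℂ) * kmom μ W Z u 0 := by simp [hbdef]
      rw [e1, e2, Complex.re_ofReal_mul, Complex.re_ofReal_mul]
      have h1 := hstar u hu
      have h2 := neg_abs_le (s * (∑ j ∈ Finset.range k, a (j + 1) * kmom μ W Z u (j + 1)).re)
      rw [abs_mul, hs, one_mul] at h2
      linarith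
    have hg : Differentiable ℂ fun w => 1 + e * ψ w := (hψ.const_mul e).const_add 1
    have hg0 : ∀ w : ℂ, ‖w‖ ≤ 1 → 0 ≤ ((fun w => 1 + e * ψ w) w).re := by
      intro w hw
      have h1 := Complex.abs_re_le_norm (e * ψ w)
      rw [norm_mul, he, one_mul] at h1
      have h2 := neg_abs_le (e * ψ w).re
      have h3 := hb w hw
      simp only [Complex.add_re, Complex.one_re]
      linarith
    have h := pos_of_kernels hZm hWm hZ hW hb0 k hpos hg hg0
    rw [integral_re_Lg hZm hWm hZ hW b k hg, Finset.sum_range_succ', Complex.add_re,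
      mom_one_add hZm hWm hZ hW e hψ] at h
    have e1 : ∑ j ∈ Finset.range k, b (j + 1) * mom μ W Z (fun w => 1 + e * ψ w) (j + 1) =
        (s : ℂ) * (e * S) := by
      rw [hS, Finset.mul_sum, Finset.mul_sum]
      refine Finset.sum_congr rfl fun j _ => ?_
      rw [mom_one_add_succ W Z e hψ]
      simp only [hbdef, Nat.succ_ne_zero, if_false]
      ring
    have e2 : b 0 = (M : ℂ) := by simp [hbdef]
    rw [e1, e2, Complex.re_ofReal_mul, Complex.re_ofReal_mul, Complex.add_re, Complex.one_re] at h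
    linarith
  -- `e = c`, `s = -1` and `e = -c`, `s = 1`
  have k1 := key (-1) (by norm_num) c hc
  have k2 := key 1 (by norm_num) (-c) (by rw [norm_neg, hc])
  have e3 : (-c * G).re = -(c * G).re := by rw [neg_mul, Complex.neg_re]
  have e4 : (-c * S).re = -(c * S).re := by rw [neg_mul, Complex.neg_re]
  rw [e3, e4] at k2
  have ha0 : a 0 = (((a 0).re : ℝ) : ℂ) := by
    apply Complex.ext <;> simp [ha]
  have e5 : (c * (S + a 0 * G)).re = (c * S).re + (a 0).re * (c * G).re := by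
    have : c * (S + a 0 * G) = c * S + (((a 0).re : ℝ) : ℂ) * (c * G) := by
      rw [← ha0]
      ring
    rw [this, Complex.add_re, Complex.re_ofReal_mul]
  rw [hsplit]
  have e6 : ‖S + a 0 * G‖ = (c * S).re + (a 0).re * (c * G).re := by
    rw [← e5, hcS, Complex.ofReal_re]
  rw [e6]
  obtain ⟨h1, h2⟩ := abs_le.1 haM
  have hM : 0 ≤ M := le_trans (abs_nonneg _) haM
  by_cases hG0 : 0 ≤ (c * G).re
  · nlinarith
  · have : (c * G).re < 0 := not_le.1 hG0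
    nlinarith

end Pool.Agent.HMidB
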